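import Pool.Agent.Lib.MP_1ff796_co.Sample

/-!
# A random family with many hits and few collisions
-/

open Finset

namespace Pool.Agent.C4F

open Classical in
theorem hits_bound {Z : Type} [Fintype Z] (Good : Z → Prop) (γ : ℝ)
    (hG : γ * Fintype.card Z ≤ (univ.filter Good).card) (K : ℕ) :
    ((univ.filter fun F : Fin K → Z =>
      ((univ.filter fun k => Good (F k)).card : ℝ) < γ * K / 4).card : ℝ) ≤
      Real.exp (-(γ * K / 4)) * (Fintype.card Z : ℝ) ^ K := by
  let f : Z → ℝ := fun z => if Good z then Real.exp (-1) else 1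
  have hexp : Real.exp (-1) ≤ 1 / 2 := by
    rw [Real.exp_neg]
    have h1 := Real.add_one_le_exp (1 : ℝ)
    rw [inv_le_comm₀ (Real.exp_pos _) (by norm_num)]
    norm_num at h1 ⊢
    linarith
  have hexp0 : 0 < Real.exp (-1) := Real.exp_pos _
  have hf0 : ∀ z, 0 ≤ f z := fun z => by
    simp only [f]
    split_ifs <;> positivity
  have hsumf : ∑ z, f z ≤ Fintype.card Z * Real.exp (-(γ / 2)) := by
    have h1 : ∑ z, f z = Fintype.card Z - (univ.filter Good).card * (1 - Real.exp (-1)) := by
      have h2 : ∀ z, f z = 1 - (if Good z then 1 - Real.exp (-1) else 0) := fun z => by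
        simp only [f]
        split_ifs <;> ring
      simp_rw [h2]
      rw [Finset.sum_sub_distrib, ← Finset.sum_filter, Finset.sum_const, Finset.sum_const,
        Finset.card_univ, nsmul_eq_mul, nsmul_eq_mul, mul_one]
    rw [h1]
    have h3 := Real.add_one_le_exp (-(γ / 2))
    have h4 : (0 : ℝ) ≤ (univ.filter Good).card := Nat.cast_nonneg _
    have h5 : (0 : ℝ) ≤ Fintype.card Z := Nat.cast_nonneg _
    have h6 : (Fintype.card Z : ℝ) * (-(γ / 2) + 1) ≤ Fintype.card Z * Real.exp (-(γ / 2)) :=
      mul_le_mul_of_nonneg_left h3 h5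
    nlinarith
  have hprod : ∀ F : Fin K → Z, ∏ k, f (F k) =
      Real.exp (-((univ.filter fun k => Good (F k)).card : ℝ)) := by
    intro F
    simp only [f]
    rw [Finset.prod_ite, Finset.prod_const, Finset.prod_const_one, mul_one, ← Real.exp_nat_mul]
    congr 1
    ring
  have htot : ∑ F : Fin K → Z, ∏ k, f (F k) ≤
      (Fintype.card Z : ℝ) ^ K * Real.exp (-(γ * K / 2)) := by
    rw [← Fintype.sum_pow]
    calc (∑ z, f z) ^ K ≤ (Fintype.card Z * Real.exp (-(γ / 2))) ^ K :=
          pow_le_pow_left₀ (Finset.sum_nonneg fun z _ => hf0 z) hsumf K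
      _ = (Fintype.card Z : ℝ) ^ K * Real.exp (-(γ * K / 2)) := by
          rw [mul_pow, ← Real.exp_nat_mul]
          congr 2
          ring
  have hlow : ((univ.filter fun F : Fin K → Z =>
      ((univ.filter fun k => Good (F k)).card : ℝ) < γ * K / 4).card : ℝ) *
      Real.exp (-(γ * K / 4)) ≤ ∑ F : Fin K → Z, ∏ k, f (F k) := by
    rw [← nsmul_eq_mul, ← Finset.sum_const]
    refine (Finset.sum_le_sum (g := fun F : Fin K → Z => ∏ k, f (F k)) ?_).trans
      (Finset.sum_le_sum_of_subset_of_nonneg (Finset.filter_subset _ _)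
        fun F _ _ => Finset.prod_nonneg fun k _ => hf0 _)
    intro F hF
    rw [hprod]
    apply Real.exp_le_exp.2
    have := (Finset.mem_filter.1 hF).2
    linarith
  have h1 := hlow.trans htot
  have h2 : Real.exp (-(γ * K / 2)) = Real.exp (-(γ * K / 4)) * Real.exp (-(γ * K / 4)) := by
    rw [← Real.exp_add]
    congr 1
    ring
  rw [h2, ← mul_assoc] at h1
  have h3 := le_of_mul_le_mul_right h1 (Real.exp_pos _)
  linarith

open Classical in
theorem pair_bound {Z : Type} [Fintype Z] [Nonempty Z] (Int : Z → Z → Prop) (δ : ℝ)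
    (hI : ((univ.filter fun q : Z × Z => Int q.1 q.2).card : ℝ) ≤ δ * (Fintype.card Z : ℝ) ^ 2)
    {K : ℕ} {k k' : Fin K} (hkk : k ≠ k') :
    ((univ.filter fun F : Fin K → Z => Int (F k) (F k')).card : ℝ) ≤
      δ * (Fintype.card Z : ℝ) ^ K := by
  have hZ : (0 : ℝ) < Fintype.card Z := by exact_mod_cast Fintype.card_pos
  have h1 : (univ.filter fun F : Fin K → Z => Int (F k) (F k')).card * Fintype.card (Z × Z) ≤
      (univ.filter fun q : Z × Z => Int q.1 q.2).card * Fintype.card (Fin K → Z) := by
    rw [← Finset.card_univ (α := Z × Z), ← Finset.card_univ (α := Fin K → Z),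
      ← Finset.card_product, ← Finset.card_product]
    apply Finset.card_le_card_of_injOn (fun q : (Fin K → Z) × (Z × Z) =>
      ((q.1 k, q.1 k'), Function.update (Function.update q.1 k q.2.1) k' q.2.2))
    · rintro ⟨F, a, b⟩ h
      simp only [Finset.coe_product, Set.mem_prod, Finset.mem_coe, Finset.mem_filter,
        Finset.mem_univ, true_and, and_true] at h ⊢
      exact h
    · rintro ⟨F, a, b⟩ _ ⟨F', a', b'⟩ _ h
      simp only [Prod.mk.injEq] at h
      obtain ⟨⟨h1, h2⟩, h3⟩ := h
      have hb : b = b' := by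
        have := congrFun h3 k'
        rwa [Function.update_self, Function.update_self] at this
      have ha : a = a' := by
        have := congrFun h3 k
        rwa [Function.update_of_ne hkk, Function.update_of_ne hkk, Function.update_self,
          Function.update_self] at this
      have hF : F = F' := by
        funext j
        by_cases hj : j = k
        · rw [hj, h1]
        · by_cases hj' : j = k'
          · rw [hj', h2]
          · have := congrFun h3 j
            rwa [Function.update_of_ne hj', Function.update_of_ne hj', Function.update_of_ne hj,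
              Function.update_of_ne hj] at this
      rw [hF, ha, hb]
  rw [Fintype.card_prod, Fintype.card_fun, Fintype.card_fin] at h1
  have h2 : ((univ.filter fun F : Fin K → Z => Int (F k) (F k')).card : ℝ) *
      ((Fintype.card Z : ℝ) * Fintype.card Z) ≤
      ((univ.filter fun q : Z × Z => Int q.1 q.2).card : ℝ) * (Fintype.card Z : ℝ) ^ K := by
    exact_mod_cast h1
  have h3 : ((univ.filter fun F : Fin K → Z => Int (F k) (F k')).card : ℝ) *
      ((Fintype.card Z : ℝ) * Fintype.card Z) ≤
      (δ * (Fintype.card Z : ℝ) ^ K) * ((Fintype.card Z : ℝ) * Fintype.card Z) := by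
    calc _ ≤ _ := h2
      _ ≤ (δ * (Fintype.card Z : ℝ) ^ 2) * (Fintype.card Z : ℝ) ^ K :=
          mul_le_mul_of_nonneg_right hI (by positivity)
      _ = _ := by ring
  exact le_of_mul_le_mul_right h3 (by positivity)

open Classical in
theorem exists_family {Z Λ : Type} [Fintype Z] [Nonempty Z] [Fintype Λ] (Good : Λ → Z → Prop)
    (Int : Z → Z → Prop) (γ δ : ℝ) (hγ : 0 < γ)
    (hG : ∀ l, γ * Fintype.card Z ≤ (univ.filter (Good l)).card)
    (hI : ((univ.filter fun q : Z × Z => Int q.1 q.2).card : ℝ) ≤ δ * (Fintype.card Z : ℝ) ^ 2)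
    (K : ℕ) (hK : 0 < K) (hK1 : Fintype.card Λ * Real.exp (-(γ * K / 4)) ≤ 1 / 4)
    (hK2 : 32 * (K * δ) ≤ γ) :
    ∃ F : Fin K → Z, (∀ l, γ * K / 4 ≤ ((univ.filter fun k => Good l (F k)).card : ℝ)) ∧
      ((univ.filter fun q : Fin K × Fin K => q.1 ≠ q.2 ∧ Int (F q.1) (F q.2)).card : ℝ) ≤
        γ * K / 8 := by
  have hZ : (0 : ℝ) < Fintype.card Z := by exact_mod_cast Fintype.card_pos
  have hK' : (0 : ℝ) < K := by exact_mod_cast hK
  by_contra hcon
  push Not at hcon
  -- bad sets
  have h1 : (univ : Finset (Fin K → Z)) ⊆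
      ((univ : Finset Λ).biUnion fun l => univ.filter fun F : Fin K → Z =>
        ((univ.filter fun k => Good l (F k)).card : ℝ) < γ * K / 4) ∪
      (univ.filter fun F : Fin K → Z => γ * K / 8 < ((univ.filter fun q : Fin K × Fin K =>
        q.1 ≠ q.2 ∧ Int (F q.1) (F q.2)).card : ℝ)) := by
    intro F _
    rw [Finset.mem_union, Finset.mem_biUnion, Finset.mem_filter]
    by_cases h : ∀ l, γ * K / 4 ≤ ((univ.filter fun k => Good l (F k)).card : ℝ)
    · exact Or.inr ⟨Finset.mem_univ _, hcon F h⟩
    · push Not at h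
      obtain ⟨l, hl⟩ := h
      exact Or.inl ⟨l, Finset.mem_univ _, Finset.mem_filter.2 ⟨Finset.mem_univ _, hl⟩⟩
  have h2 := (Finset.card_le_card h1).trans (Finset.card_union_le _ _)
  have h3 : (Fintype.card Z : ℝ) ^ K ≤
      (((univ : Finset Λ).biUnion fun l => univ.filter fun F : Fin K → Z =>
        ((univ.filter fun k => Good l (F k)).card : ℝ) < γ * K / 4).card : ℝ) +
      ((univ.filter fun F : Fin K → Z => γ * K / 8 < ((univ.filter fun q : Fin K × Fin K =>
        q.1 ≠ q.2 ∧ Int (F q.1) (F q.2)).card : ℝ)).card : ℝ) := by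
    rw [Finset.card_univ, Fintype.card_fun, Fintype.card_fin] at h2
    exact_mod_cast h2
  have h4 : (((univ : Finset Λ).biUnion fun l => univ.filter fun F : Fin K → Z =>
        ((univ.filter fun k => Good l (F k)).card : ℝ) < γ * K / 4).card : ℝ) ≤
      1 / 4 * (Fintype.card Z : ℝ) ^ K := by
    have h5 : (((univ : Finset Λ).biUnion fun l => univ.filter fun F : Fin K → Z =>
        ((univ.filter fun k => Good l (F k)).card : ℝ) < γ * K / 4).card : ℝ) ≤
        ∑ l : Λ, ((univ.filter fun F : Fin K → Z =>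
        ((univ.filter fun k => Good l (F k)).card : ℝ) < γ * K / 4).card : ℝ) := by
      exact_mod_cast Finset.card_biUnion_le
    calc _ ≤ _ := h5
      _ ≤ ∑ _l : Λ, Real.exp (-(γ * K / 4)) * (Fintype.card Z : ℝ) ^ K :=
          Finset.sum_le_sum fun l _ => hits_bound (Good l) γ (hG l) K
      _ = (Fintype.card Λ * Real.exp (-(γ * K / 4))) * (Fintype.card Z : ℝ) ^ K := by
          rw [Finset.sum_const, Finset.card_univ, nsmul_eq_mul, mul_assoc]
      _ ≤ 1 / 4 * (Fintype.card Z : ℝ) ^ K := mul_le_mul_of_nonneg_right hK1 (by positivity)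
  have h6 : ((univ.filter fun F : Fin K → Z => γ * K / 8 < ((univ.filter fun q : Fin K × Fin K =>
        q.1 ≠ q.2 ∧ Int (F q.1) (F q.2)).card : ℝ)).card : ℝ) ≤
      1 / 4 * (Fintype.card Z : ℝ) ^ K := by
    refine (markov (fun F : Fin K → Z => ((univ.filter fun q : Fin K × Fin K =>
        q.1 ≠ q.2 ∧ Int (F q.1) (F q.2)).card : ℝ)) (fun _ => Nat.cast_nonneg _) (γ * K / 8)
        (by positivity)).trans ?_
    have h7 : ∑ F : Fin K → Z, ((univ.filter fun q : Fin K × Fin K =>
        q.1 ≠ q.2 ∧ Int (F q.1) (F q.2)).card : ℝ) ≤ K ^ 2 * (δ * (Fintype.card Z : ℝ) ^ K) := by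
      have h8 : ∀ F : Fin K → Z, ((univ.filter fun q : Fin K × Fin K =>
          q.1 ≠ q.2 ∧ Int (F q.1) (F q.2)).card : ℝ) =
          ∑ q : Fin K × Fin K, if q.1 ≠ q.2 ∧ Int (F q.1) (F q.2) then 1 else 0 := by
        intro F
        rw [← Finset.natCast_card_filter]
      rw [Finset.sum_congr rfl fun F _ => h8 F, Finset.sum_comm]
      have hδ : 0 ≤ δ * (Fintype.card Z : ℝ) ^ K := by
        have h9 : 0 ≤ δ * (Fintype.card Z : ℝ) ^ 2 := le_trans (Nat.cast_nonneg _) hI
        have h10 : 0 ≤ δ := nonneg_of_mul_nonneg_left h9 (by positivity)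
        positivity
      calc _ ≤ ∑ _q : Fin K × Fin K, δ * (Fintype.card Z : ℝ) ^ K := by
            apply Finset.sum_le_sum
            intro q _
            by_cases hq : q.1 = q.2
            · rw [Finset.sum_eq_zero fun F _ => if_neg fun h => h.1 hq]
              exact hδ
            · rw [← Finset.natCast_card_filter]
              refine le_trans ?_ (pair_bound Int δ hI hq)
              have h11 : (univ.filter fun F : Fin K → Z => q.1 ≠ q.2 ∧ Int (F q.1) (F q.2)) ⊆
                  (univ.filter fun F : Fin K → Z => Int (F q.1) (F q.2)) := by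
                intro F hF
                rw [Finset.mem_filter] at hF ⊢
                exact ⟨hF.1, hF.2.2⟩
              exact_mod_cast Finset.card_le_card h11
        _ = _ := by
          rw [Finset.sum_const, Finset.card_univ, Fintype.card_prod, Fintype.card_fin,
            nsmul_eq_mul]
          push_cast
          ring
    rw [div_le_iff₀ (by positivity)]
    refine h7.trans ?_
    have h8 : (K : ℝ) ^ 2 * δ ≤ 1 / 4 * (γ * K / 8) := by nlinarith
    calc _ = (K : ℝ) ^ 2 * δ * (Fintype.card Z : ℝ) ^ K := by ring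
      _ ≤ 1 / 4 * (γ * K / 8) * (Fintype.card Z : ℝ) ^ K :=
        mul_le_mul_of_nonneg_right h8 (by positivity)
      _ = _ := by ring
  have h9 : (0 : ℝ) < (Fintype.card Z : ℝ) ^ K := by positivity
  linarith

end Pool.Agent.C4F
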