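import Pool.Agent.Lib.MP_1ff796_co.Absorb
import Pool.Agent.Lib.MP_1ff796_co.Family

/-!
# Counting absorbers, and the absorbing set
-/

open Finset

namespace Pool.Agent.C4F

open Classical in
theorem inter_ge {V : Type} [Fintype V] (P Q : V → Prop) (f g : V → ℝ) (hf1 : ∀ w, f w ≤ 1)
    (hg1 : ∀ w, g w ≤ 1) (hf : ∀ w, ¬ P w → f w ≤ 0) (hg : ∀ w, ¬ Q w → g w ≤ 0) :
    ∑ w, f w + ∑ w, g w - Fintype.card V ≤ Fintype.card {w // P w ∧ Q w} := by
  rw [Fintype.card_subtype, Finset.natCast_card_filter]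
  have h1 : (Fintype.card V : ℝ) = ∑ _w : V, (1 : ℝ) := by simp
  rw [h1, ← Finset.sum_add_distrib, ← Finset.sum_sub_distrib]
  apply Finset.sum_le_sum
  intro w _
  have := hf1 w
  have := hg1 w
  by_cases hp : P w
  · by_cases hq : Q w
    · rw [if_pos ⟨hp, hq⟩]
      linarith
    · rw [if_neg fun h => hq h.2]
      have := hg w hq
      linarith
  · rw [if_neg fun h => hp h.1]
    have := hf w hp
    linarith

section

open Classical in
theorem common_oo {V : Type} [Fintype V] {G : V → V → Prop} {c : ℝ}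
    (dO : ∀ v, (Fintype.card V + c) / 2 ≤ dout G v) (u v : V) :
    c ≤ Fintype.card {w // G u w ∧ G v w} := by
  have := inter_ge (G u) (G v) (e G u) (e G v) (e_le_one G u) (e_le_one G v)
    (fun w h => (e_zero h).le) (fun w h => (e_zero h).le)
  have h1 := dO u
  have h2 := dO v
  unfold dout at h1 h2
  linarith

open Classical in
theorem common_ii {V : Type} [Fintype V] {G : V → V → Prop} {c : ℝ}
    (dI : ∀ v, (Fintype.card V + c) / 2 ≤ din G v) (u v : V) :
    c ≤ Fintype.card {w // G w u ∧ G w v} := by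
  have := inter_ge (fun w => G w u) (fun w => G w v) (fun w => e G w u) (fun w => e G w v)
    (fun w => e_le_one G w u) (fun w => e_le_one G w v)
    (fun w h => (e_zero h).le) (fun w h => (e_zero h).le)
  have h1 := dI u
  have h2 := dI v
  unfold din at h1 h2
  linarith

open Classical in
theorem common_oi {V : Type} [Fintype V] {G : V → V → Prop} {c : ℝ}
    (dO : ∀ v, (Fintype.card V + c) / 2 ≤ dout G v)
    (dI : ∀ v, (Fintype.card V + c) / 2 ≤ din G v) (u v : V) :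
    c ≤ Fintype.card {w // G u w ∧ G w v} := by
  have := inter_ge (G u) (fun w => G w v) (e G u) (fun w => e G w v)
    (e_le_one G u) (fun w => e_le_one G w v)
    (fun w h => (e_zero h).le) (fun w h => (e_zero h).le)
  have h1 := dO u
  have h2 := dI v
  unfold dout at h1
  unfold din at h2
  linarith

/-- completing triples -/
def Trip {V : Type} (G : V → V → Prop) (a l : V) (t : V × V × V) : Prop :=
  (G a t.1 ∧ G l t.1) ∧ (G t.1 t.2.1 ∧ G t.2.1 t.2.2) ∧ (G t.2.2 a ∧ G t.2.2 l)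

open Classical in
theorem trip_ge {V : Type} [Fintype V] {G : V → V → Prop} {c : ℝ} (hc : 0 ≤ c)
    (dO : ∀ v, (Fintype.card V + c) / 2 ≤ dout G v)
    (dI : ∀ v, (Fintype.card V + c) / 2 ≤ din G v) (a l : V) :
    c ^ 3 ≤ Fintype.card {t // Trip G a l t} := by
  let F : (Σ q : {w // G a w ∧ G l w} × {w // G w a ∧ G w l}, {w // G q.1.1 w ∧ G w q.2.1}) →
      {t // Trip G a l t} := fun x => ⟨(x.1.1.1, x.2.1, x.1.2.1), x.1.1.2, x.2.2, x.1.2.2⟩
  have hF : Function.Injective F := by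
    rintro ⟨⟨⟨w1, h1⟩, ⟨w3, h3⟩⟩, ⟨w2, h2⟩⟩ ⟨⟨⟨w1', h1'⟩, ⟨w3', h3'⟩⟩, ⟨w2', h2'⟩⟩ h
    have h4 := congrArg Subtype.val h
    simp only [F, Prod.mk.injEq] at h4
    obtain ⟨rfl, rfl, rfl⟩ := h4
    rfl
  have h1 := Fintype.card_le_of_injective F hF
  rw [Fintype.card_sigma] at h1
  have h2 : c ^ 3 ≤ ((∑ q : {w // G a w ∧ G l w} × {w // G w a ∧ G w l},
      Fintype.card {w // G q.1.1 w ∧ G w q.2.1} : ℕ) : ℝ) := by
    push_cast
    have h3 : ∑ _q : {w // G a w ∧ G l w} × {w // G w a ∧ G w l}, c ≤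
        ∑ q : {w // G a w ∧ G l w} × {w // G w a ∧ G w l},
          (Fintype.card {w // G q.1.1 w ∧ G w q.2.1} : ℝ) :=
      Finset.sum_le_sum fun q _ => common_oi dO dI q.1.1 q.2.1
    rw [Finset.sum_const, Finset.card_univ, Fintype.card_prod, nsmul_eq_mul] at h3
    refine le_trans ?_ h3
    push_cast
    have h4 := common_oo dO a l
    have h5 := common_ii dI a l
    have h6 : c * c ≤ (Fintype.card {w // G a w ∧ G l w} : ℝ) *
        Fintype.card {w // G w a ∧ G w l} := mul_le_mul h4 h5 hc (Nat.cast_nonneg _)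
    calc c ^ 3 = c * c * c := by ring
      _ ≤ _ := mul_le_mul_of_nonneg_right h6 hc
  exact h2.trans (by exact_mod_cast h1)

open Classical in
theorem cyc_ge {V : Type} [Fintype V] {G : V → V → Prop} {c : ℝ} (hc : 0 ≤ c)
    (dO : ∀ v, (Fintype.card V + c) / 2 ≤ dout G v)
    (dI : ∀ v, (Fintype.card V + c) / 2 ≤ din G v) :
    (Fintype.card V : ℝ) ^ 2 * c ^ 2 ≤ Fintype.card {y : Fin 4 → V // CW4 G y} := by
  let F : (Σ q : V × V, {w // G q.1 w ∧ G w q.2} × {w // G q.2 w ∧ G w q.1}) →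
      {y : Fin 4 → V // CW4 G y} := fun x => ⟨![x.1.1, x.2.1.1, x.1.2, x.2.2.1],
        (CW4_iff G _).2 ⟨x.2.1.2.1, x.2.1.2.2, x.2.2.2.1, x.2.2.2.2⟩⟩
  have hF : Function.Injective F := by
    rintro ⟨⟨a, b⟩, ⟨w1, h1⟩, ⟨w2, h2⟩⟩ ⟨⟨a', b'⟩, ⟨w1', h1'⟩, ⟨w2', h2'⟩⟩ h
    have h4 := congrArg Subtype.val h
    have e0 := congrFun h4 0
    have e1 := congrFun h4 1
    have e2 := congrFun h4 2
    have e3 := congrFun h4 3
    simp only [F] at e0 e1 e2 e3
    change a = a' at e0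
    change w1 = w1' at e1
    change b = b' at e2
    change w2 = w2' at e3
    subst e0 e1 e2 e3
    rfl
  have h1 := Fintype.card_le_of_injective F hF
  rw [Fintype.card_sigma] at h1
  have h2 : (Fintype.card V : ℝ) ^ 2 * c ^ 2 ≤
      ((∑ q : V × V, Fintype.card ({w // G q.1 w ∧ G w q.2} × {w // G q.2 w ∧ G w q.1}) : ℕ) : ℝ)
      := by
    push_cast
    have h3 : ∑ _q : V × V, c ^ 2 ≤ ∑ q : V × V,
        (Fintype.card ({w // G q.1 w ∧ G w q.2} × {w // G q.2 w ∧ G w q.1}) : ℝ) := by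
      apply Finset.sum_le_sum
      intro q _
      rw [Fintype.card_prod, sq]
      push_cast
      exact mul_le_mul (common_oi dO dI _ _) (common_oi dO dI _ _) hc (Nat.cast_nonneg _)
    rw [Finset.sum_const, Finset.card_univ, Fintype.card_prod, nsmul_eq_mul] at h3
    refine le_trans (le_of_eq ?_) h3
    push_cast
    ring
  exact h2.trans (by exact_mod_cast h1)

open Classical in
theorem abs_ge {V : Type} [Fintype V] {G : V → V → Prop} {c : ℝ} (hc : 0 ≤ c)
    (dO : ∀ v, (Fintype.card V + c) / 2 ≤ dout G v)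
    (dI : ∀ v, (Fintype.card V + c) / 2 ≤ din G v) (l : Fin 4 → V) :
    (Fintype.card V : ℝ) ^ 2 * c ^ 14 ≤ Fintype.card {z : Fin 4 × Fin 4 → V // Abs G z l} := by
  let F : (Σ y : {y : Fin 4 → V // CW4 G y}, ∀ i, {t // Trip G (y.1 i) (l i) t}) →
      {z : Fin 4 × Fin 4 → V // Abs G z l} := fun x =>
    ⟨fun p => ![x.1.1 p.1, (x.2 p.1).1.1, (x.2 p.1).1.2.1, (x.2 p.1).1.2.2] p.2, by
      refine ⟨fun i j => ?_, fun i => x.1.2 i, fun i => ?_⟩
      · fin_cases j
        · exact (x.2 i).2.1.1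
        · exact (x.2 i).2.2.1.1
        · exact (x.2 i).2.2.1.2
        · exact (x.2 i).2.2.2.1
      · exact ⟨(x.2 i).2.1.2, (x.2 i).2.2.2.2⟩⟩
  have hF : Function.Injective F := by
    rintro ⟨⟨y, hy⟩, t⟩ ⟨⟨y', hy'⟩, t'⟩ h
    have h4 := congrArg Subtype.val h
    have e0 : y = y' := by
      funext i
      exact congrFun h4 (i, 0)
    subst e0
    have e1 : t = t' := by
      funext i
      apply Subtype.ext
      refine Prod.ext ?_ (Prod.ext ?_ ?_)
      · exact congrFun h4 (i, 1)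
      · exact congrFun h4 (i, 2)
      · exact congrFun h4 (i, 3)
    subst e1
    rfl
  have h1 := Fintype.card_le_of_injective F hF
  rw [Fintype.card_sigma] at h1
  have h2 : (Fintype.card V : ℝ) ^ 2 * c ^ 14 ≤
      ((∑ y : {y : Fin 4 → V // CW4 G y},
        Fintype.card (∀ i, {t // Trip G (y.1 i) (l i) t}) : ℕ) : ℝ) := by
    push_cast
    have h3 : ∑ _y : {y : Fin 4 → V // CW4 G y}, (c ^ 3) ^ 4 ≤
        ∑ y : {y : Fin 4 → V // CW4 G y},
          (Fintype.card (∀ i, {t // Trip G (y.1 i) (l i) t}) : ℝ) := by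
      apply Finset.sum_le_sum
      intro y _
      rw [Fintype.card_pi]
      push_cast
      calc (c ^ 3) ^ 4 = ∏ _i : Fin 4, c ^ 3 := by simp
        _ ≤ _ := Finset.prod_le_prod (fun i _ => by positivity)
          fun i _ => trip_ge hc dO dI (y.1 i) (l i)
    rw [Finset.sum_const, Finset.card_univ, nsmul_eq_mul] at h3
    refine le_trans ?_ h3
    calc (Fintype.card V : ℝ) ^ 2 * c ^ 14 = (Fintype.card V : ℝ) ^ 2 * c ^ 2 * (c ^ 3) ^ 4 := by
          ring
      _ ≤ _ := mul_le_mul_of_nonneg_right (cyc_ge hc dO dI) (by positivity)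
  exact h2.trans (by exact_mod_cast h1)

end

end Pool.Agent.C4F
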