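import Mathlib

/-!
# Counting tools: maps with repeated values, the box lemma of Erdős, second moments
-/

open Finset

namespace Pool.Agent.C4F

theorem card_eq_le {ι X : Type*} [Fintype ι] [DecidableEq ι] [Fintype X] [DecidableEq X]
    {i j : ι} (hij : i ≠ j) :
    (univ.filter fun ω : ι → X => ω i = ω j).card * Fintype.card X ≤
      Fintype.card X ^ Fintype.card ι := by
  rw [← Fintype.card_fun, ← Finset.card_univ (α := X), ← Finset.card_product,
    ← Finset.card_univ (α := ι → X)]
  apply Finset.card_le_card_of_injOn (fun q : (ι → X) × X => Function.update q.1 i q.2)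
  · intro q _
    exact Finset.mem_coe.2 (Finset.mem_univ _)
  · rintro ⟨ω, z⟩ h1 ⟨ω', z'⟩ h2 h
    simp only [Finset.coe_product, Set.mem_prod, Finset.mem_coe, Finset.mem_filter] at h1 h2
    simp only at h
    have hz : z = z' := by
      have := congrFun h i
      simpa using this
    have hk : ∀ k, k ≠ i → ω k = ω' k := fun k hk => by
      have := congrFun h k
      rwa [Function.update_of_ne hk, Function.update_of_ne hk] at this
    have hω : ω = ω' := by
      funext k
      by_cases hk' : k = i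
      · rw [hk', h1.1.2, h2.1.2]
        exact hk j hij.symm
      · exact hk k hk'
    rw [hz, hω]

theorem card_nonInj (ι X : Type*) [Fintype ι] [DecidableEq ι] [Fintype X] [DecidableEq X]
    [DecidablePred fun ω : ι → X => ¬ Function.Injective ω] :
    (univ.filter fun ω : ι → X => ¬ Function.Injective ω).card * Fintype.card X ≤
      Fintype.card ι ^ 2 * Fintype.card X ^ Fintype.card ι := by
  have h1 : (univ.filter fun ω : ι → X => ¬ Function.Injective ω) ⊆
      (univ.filter fun q : ι × ι => q.1 ≠ q.2).biUnion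
        (fun q => univ.filter fun ω : ι → X => ω q.1 = ω q.2) := by
    intro ω hω
    rw [Finset.mem_filter] at hω
    have h2 := hω.2
    unfold Function.Injective at h2
    push Not at h2
    obtain ⟨i, j, h3, h4⟩ := h2
    rw [Finset.mem_biUnion]
    exact ⟨(i, j), Finset.mem_filter.2 ⟨Finset.mem_univ _, h4⟩,
      Finset.mem_filter.2 ⟨Finset.mem_univ _, h3⟩⟩
  calc (univ.filter fun ω : ι → X => ¬ Function.Injective ω).card * Fintype.card X
      ≤ ((univ.filter fun q : ι × ι => q.1 ≠ q.2).biUnion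
        (fun q => univ.filter fun ω : ι → X => ω q.1 = ω q.2)).card * Fintype.card X :=
        Nat.mul_le_mul_right _ (Finset.card_le_card h1)
    _ ≤ (∑ q ∈ (univ.filter fun q : ι × ι => q.1 ≠ q.2),
        (univ.filter fun ω : ι → X => ω q.1 = ω q.2).card) * Fintype.card X :=
        Nat.mul_le_mul_right _ Finset.card_biUnion_le
    _ = ∑ q ∈ (univ.filter fun q : ι × ι => q.1 ≠ q.2),
        (univ.filter fun ω : ι → X => ω q.1 = ω q.2).card * Fintype.card X := Finset.sum_mul _ _ _
    _ ≤ ∑ q ∈ (univ.filter fun q : ι × ι => q.1 ≠ q.2), Fintype.card X ^ Fintype.card ι := by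
        apply Finset.sum_le_sum
        intro q hq
        exact card_eq_le (Finset.mem_filter.1 hq).2
    _ ≤ Fintype.card ι ^ 2 * Fintype.card X ^ Fintype.card ι := by
        rw [Finset.sum_const, smul_eq_mul]
        apply Nat.mul_le_mul_right
        calc (univ.filter fun q : ι × ι => q.1 ≠ q.2).card ≤ (univ : Finset (ι × ι)).card :=
              Finset.card_filter_le _ _
          _ = Fintype.card ι ^ 2 := by
              rw [Finset.card_univ, Fintype.card_prod, sq]

/-- **The box lemma.** -/
theorem erdos (s : ℕ) : ∀ (r : ℕ) (α : ℝ), 0 < α → ∃ N0 : ℕ, ∀ (X : Type) [Fintype X]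
    [DecidableEq X] (S : Finset (Fin r → X)), N0 ≤ Fintype.card X →
    α * (Fintype.card X : ℝ) ^ r ≤ S.card →
    ∃ A : Fin r → Fin (s + 1) → X, (∀ i, Function.Injective (A i)) ∧
      ∀ g : Fin r → Fin (s + 1), (fun i => A i (g i)) ∈ S := by
  intro r
  induction r with
  | zero =>
    intro α hα
    refine ⟨0, fun X _ _ S _ hS => ?_⟩
    have h1 : (0 : ℝ) < S.card := by
      rw [pow_zero, mul_one] at hS
      linarith
    have h2 : 0 < S.card := by exact_mod_cast h1
    obtain ⟨ω, hω⟩ := Finset.card_pos.1 h2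
    refine ⟨fun i => i.elim0, fun i => i.elim0, fun g => ?_⟩
    have : (fun i : Fin 0 => (i.elim0 : Fin (s + 1) → X) (g i)) = ω := Subsingleton.elim _ _
    rwa [this]
  | succ r ih =>
    intro α hα
    have hα' : (0 : ℝ) < α ^ (s + 1) / 2 := by positivity
    obtain ⟨N1, hN1⟩ := ih (α ^ (s + 1) / 2) hα'
    refine ⟨max N1 (⌊((s + 1 : ℕ) : ℝ) ^ 2 / (α ^ (s + 1) / 2)⌋₊ + 1), fun X _ _ S hN hS => ?_⟩
    classical
    set N := Fintype.card X with hNdef
    have hNa : N1 ≤ N := le_trans (le_max_left _ _) hN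
    have hNb : ((s + 1 : ℕ) : ℝ) ^ 2 / (α ^ (s + 1) / 2) < N := by
      have h1 := le_trans (le_max_right _ _) hN
      exact Nat.lt_of_floor_lt (Nat.lt_of_succ_le h1)
    have hNpos : (0 : ℝ) < N := lt_of_le_of_lt (by positivity) hNb
    -- degrees
    let deg : (Fin r → X) → ℕ := fun ω => (univ.filter fun x : X => Fin.cons x ω ∈ S).card
    have hdeg : ∑ ω, deg ω = S.card := by
      have h1 : S.card = ∑ p : Fin (r + 1) → X, if p ∈ S then 1 else 0 := by
        rw [← Finset.card_filter]
        congr 1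
        ext p
        simp
      rw [h1, ← (Fin.consEquiv (fun _ : Fin (r + 1) => X)).sum_comp, Fintype.sum_prod_type_right]
      apply Finset.sum_congr rfl
      intro ω _
      simp only [deg]
      rw [Finset.card_filter]
      rfl
    have hcount : ∑ a : Fin (s + 1) → X, (univ.filter fun ω : Fin r → X =>
        ∀ k, Fin.cons (a k) ω ∈ S).card = ∑ ω, deg ω ^ (s + 1) := by
      have h1 : ∀ ω : Fin r → X, deg ω ^ (s + 1) =
          ∑ a : Fin (s + 1) → X, if (∀ k, (Fin.cons (a k) ω : Fin (r + 1) → X) ∈ S) then 1 else 0 := by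
        intro ω
        rw [← Finset.card_filter]
        have h2 : (univ.filter fun a : Fin (s + 1) → X =>
            ∀ k, (Fin.cons (a k) ω : Fin (r + 1) → X) ∈ S) =
            Fintype.piFinset (fun _ : Fin (s + 1) => univ.filter fun x : X =>
              (Fin.cons x ω : Fin (r + 1) → X) ∈ S) := by
          ext a
          simp [Fintype.mem_piFinset]
        rw [h2, Fintype.card_piFinset]
        simp [deg]
      simp_rw [h1]
      rw [Finset.sum_comm]
      apply Finset.sum_congr rfl
      intro a _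
      rw [Finset.card_filter]
    have hpm : α ^ (s + 1) * (N : ℝ) ^ (r + (s + 1)) ≤ ∑ ω, (deg ω : ℝ) ^ (s + 1) := by
      have h1 := pow_sum_div_card_le_sum_pow (s := (univ : Finset (Fin r → X)))
        (f := fun ω => (deg ω : ℝ)) (fun _ _ => Nat.cast_nonneg _) s
      have h2 : ∑ ω, (deg ω : ℝ) = S.card := by
        rw [← hdeg]
        push_cast
        rfl
      rw [h2, Finset.card_univ, Fintype.card_fun, Fintype.card_fin, ← hNdef] at h1
      refine le_trans ?_ h1
      push_cast
      rw [le_div_iff₀ (by positivity)]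
      calc α ^ (s + 1) * (N : ℝ) ^ (r + (s + 1)) * ((N : ℝ) ^ r) ^ s
          = (α * (N : ℝ) ^ (r + 1)) ^ (s + 1) := by ring
        _ ≤ (S.card : ℝ) ^ (s + 1) := pow_le_pow_left₀ (by positivity) hS _
    have hbad : ((univ.filter fun a : Fin (s + 1) → X => ¬ Function.Injective a).card : ℝ) * N ≤
        ((s + 1 : ℕ) : ℝ) ^ 2 * (N : ℝ) ^ (s + 1) := by
      have h1 := card_nonInj (Fin (s + 1)) X
      rw [Fintype.card_fin] at h1
      exact_mod_cast h1
    have hex : ∃ a : Fin (s + 1) → X, Function.Injective a ∧ α ^ (s + 1) / 2 * (N : ℝ) ^ r ≤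
        ((univ.filter fun ω : Fin r → X => ∀ k, (Fin.cons (a k) ω : Fin (r + 1) → X) ∈ S).card : ℝ)
        := by
      by_contra hcon
      push Not at hcon
      have h1 : ∑ a : Fin (s + 1) → X, ((univ.filter fun ω : Fin r → X =>
          ∀ k, (Fin.cons (a k) ω : Fin (r + 1) → X) ∈ S).card : ℝ) ≤
          ∑ a : Fin (s + 1) → X, (α ^ (s + 1) / 2 * (N : ℝ) ^ r +
            if ¬ Function.Injective a then (N : ℝ) ^ r else 0) := by
        apply Finset.sum_le_sum
        intro a _
        by_cases ha : Function.Injective a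
        · rw [if_neg (not_not.2 ha), add_zero]
          exact (hcon a ha).le
        · rw [if_pos ha]
          have h2 : ((univ.filter fun ω : Fin r → X =>
              ∀ k, (Fin.cons (a k) ω : Fin (r + 1) → X) ∈ S).card : ℝ) ≤ (N : ℝ) ^ r := by
            have h3 := Finset.card_filter_le (univ : Finset (Fin r → X))
              (fun ω => ∀ k, (Fin.cons (a k) ω : Fin (r + 1) → X) ∈ S)
            rw [Finset.card_univ, Fintype.card_fun, Fintype.card_fin] at h3
            exact_mod_cast h3
          have : 0 ≤ α ^ (s + 1) / 2 * (N : ℝ) ^ r := by positivity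
          linarith
      rw [Finset.sum_add_distrib, Finset.sum_const, Finset.card_univ, Fintype.card_fun,
        Fintype.card_fin, nsmul_eq_mul, ← Finset.sum_filter, Finset.sum_const, nsmul_eq_mul] at h1
      have h2 : ∑ a : Fin (s + 1) → X, ((univ.filter fun ω : Fin r → X =>
          ∀ k, (Fin.cons (a k) ω : Fin (r + 1) → X) ∈ S).card : ℝ) = ∑ ω, (deg ω : ℝ) ^ (s + 1) := by
        exact_mod_cast hcount
      rw [h2] at h1
      have h3 := hpm.trans h1
      have h4 : ((univ.filter fun a : Fin (s + 1) → X => ¬ Function.Injective a).card : ℝ) * N *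
          (N : ℝ) ^ r < α ^ (s + 1) / 2 * (N : ℝ) ^ (r + (s + 1)) * N := by
        calc ((univ.filter fun a : Fin (s + 1) → X => ¬ Function.Injective a).card : ℝ) * N *
            (N : ℝ) ^ r ≤ ((s + 1 : ℕ) : ℝ) ^ 2 * (N : ℝ) ^ (s + 1) * (N : ℝ) ^ r :=
              mul_le_mul_of_nonneg_right hbad (by positivity)
          _ < (N * (α ^ (s + 1) / 2)) * (N : ℝ) ^ (s + 1) * (N : ℝ) ^ r := by
              have h5 : ((s + 1 : ℕ) : ℝ) ^ 2 < N * (α ^ (s + 1) / 2) :=
                (div_lt_iff₀ hα').1 hNb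
              gcongr
          _ = α ^ (s + 1) / 2 * (N : ℝ) ^ (r + (s + 1)) * N := by ring
      have h6 : ((univ.filter fun a : Fin (s + 1) → X => ¬ Function.Injective a).card : ℝ) *
          (N : ℝ) ^ r < α ^ (s + 1) / 2 * (N : ℝ) ^ (r + (s + 1)) := by
        by_contra hc
        push Not at hc
        have := mul_le_mul_of_nonneg_right hc hNpos.le
        linarith
      push_cast at h3
      have h7 : (N : ℝ) ^ (s + 1) * (α ^ (s + 1) / 2 * (N : ℝ) ^ r) =
          α ^ (s + 1) / 2 * (N : ℝ) ^ (r + (s + 1)) := by ring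
      rw [h7] at h3
      linarith
    obtain ⟨a, ha, hacard⟩ := hex
    obtain ⟨A, hA, hAS⟩ := hN1 X (univ.filter fun ω : Fin r → X =>
      ∀ k, (Fin.cons (a k) ω : Fin (r + 1) → X) ∈ S) hNa hacard
    refine ⟨Fin.cons a A, ?_, ?_⟩
    · intro i
      refine Fin.cases ?_ (fun j => ?_) i
      · exact ha
      · exact hA j
    · intro g
      have h1 := hAS (fun i => g i.succ)
      rw [Finset.mem_filter] at h1
      have h2 := h1.2 (g 0)
      have h3 : (fun i : Fin (r + 1) => (Fin.cons a A : Fin (r + 1) → Fin (s + 1) → X) i (g i)) =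
          Fin.cons (a (g 0)) (fun i => A i (g i.succ)) := by
        funext i
        refine Fin.cases ?_ (fun j => ?_) i
        · rfl
        · rfl
      rw [h3]
      exact h2

/-- second moment bound -/
theorem second_moment {X : Type} [Fintype X] (a : X → ℝ) (ha : ∑ x, a x = 0) (M : ℝ)
    (hM : ∀ x, a x ^ 2 ≤ M) (r : ℕ) :
    ∑ ω : Fin r → X, (∑ j, a (ω j)) = 0 ∧
    ∑ ω : Fin r → X, (∑ j, a (ω j)) ^ 2 ≤ M * r * (Fintype.card X : ℝ) ^ r := by
  induction r with
  | zero => simp
  | succ r ih =>
    obtain ⟨ih1, ih2⟩ := ih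
    constructor
    · rw [← (Fin.consEquiv (fun _ : Fin (r + 1) => X)).sum_comp, Fintype.sum_prod_type]
      have h1 : ∀ (x : X) (ω : Fin r → X), (∑ j, a (Fin.consEquiv (fun _ : Fin (r + 1) => X)
          (x, ω) j)) = a x + ∑ j, a (ω j) := by
        intro x ω
        rw [Fin.sum_univ_succ]
        rfl
      simp_rw [h1, Finset.sum_add_distrib, ih1, Finset.sum_const]
      rw [← Finset.smul_sum, ha]
      simp
    · rw [← (Fin.consEquiv (fun _ : Fin (r + 1) => X)).sum_comp, Fintype.sum_prod_type]
      have h1 : ∀ (x : X) (ω : Fin r → X), (∑ j, a (Fin.consEquiv (fun _ : Fin (r + 1) => X)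
          (x, ω) j)) ^ 2 = a x ^ 2 + 2 * a x * (∑ j, a (ω j)) + (∑ j, a (ω j)) ^ 2 := by
        intro x ω
        rw [Fin.sum_univ_succ]
        simp only [Fin.consEquiv_apply, Fin.cons_zero, Fin.cons_succ]
        ring
      have h1' : ∀ x : X, ∑ ω : Fin r → X, (∑ j, a (Fin.consEquiv (fun _ : Fin (r + 1) => X)
          (x, ω) j)) ^ 2 = (Fintype.card X : ℝ) ^ r * a x ^ 2 +
          ∑ ω : Fin r → X, (∑ j, a (ω j)) ^ 2 := by
        intro x
        rw [Finset.sum_congr rfl fun ω _ => h1 x ω, Finset.sum_add_distrib,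
          Finset.sum_add_distrib, ← Finset.mul_sum, ih1, mul_zero, add_zero, Finset.sum_const,
          Finset.card_univ, Fintype.card_fun, Fintype.card_fin, nsmul_eq_mul]
        push_cast
        rfl
      rw [Finset.sum_congr rfl fun x _ => h1' x, Finset.sum_add_distrib, ← Finset.mul_sum,
        Finset.sum_const, Finset.card_univ, nsmul_eq_mul]
      push_cast
      have h2 : ∑ x, a x ^ 2 ≤ Fintype.card X * M := by
        calc ∑ x, a x ^ 2 ≤ ∑ _x : X, M := Finset.sum_le_sum fun x _ => hM x
          _ = Fintype.card X * M := by simp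
      have h3 : (0 : ℝ) ≤ (Fintype.card X : ℝ) ^ r := by positivity
      have h4 : (0 : ℝ) ≤ (Fintype.card X : ℝ) := by positivity
      have h5 := mul_le_mul_of_nonneg_left h2 h3
      have h6 := mul_le_mul_of_nonneg_left ih2 h4
      calc _ ≤ (Fintype.card X : ℝ) ^ r * (Fintype.card X * M) +
            Fintype.card X * (M * r * (Fintype.card X : ℝ) ^ r) := add_le_add h5 h6
        _ = M * (r + 1) * (Fintype.card X : ℝ) ^ (r + 1) := by ring

/-- Chebyshev, lower tail -/
theorem chebyshev {X : Type} [Fintype X] (x : X → ℝ) (b : ℝ) (hx0 : ∀ z, 0 ≤ x z)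
    (hxb : ∀ z, x z ≤ b) (μ : ℝ) (hμ : ∑ z, x z = μ * Fintype.card X) (r : ℕ) (t : ℝ) (ht : 0 < t)
    [DecidablePred fun ω : Fin r → X => ∑ j, x (ω j) < r * μ - t] :
    ((univ.filter fun ω : Fin r → X => ∑ j, x (ω j) < r * μ - t).card : ℝ) ≤
      b ^ 2 * r / t ^ 2 * (Fintype.card X : ℝ) ^ r := by
  rcases isEmpty_or_nonempty X with hX | hX
  · rcases Nat.eq_zero_or_pos r with hr | hr
    · subst hr
      have : (univ.filter fun ω : Fin 0 → X => ∑ j, x (ω j) < (0 : ℕ) * μ - t) = ∅ := by
        rw [Finset.filter_eq_empty_iff]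
        intro ω _
        simp
        linarith
      rw [this]
      simp
    · have : IsEmpty (Fin r → X) := ⟨fun ω => hX.elim (ω ⟨0, hr⟩)⟩
      have h1 : (univ.filter fun ω : Fin r → X => ∑ j, x (ω j) < r * μ - t) = ∅ :=
        Finset.eq_empty_of_isEmpty _
      rw [h1, Finset.card_empty, Nat.cast_zero]
      have : (0 : ℝ) ≤ b ^ 2 * r / t ^ 2 := by positivity
      positivity
  · have hN : (0 : ℝ) < Fintype.card X := by exact_mod_cast Fintype.card_pos
    have hμ0 : 0 ≤ μ := by
      have h1 : 0 ≤ ∑ z, x z := Finset.sum_nonneg fun z _ => hx0 z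
      rw [hμ] at h1
      exact nonneg_of_mul_nonneg_left h1 hN
    have hμb : μ ≤ b := by
      have h1 : ∑ z, x z ≤ ∑ _z : X, b := Finset.sum_le_sum fun z _ => hxb z
      rw [hμ, Finset.sum_const, Finset.card_univ, nsmul_eq_mul, mul_comm] at h1
      exact le_of_mul_le_mul_left h1 hN
    have h1 := (second_moment (fun z => x z - μ) (by
      rw [Finset.sum_sub_distrib, hμ, Finset.sum_const, Finset.card_univ, nsmul_eq_mul]
      ring) (b ^ 2) (fun z => by
        have := hx0 z
        have := hxb z
        apply sq_le_sq'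
        · linarith
        · linarith) r).2
    have h2 : ∑ ω ∈ univ.filter (fun ω : Fin r → X => ∑ j, x (ω j) < r * μ - t), t ^ 2 ≤
        ∑ ω : Fin r → X, (∑ j, (x (ω j) - μ)) ^ 2 := by
      calc ∑ ω ∈ univ.filter (fun ω : Fin r → X => ∑ j, x (ω j) < r * μ - t), t ^ 2
          ≤ ∑ ω ∈ univ.filter (fun ω : Fin r → X => ∑ j, x (ω j) < r * μ - t),
            (∑ j, (x (ω j) - μ)) ^ 2 := by
              apply Finset.sum_le_sum
              intro ω hω
              have h3 := (Finset.mem_filter.1 hω).2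
              rw [Finset.sum_sub_distrib, Finset.sum_const, Finset.card_univ, Fintype.card_fin,
                nsmul_eq_mul]
              nlinarith
        _ ≤ ∑ ω : Fin r → X, (∑ j, (x (ω j) - μ)) ^ 2 :=
              Finset.sum_le_sum_of_subset_of_nonneg (Finset.filter_subset _ _)
                (fun _ _ _ => sq_nonneg _)
    rw [Finset.sum_const, nsmul_eq_mul] at h2
    have h3 := h2.trans h1
    have ht2 : (0 : ℝ) < t ^ 2 := by positivity
    rw [← le_div_iff₀ ht2] at h3
    calc _ ≤ _ := h3
      _ = b ^ 2 * r / t ^ 2 * (Fintype.card X : ℝ) ^ r := by ring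

end Pool.Agent.C4F
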