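import Pool.Agent.Lib.MP_1ff796_co.Frac
import Pool.Agent.Lib.MP_1ff796_co.Erdos

/-!
# Absorbers
-/

open Finset

namespace Pool.Agent.C4F

/-- The four tiles `z (i, 0) → z (i, 1) → z (i, 2) → z (i, 3)`. -/
def Valid {V : Type} (G : V → V → Prop) (z : Fin 4 × Fin 4 → V) : Prop :=
  ∀ i j, G (z (i, j)) (z (i, j + 1))

/-- `z` absorbs `l` -/
def Abs {V : Type} (G : V → V → Prop) (z : Fin 4 × Fin 4 → V) (l : Fin 4 → V) : Prop :=
  Valid G z ∧ CW4 G (fun i => z (i, 0)) ∧ ∀ i, G (l i) (z (i, 1)) ∧ G (z (i, 3)) (l i)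

theorem Abs.tiled {V : Type} {G : V → V → Prop} {z : Fin 4 × Fin 4 → V} {l : Fin 4 → V}
    (h : Abs G z l) (hz : Function.Injective z) (hl : Function.Injective l)
    (hd : ∀ p i, z p ≠ l i) : Tiled G (Set.range z ∪ Set.range l) := by
  obtain ⟨h1, h2, h3⟩ := h
  let f : Fin 4 × Fin 4 → V := fun p => if p.2 = 0 then l p.1 else z p
  let g : Unit × Fin 4 → V := fun p => z (p.2, 0)
  have hf : Function.Injective f := by
    rintro ⟨i, j⟩ ⟨i', j'⟩ h
    simp only [f] at h
    by_cases hj : j = 0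
    · by_cases hj' : j' = 0
      · rw [if_pos hj, if_pos hj'] at h
        rw [hl h, hj, hj']
      · rw [if_pos hj, if_neg hj'] at h
        exact absurd h.symm (hd _ _)
    · by_cases hj' : j' = 0
      · rw [if_neg hj, if_pos hj'] at h
        exact absurd h (hd _ _)
      · rw [if_neg hj, if_neg hj'] at h
        exact hz h
  have hg : Function.Injective g := by
    rintro ⟨_, j⟩ ⟨_, j'⟩ h
    have := hz h
    rw [Prod.mk.injEq] at this
    exact Prod.ext rfl this.1
  have hT1 : Tiled G (Set.range f) := by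
    refine ⟨Fin 4, inferInstance, f, hf, fun i j => ?_, rfl⟩
    fin_cases j
    · exact (h3 i).1
    · exact h1 i 1
    · exact h1 i 2
    · exact (h3 i).2
  have hT2 : Tiled G (Set.range g) := ⟨Unit, inferInstance, g, hg, fun _ j => h2 j, rfl⟩
  have hdis : Disjoint (Set.range f) (Set.range g) := by
    rw [Set.disjoint_left]
    rintro v ⟨⟨i, j⟩, rfl⟩ ⟨⟨_, j'⟩, h⟩
    simp only [f, g] at h
    by_cases hj : j = 0
    · rw [if_pos hj] at h
      exact hd _ _ h
    · rw [if_neg hj] at h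
      have := hz h
      rw [Prod.mk.injEq] at this
      exact hj this.2.symm
  have hset : Set.range z ∪ Set.range l = Set.range f ∪ Set.range g := by
    ext v
    constructor
    · rintro (⟨⟨i, j⟩, rfl⟩ | ⟨i, rfl⟩)
      · by_cases hj : j = 0
        · right
          exact ⟨((), i), by rw [hj]⟩
        · left
          exact ⟨(i, j), by simp only [f]; rw [if_neg hj]⟩
      · left
        exact ⟨(i, 0), if_pos rfl⟩
    · rintro (⟨⟨i, j⟩, rfl⟩ | ⟨⟨_, j⟩, rfl⟩)
      · simp only [f]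
        by_cases hj : j = 0
        · rw [if_pos hj]
          exact Or.inr ⟨i, rfl⟩
        · rw [if_neg hj]
          exact Or.inl ⟨(i, j), rfl⟩
      · exact Or.inl ⟨(j, 0), rfl⟩
  rw [hset]
  exact hT1.union hT2 hdis

theorem tiled_iUnion {V K : Type} {G : V → V → Prop} (F : K → Fin 4 × Fin 4 → V)
    (S : Finset K) (hS : ∀ k ∈ S, Valid G (F k) ∧ Function.Injective (F k))
    (hd : ∀ k ∈ S, ∀ k' ∈ S, k ≠ k' → ∀ p p', F k p ≠ F k' p') :
    Tiled G (⋃ k ∈ S, Set.range (F k)) := by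
  refine ⟨S × Fin 4, inferInstance, fun q => F q.1.1.1 (q.1.2, q.2), ?_, ?_, ?_⟩
  · rintro ⟨⟨⟨k, hk⟩, i⟩, j⟩ ⟨⟨⟨k', hk'⟩, i'⟩, j'⟩ h
    simp only at h
    by_cases hkk : k = k'
    · subst hkk
      have := (hS k hk).2 h
      rw [Prod.mk.injEq] at this
      obtain ⟨rfl, rfl⟩ := this
      rfl
    · exact absurd h (hd k hk k' hk' hkk _ _)
  · rintro ⟨⟨k, hk⟩, i⟩ j
    exact (hS k hk).1 i j
  · ext v
    simp only [Set.mem_range, Set.mem_iUnion]
    constructor
    · rintro ⟨⟨⟨⟨k, hk⟩, i⟩, j⟩, rfl⟩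
      exact ⟨k, hk, (i, j), rfl⟩
    · rintro ⟨k, hk, ⟨i, j⟩, rfl⟩
      exact ⟨⟨⟨⟨k, hk⟩, i⟩, j⟩, rfl⟩

open Classical in
theorem greedy {V K : Type} {G : V → V → Prop} (F : K → Fin 4 × Fin 4 → V) :
    ∀ (q : ℕ) (S : Finset K) (L : Finset V),
    (∀ k ∈ S, Valid G (F k) ∧ Function.Injective (F k)) →
    (∀ k ∈ S, ∀ k' ∈ S, k ≠ k' → ∀ p p', F k p ≠ F k' p') →
    (∀ k ∈ S, ∀ p, F k p ∉ L) → L.card = 4 * q →
    (∀ l : Fin 4 → V, q ≤ (S.filter fun k => Abs G (F k) l).card) →
    Tiled G ((⋃ k ∈ S, Set.range (F k)) ∪ (L : Set V)) := by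
  intro q
  induction q with
  | zero =>
    intro S L hS hd _ hL _
    have hL0 : L = ∅ := Finset.card_eq_zero.1 (by rw [hL])
    rw [hL0, Finset.coe_empty, Set.union_empty]
    exact tiled_iUnion F S hS hd
  | succ q ih =>
    intro S L hS hd hdL hL habs
    -- four elements of `L`
    obtain ⟨L4, hL4, hL4c⟩ := Finset.exists_subset_card_eq (s := L) (n := 4) (by omega)
    have e : Fin 4 ≃ L4 := by
      apply Fintype.equivOfCardEq
      rw [Fintype.card_fin, Fintype.card_coe, hL4c]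
    let l : Fin 4 → V := fun i => (e i : V)
    have hl : Function.Injective l := Subtype.val_injective.comp e.injective
    have hlr : Set.range l = (L4 : Set V) := by
      ext v
      constructor
      · rintro ⟨i, rfl⟩
        exact (e i).2
      · intro hv
        exact ⟨e.symm ⟨v, hv⟩, by simp only [l]; rw [Equiv.apply_symm_apply]⟩
    have hlL : ∀ i, l i ∈ L := fun i => hL4 (e i).2
    have h1 := habs l
    have h2 : 0 < (S.filter fun k => Abs G (F k) l).card := by omega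
    obtain ⟨k, hk⟩ := Finset.card_pos.1 h2
    rw [Finset.mem_filter] at hk
    obtain ⟨hkS, hkA⟩ := hk
    have hT1 := ih (S.erase k) (L \ L4) (fun k' hk' => hS k' (Finset.mem_of_mem_erase hk'))
      (fun k' hk' k'' hk'' => hd k' (Finset.mem_of_mem_erase hk') k''
        (Finset.mem_of_mem_erase hk''))
      (fun k' hk' p hp => hdL k' (Finset.mem_of_mem_erase hk') p (Finset.mem_sdiff.1 hp).1)
      (by rw [Finset.card_sdiff_of_subset hL4, hL, hL4c]; omega)
      (fun l' => by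
        have h3 := habs l'
        rw [Finset.filter_erase]
        have h4 := Finset.pred_card_le_card_erase (s := S.filter fun k => Abs G (F k) l') (a := k)
        omega)
    have hT2 := hkA.tiled (hS k hkS).2 hl (fun p i h => hdL k hkS p (h ▸ hlL i))
    have hset : (⋃ k ∈ S, Set.range (F k)) ∪ (L : Set V) =
        ((⋃ k' ∈ S.erase k, Set.range (F k')) ∪ ((L \ L4 : Finset V) : Set V)) ∪
          (Set.range (F k) ∪ Set.range l) := by
      ext v
      simp only [Set.mem_union, Set.mem_iUnion, Finset.mem_coe, Finset.mem_sdiff,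
        Finset.mem_erase]
      rw [hlr]
      constructor
      · rintro (⟨k', hk', hv⟩ | hv)
        · by_cases hkk : k' = k
          · rw [hkk] at hv
            exact Or.inr (Or.inl hv)
          · exact Or.inl (Or.inl ⟨k', ⟨hkk, hk'⟩, hv⟩)
        · by_cases hv4 : v ∈ L4
          · exact Or.inr (Or.inr hv4)
          · exact Or.inl (Or.inr ⟨hv, hv4⟩)
      · rintro ((⟨k', ⟨_, hk'⟩, hv⟩ | ⟨hv, _⟩) | (hv | hv))
        · exact Or.inl ⟨k', hk', hv⟩
        · exact Or.inr hv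
        · exact Or.inl ⟨k, hkS, hv⟩
        · exact Or.inr (hL4 hv)
    rw [hset]
    apply hT1.union hT2
    rw [Set.disjoint_left]
    intro v hv1 hv2
    simp only [Set.mem_union, Set.mem_iUnion, Finset.mem_coe, Finset.mem_sdiff,
        Finset.mem_erase] at hv1
    rw [hlr] at hv2
    rcases hv1 with ⟨k', ⟨hkk, hk'⟩, ⟨p', hv⟩⟩ | ⟨hvL, hvL4⟩
    · rcases hv2 with ⟨p, hv'⟩ | hv'
      · exact hd k' hk' k hkS hkk p' p (hv.trans hv'.symm)
      · exact hdL k' hk' p' (hv ▸ hL4 hv')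
    · rcases hv2 with ⟨p, hv'⟩ | hv'
      · exact hdL k hkS p (hv' ▸ hvL)
      · exact hvL4 hv'

end Pool.Agent.C4F
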