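import Pool.Agent.Lib.MP_1ff796_co.Sample

/-!
# Almost perfect tilings
-/

open Finset

namespace Pool.Agent.C4F

open Classical in
theorem deg_restrict {r : ℕ} (R : Fin r × Fin 4 → Fin r × Fin 4 → Prop) (Bd : Fin r → Prop)
    (p : {i // ¬ Bd i} × Fin 4) :
    degR R p.1.1 p.2 - 4 * ((univ.filter Bd).card : ℝ) ≤
      dout (fun p q : {i // ¬ Bd i} × Fin 4 => q.1.1 ≠ p.1.1 ∧ R (p.1.1, p.2) (q.1.1, q.2)) p := by
  let F : Fin r → ℝ := fun i' => if i' ≠ p.1.1 then ∑ c', e R (p.1.1, p.2) (i', c') else 0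
  have h1 : dout (fun p q : {i // ¬ Bd i} × Fin 4 =>
      q.1.1 ≠ p.1.1 ∧ R (p.1.1, p.2) (q.1.1, q.2)) p = ∑ q : {i // ¬ Bd i}, F q.1 := by
    unfold dout
    rw [Fintype.sum_prod_type]
    apply Finset.sum_congr rfl
    intro q _
    simp only [F]
    by_cases h : q.1 ≠ p.1.1
    · rw [if_pos h]
      apply Finset.sum_congr rfl
      intro c' _
      by_cases h' : R (p.1.1, p.2) (q.1, c')
      · rw [e_one h', e_one]
        exact ⟨h, h'⟩
      · rw [e_zero h', e_zero]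
        exact fun h2 => h' h2.2
    · rw [if_neg h]
      apply Finset.sum_eq_zero
      intro c' _
      exact e_zero fun h2 => h h2.1
  have h2 : (∑ q : {i // Bd i}, F q.1) + ∑ q : {i // ¬ Bd i}, F q.1 = degR R p.1.1 p.2 :=
    Fintype.sum_subtype_add_sum_subtype Bd F
  have h3 : ∑ q : {i // Bd i}, F q.1 ≤ 4 * ((univ.filter Bd).card : ℝ) := by
    calc ∑ q : {i // Bd i}, F q.1 ≤ ∑ _q : {i // Bd i}, (4 : ℝ) := by
          apply Finset.sum_le_sum
          intro q _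
          simp only [F]
          split_ifs
          · calc ∑ c' : Fin 4, e R (p.1.1, p.2) (q.1, c') ≤ ∑ _c' : Fin 4, (1 : ℝ) :=
                Finset.sum_le_sum fun _ _ => e_le_one _ _ _
              _ = 4 := by simp
          · norm_num
      _ = 4 * ((univ.filter Bd).card : ℝ) := by
          rw [Finset.sum_const, Finset.card_univ, Fintype.card_subtype, nsmul_eq_mul, mul_comm]
  rw [h1]
  linarith

open Classical in
theorem exchange {V B : Type} [Fintype V] [Fintype B] (G : V → V → Prop) (b : B × Fin 4 ≃ V)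
    (Lo : B → Prop) (hcyc : ∀ z, ¬ Lo z → ∀ j, G (b (z, j)) (b (z, j + 1))) {r D : ℕ}
    (hr0 : 0 < r)
    (A : Fin r → Fin D → B) (hA : ∀ i, Function.Injective (A i))
    (R : Fin r × Fin 4 → Fin r × Fin 4 → Prop) (L : Fin r → Prop)
    (hg : ∀ g : Fin r → Fin D, Function.Injective (fun i => A i (g i)) ∧
      pat G b (fun i => A i (g i)) = R ∧ ∀ i, Lo (A i (g i)) ↔ L i)
    (η ε β : ℝ) (hβη : β < η) (hβε : β ≤ ε / 4) (hβ1 : β < 1)
    (hbad : ((univ.filter fun i => BadB (2 * r + 2 * η * r) R i).card : ℝ) ≤ β * r)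
    (hL : ε / 2 * r ≤ (univ.filter fun i => L i).card)
    (hD : (4 * r : ℝ) ^ 4 < D * (ε / 4 * r)) :
    ∃ S' : Set V, Tiled G S' ∧ 4 * (univ.filter fun z => ¬ Lo z).card < S'.ncard := by
  have hr0' : (0 : ℝ) < r := by exact_mod_cast hr0
  set θ : ℝ := 2 * r + 2 * η * r with hθ
  set Bd : Fin r → Prop := fun i => BadB θ R i with hBd
  have hcardB : ((univ.filter Bd).card : ℝ) + (Fintype.card {i // ¬ Bd i} : ℝ) = r := by
    have h1 := Fintype.sum_subtype_add_sum_subtype Bd (fun _ => (1 : ℝ))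
    simp only [Finset.sum_const, Finset.card_univ, nsmul_eq_mul, mul_one, Fintype.card_fin] at h1
    rw [← h1]
    congr 1
    rw [Fintype.card_subtype]
  have hgood_pos : (0 : ℝ) < Fintype.card {i // ¬ Bd i} := by nlinarith
  have hne : Nonempty {i // ¬ Bd i} := by
    have h1 : 0 < Fintype.card {i // ¬ Bd i} := by exact_mod_cast hgood_pos
    exact Fintype.card_pos_iff.1 h1
  let E : {i // ¬ Bd i} × Fin 4 → {i // ¬ Bd i} × Fin 4 → Prop :=
    fun p q => q.1.1 ≠ p.1.1 ∧ R (p.1.1, p.2) (q.1.1, q.2)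
  have hcardP : (Fintype.card ({i // ¬ Bd i} × Fin 4) : ℝ) = 4 * Fintype.card {i // ¬ Bd i} := by
    rw [Fintype.card_prod, Fintype.card_fin]
    push_cast
    ring
  have dO : ∀ p, (Fintype.card ({i // ¬ Bd i} × Fin 4) : ℝ) < 2 * dout E p := by
    intro p
    have h1 := deg_restrict R Bd p
    have h2 : θ ≤ degR R p.1.1 p.2 := by
      by_contra h
      exact p.1.2 ⟨p.2, Or.inl (not_le.1 h)⟩
    rw [hcardP]
    have h3 : dout E p = dout (fun p q : {i // ¬ Bd i} × Fin 4 =>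
      q.1.1 ≠ p.1.1 ∧ R (p.1.1, p.2) (q.1.1, q.2)) p := rfl
    rw [h3]
    nlinarith
  have dI : ∀ p, (Fintype.card ({i // ¬ Bd i} × Fin 4) : ℝ) < 2 * din E p := by
    intro p
    have h1 := deg_restrict (rev R) Bd p
    have h2 : θ ≤ degR (rev R) p.1.1 p.2 := by
      by_contra h
      exact p.1.2 ⟨p.2, Or.inr (not_le.1 h)⟩
    rw [hcardP]
    have h3 : din E p = dout (fun p q : {i // ¬ Bd i} × Fin 4 =>
        q.1.1 ≠ p.1.1 ∧ rev R (p.1.1, p.2) (q.1.1, q.2)) p := by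
      unfold din dout
      apply Finset.sum_congr rfl
      intro q _
      by_cases h : E q p
      · rw [e_one h, e_one]
        exact ⟨fun h4 => h.1 h4.symm, h.2⟩
      · rw [e_zero h, e_zero]
        exact fun h4 => h ⟨fun h5 => h4.1 h5.symm, h4.2⟩
    rw [h3]
    nlinarith
  -- choices
  have hchoice : ∀ i i' d d', i ≠ i' → ∃ g : Fin r → Fin D, g i = d ∧ g i' = d' := by
    intro i i' d d' hii
    refine ⟨Function.update (fun _ => d) i' d', ?_, ?_⟩
    · rw [Function.update_of_ne hii]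
    · rw [Function.update_self]
  have hAinj : ∀ i i' d d', A i d = A i' d' → i = i' ∧ d = d' := by
    intro i i' d d' h
    by_cases hii : i = i'
    · subst hii
      exact ⟨rfl, hA i h⟩
    · obtain ⟨g, h1, h2⟩ := hchoice i i' d d' hii
      have h3 := (hg g).1 (a₁ := i) (a₂ := i') (by simp only; rw [h1, h2, h])
      exact absurd h3 hii
  let φ : ({i // ¬ Bd i} × Fin 4) × Fin D → V := fun q => b (A q.1.1.1 q.2, q.1.2)
  have hφ : Function.Injective φ := by
    rintro ⟨⟨⟨i, hi⟩, c⟩, d⟩ ⟨⟨⟨i', hi'⟩, c'⟩, d'⟩ h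
    have h1 := b.injective h
    rw [Prod.mk.injEq] at h1
    obtain ⟨h2, h3⟩ := h1
    obtain ⟨h4, h5⟩ := hAinj _ _ _ _ h2
    simp only at h3 h4 h5
    subst h4
    subst h5
    subst h3
    rfl
  obtain ⟨S2, hS2φ, hS2T, hS2c⟩ := blowup (E := E) (fun p h => h.1 rfl) dO dI G D φ hφ (by
    rintro ⟨⟨i, hi⟩, c⟩ ⟨⟨i', hi'⟩, c'⟩ d d' ⟨h1, h2⟩
    simp only at h1 h2
    obtain ⟨g, h3, h4⟩ := hchoice i i' d d' (fun h => h1 h.symm)
    have h5 := (hg g).2.1
    rw [← h5] at h2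
    have h6 : G (b (A i (g i), c)) (b (A i' (g i'), c')) := h2
    rw [h3, h4] at h6
    exact h6)
  -- old part
  let U : B → Prop := fun z => ∃ i d, A i d = z
  let f1 : {z // ¬ Lo z ∧ ¬ U z} × Fin 4 → V := fun q => b (q.1.1, q.2)
  have hf1 : Function.Injective f1 := by
    rintro ⟨⟨z, hz⟩, j⟩ ⟨⟨z', hz'⟩, j'⟩ h
    have h1 := b.injective h
    rw [Prod.mk.injEq] at h1
    obtain ⟨h2, h3⟩ := h1
    simp only at h2 h3
    subst h2
    subst h3
    rfl
  have hT1 : Tiled G (Set.range f1) :=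
    ⟨_, inferInstance, f1, hf1, fun z j => hcyc z.1 z.2.1 j, rfl⟩
  have hdisj : Disjoint (Set.range f1) S2 := by
    rw [Set.disjoint_left]
    rintro v ⟨⟨⟨z, hz⟩, j⟩, rfl⟩ h2
    obtain ⟨⟨⟨⟨i, hi⟩, c⟩, d⟩, h3⟩ := hS2φ h2
    have h4 := b.injective h3
    rw [Prod.mk.injEq] at h4
    exact hz.2 ⟨i, d, h4.1⟩
  refine ⟨Set.range f1 ∪ S2, hT1.union hS2T hdisj, ?_⟩
  have hcard1 : (Set.range f1).ncard = Fintype.card {z // ¬ Lo z ∧ ¬ U z} * 4 := by
    rw [← Set.image_univ, Set.ncard_image_of_injective _ hf1, Set.ncard_univ,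
      Nat.card_eq_fintype_card, Fintype.card_prod, Fintype.card_fin]
  have hold : (univ.filter fun z => ¬ Lo z).card ≤ Fintype.card {z // ¬ Lo z ∧ ¬ U z} +
      (univ.filter fun i => ¬ L i).card * D := by
    have h1 : (univ.filter fun z => ¬ Lo z) ⊆ (univ.filter fun z => ¬ Lo z ∧ ¬ U z) ∪
        ((univ.filter fun i => ¬ L i) ×ˢ (univ : Finset (Fin D))).image (fun q => A q.1 q.2) := by
      intro z hz
      have hz' := (Finset.mem_filter.1 hz).2
      rw [Finset.mem_union]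
      by_cases hU : U z
      · right
        obtain ⟨i, d, hid⟩ := hU
        refine Finset.mem_image.2 ⟨(i, d), ?_, hid⟩
        rw [Finset.mem_product, Finset.mem_filter]
        refine ⟨⟨Finset.mem_univ _, ?_⟩, Finset.mem_univ _⟩
        intro hLi
        have h2 : Lo (A i d) := ((hg (fun _ => d)).2.2 i).2 hLi
        rw [hid] at h2
        exact hz' h2
      · left
        exact Finset.mem_filter.2 ⟨Finset.mem_univ _, hz', hU⟩
    have h2 := (Finset.card_le_card h1).trans (Finset.card_union_le _ _)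
    have h3 := h2.trans (Nat.add_le_add_left Finset.card_image_le _)
    rw [Finset.card_product, Finset.card_univ, Fintype.card_fin] at h3
    rw [Fintype.card_subtype]
    exact h3
  have hLc : ((univ.filter fun i => ¬ L i).card : ℝ) ≤ r - ε / 2 * r := by
    have h1 := Finset.card_filter_add_card_filter_not (s := (univ : Finset (Fin r))) L
    rw [Finset.card_univ, Fintype.card_fin] at h1
    have h2 : ((univ.filter fun i => L i).card : ℝ) + ((univ.filter fun i => ¬ L i).card : ℝ) = r := by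
      exact_mod_cast h1
    linarith
  rw [Set.ncard_union_eq hdisj hT1.finite hS2T.finite, hcard1]
  have hold' : ((univ.filter fun z => ¬ Lo z).card : ℝ) ≤
      (Fintype.card {z // ¬ Lo z ∧ ¬ U z} : ℝ) + ((univ.filter fun i => ¬ L i).card : ℝ) * D := by
    exact_mod_cast hold
  rw [hcardP] at hS2c
  have hDnn : (0 : ℝ) ≤ D := Nat.cast_nonneg _
  have h5 : ((univ.filter fun i => ¬ L i).card : ℝ) * D ≤ (r - ε / 2 * r) * D :=
    mul_le_mul_of_nonneg_right hLc hDnn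
  have h6 : (4 * (Fintype.card {i // ¬ Bd i} : ℝ)) ^ 4 ≤ (4 * r : ℝ) ^ 4 := by
    apply pow_le_pow_left₀ (by positivity)
    have : (0 : ℝ) ≤ ((univ.filter Bd).card : ℝ) := Nat.cast_nonneg _
    linarith
  have h7 : r - β * r ≤ (Fintype.card {i // ¬ Bd i} : ℝ) := by linarith
  have h8 : (D : ℝ) * (4 * (r - β * r)) ≤ D * (4 * (Fintype.card {i // ¬ Bd i} : ℝ)) := by
    apply mul_le_mul_of_nonneg_left _ hDnn
    linarith
  have h9 : (D : ℝ) * (β * r) ≤ D * (ε / 4 * r) := by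
    apply mul_le_mul_of_nonneg_left _ hDnn
    exact mul_le_mul_of_nonneg_right hβε hr0'.le
  have h10 : (4 * ((univ.filter fun z => ¬ Lo z).card : ℝ)) <
      (Fintype.card {z // ¬ Lo z ∧ ¬ U z} : ℝ) * 4 + S2.ncard := by
    nlinarith
  exact_mod_cast h10


theorem pigeon {Ω T : Type} [DecidableEq T] [Fintype T] [Nonempty T] (S : Finset Ω) (f : Ω → T) :
    ∃ τ, (S.card : ℝ) / Fintype.card T ≤ (S.filter fun ω => f ω = τ).card := by
  have hT : (0 : ℝ) < Fintype.card T := by exact_mod_cast Fintype.card_pos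
  obtain ⟨τ, _, h⟩ := Finset.exists_le_card_fiber_of_nsmul_le_card_of_maps_to (s := S)
    (t := (univ : Finset T)) (f := f) (b := (S.card : ℝ) / Fintype.card T)
    (fun _ _ => Finset.mem_univ _) Finset.univ_nonempty (by
      rw [Finset.card_univ, nsmul_eq_mul]
      field_simp
      exact le_rfl)
  exact ⟨τ, h⟩

open Classical in
theorem many_good' {V B : Type} [Fintype V] [Fintype B] (G : V → V → Prop) (b : B × Fin 4 ≃ V)
    (Lo : B → Prop) {r : ℕ} (η ε β : ℝ) (hη : 0 < η) (hε : 0 < ε) (hβ : 0 < β)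
    (hdO : ∀ v, (2 + 4 * η) * Fintype.card B ≤ dout G v)
    (hdI : ∀ v, (2 + 4 * η) * Fintype.card B ≤ din G v) (hr : 4 ≤ η * r)
    (hr2 : 512 / (η ^ 2 * β) ≤ r) (hr3 : 16 / ε ^ 2 ≤ r) (hr0 : 0 < r)
    (hLo : ε * Fintype.card B ≤ (univ.filter Lo).card) (hB : 4 * r ^ 2 ≤ Fintype.card B) :
    ∃ 𝓖 : Finset (Fin r → B), (∀ ω ∈ 𝓖, Function.Injective ω ∧
      ((univ.filter fun i => BadB (2 * r + 2 * η * r) (pat G b ω) i).card : ℝ) ≤ β * r ∧
      ε / 2 * r ≤ (univ.filter fun i => Lo (ω i)).card) ∧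
      (Fintype.card B : ℝ) ^ r / 4 ≤ (𝓖.card : ℝ) :=
  ⟨_, fun _ hω => (Finset.mem_filter.1 hω).2,
    many_good G b Lo η ε β hη hε hβ hdO hdI hr hr2 hr3 hr0 hLo hB⟩

/-- **Almost perfect tilings.** -/
theorem almost (η ε : ℝ) (hη : 0 < η) (hε : 0 < ε) : ∃ n0 : ℕ, ∀ (V : Type) [Fintype V]
    (G : V → V → Prop), n0 ≤ Fintype.card V → 4 ∣ Fintype.card V →
    (∀ v, (1 / 2 + η) * Fintype.card V ≤ dout G v) →
    (∀ v, (1 / 2 + η) * Fintype.card V ≤ din G v) →
    ∃ S : Set V, Tiled G S ∧ (Sᶜ.ncard : ℝ) ≤ ε * Fintype.card V := by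
  classical
  obtain ⟨β, hβ0, hβη, hβε, hβ1⟩ : ∃ β : ℝ, 0 < β ∧ β < η ∧ β ≤ ε / 4 ∧ β < 1 := by
    refine ⟨min (η / 2) (min (ε / 4) (1 / 2)), ?_, ?_, ?_, ?_⟩
    · exact lt_min (by linarith) (lt_min (by linarith) (by norm_num))
    · exact lt_of_le_of_lt (min_le_left _ _) (by linarith)
    · exact (min_le_right _ _).trans (min_le_left _ _)
    · exact lt_of_le_of_lt ((min_le_right _ _).trans (min_le_right _ _)) (by norm_num)
  obtain ⟨r, hrbig⟩ := exists_nat_gt (4 / η + 512 / (η ^ 2 * β) + 16 / ε ^ 2 + 1)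
  have q1 : 0 < 4 / η := by positivity
  have q2 : 0 < 512 / (η ^ 2 * β) := by positivity
  have q3 : 0 < 16 / ε ^ 2 := by positivity
  have hr1 : 4 ≤ η * r := by
    have : 4 / η ≤ r := by linarith
    rw [div_le_iff₀ hη] at this
    linarith
  have hr2 : 512 / (η ^ 2 * β) ≤ r := by linarith
  have hr3 : 16 / ε ^ 2 ≤ r := by linarith
  have hr0' : (0 : ℝ) < r := by linarith
  have hr0 : 0 < r := by exact_mod_cast hr0'
  obtain ⟨s, hs⟩ := exists_nat_gt ((4 * r : ℝ) ^ 4 / (ε / 4 * r))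
  have hD : (4 * r : ℝ) ^ 4 < ((s + 1 : ℕ) : ℝ) * (ε / 4 * r) := by
    rw [div_lt_iff₀ (by positivity)] at hs
    push_cast
    have : 0 < ε / 4 * r := by positivity
    linarith
  let T := (Fin r × Fin 4 → Fin r × Fin 4 → Prop) × (Fin r → Prop)
  have hTpos : (0 : ℝ) < Fintype.card T := by
    have : Nonempty T := ⟨(fun _ _ => True, fun _ => True)⟩
    exact_mod_cast Fintype.card_pos
  have hTne : Nonempty T := ⟨(fun _ _ => True, fun _ => True)⟩
  obtain ⟨N0, hN0⟩ := erdos s r (1 / (4 * Fintype.card T)) (by positivity)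
  refine ⟨4 * (N0 + 4 * r ^ 2), fun V _ G hn h4 hdO hdI => ?_⟩
  obtain ⟨S, hS, hSmax⟩ := Set.exists_max_image {S : Set V | Tiled G S} (fun S => S.ncard)
    (Set.toFinite _) ⟨∅, Tiled.empty G⟩
  refine ⟨S, hS, ?_⟩
  by_contra hcon
  push Not at hcon
  have hS4 := hS.four_dvd
  obtain ⟨ι, _, f, hf, hfE, hfS⟩ := hS
  have hcompl := Set.ncard_add_ncard_compl S
  rw [Nat.card_eq_fintype_card] at hcompl
  obtain ⟨k, hk⟩ : 4 ∣ Sᶜ.ncard := by
    rw [← hcompl] at h4
    exact (Nat.dvd_add_right hS4).1 h4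
  have hcardS : S.ncard = 4 * Fintype.card ι := by
    rw [← hfS, ← Set.image_univ, Set.ncard_image_of_injective _ hf, Set.ncard_univ,
      Nat.card_eq_fintype_card, Fintype.card_prod, Fintype.card_fin, mul_comm]
  have e2 : Fin k × Fin 4 ≃ (Sᶜ : Set V) := by
    apply Fintype.equivOfCardEq
    rw [Fintype.card_prod, Fintype.card_fin, Fintype.card_fin, ← Nat.card_eq_fintype_card,
      Nat.card_coe_set_eq, hk, mul_comm]
  let e1 : ι × Fin 4 ≃ S := (Equiv.ofInjective f hf).trans (Equiv.setCongr hfS)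
  let b : (ι ⊕ Fin k) × Fin 4 ≃ V := (Equiv.sumProdDistrib ι (Fin k) (Fin 4)).trans
    ((Equiv.sumCongr e1 e2).trans (Equiv.Set.sumCompl S))
  have hbl : ∀ i j, b (Sum.inl i, j) = f (i, j) := fun i j => rfl
  obtain ⟨Lo, hLo1, hLo2⟩ : ∃ Lo : ι ⊕ Fin k → Prop, (∀ a, ¬ Lo (Sum.inl a)) ∧
      ∀ a, Lo (Sum.inr a) := by
    refine ⟨fun z => ∃ a, z = Sum.inr a, ?_, fun a => ⟨a, rfl⟩⟩
    rintro a ⟨a', h⟩
    exact Sum.inl_ne_inr h
  have hcardB : Fintype.card V = 4 * Fintype.card (ι ⊕ Fin k) := by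
    rw [← Fintype.card_congr b, Fintype.card_prod, Fintype.card_fin, mul_comm]
  have hcardB' : (Fintype.card V : ℝ) = 4 * Fintype.card (ι ⊕ Fin k) := by exact_mod_cast hcardB
  have hLocard : (univ.filter Lo).card = k := by
    have h1 : univ.filter Lo = (univ : Finset (Fin k)).map ⟨Sum.inr, Sum.inr_injective⟩ := by
      ext z
      rw [Finset.mem_filter, Finset.mem_map]
      constructor
      · rintro ⟨_, h⟩
        rcases z with a | a
        · exact absurd h (hLo1 a)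
        · exact ⟨a, Finset.mem_univ _, rfl⟩
      · rintro ⟨a, _, rfl⟩
        exact ⟨Finset.mem_univ _, hLo2 a⟩
    rw [h1, Finset.card_map, Finset.card_univ, Fintype.card_fin]
  have hLoncard : (univ.filter fun z => ¬ Lo z).card = Fintype.card ι := by
    have h1 : (univ.filter fun z => ¬ Lo z) =
        (univ : Finset ι).map ⟨Sum.inl, Sum.inl_injective⟩ := by
      ext z
      rw [Finset.mem_filter, Finset.mem_map]
      constructor
      · rintro ⟨_, h⟩
        rcases z with a | a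
        · exact ⟨a, Finset.mem_univ _, rfl⟩
        · exact absurd (hLo2 a) h
      · rintro ⟨a, _, rfl⟩
        exact ⟨Finset.mem_univ _, hLo1 a⟩
    rw [h1, Finset.card_map, Finset.card_univ]
  have hB : N0 + 4 * r ^ 2 ≤ Fintype.card (ι ⊕ Fin k) := by
    rw [hcardB] at hn
    exact Nat.le_of_mul_le_mul_left hn (by norm_num)
  obtain ⟨𝓖, h𝓖, h𝓖c⟩ := many_good' G b Lo (r := r) η ε β hη hε hβ0
    (fun v => by have := hdO v; rw [hcardB'] at this; linarith)
    (fun v => by have := hdI v; rw [hcardB'] at this; linarith)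
    hr1 hr2 hr3 hr0
    (by
      rw [hLocard]
      rw [hcardB', hk] at hcon
      push_cast at hcon
      linarith)
    (by omega)
  obtain ⟨⟨R, L⟩, hτ⟩ := pigeon (T := T) 𝓖 (fun ω => (pat G b ω, fun i => Lo (ω i)))
  obtain ⟨A, hA, hAS⟩ := hN0 (ι ⊕ Fin k) _ (by omega) (le_trans (by
    have h1 : 1 / (4 * (Fintype.card T : ℝ)) * (Fintype.card (ι ⊕ Fin k) : ℝ) ^ r =
      (Fintype.card (ι ⊕ Fin k) : ℝ) ^ r / 4 / Fintype.card T := by
        field_simp
    rw [h1]
    exact div_le_div_of_nonneg_right h𝓖c hTpos.le) hτ)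
  have hmem : ∀ g : Fin r → Fin (s + 1), Function.Injective (fun i => A i (g i)) ∧
      ((univ.filter fun i => BadB (2 * r + 2 * η * r) R i).card : ℝ) ≤ β * r ∧
      ε / 2 * r ≤ (univ.filter fun i => L i).card ∧
      pat G b (fun i => A i (g i)) = R ∧ ∀ i, Lo (A i (g i)) ↔ L i := by
    intro g
    have h1 := hAS g
    rw [Finset.mem_filter, Prod.mk.injEq] at h1
    obtain ⟨h0, h5, h6⟩ := h1
    obtain ⟨h2, h3, h4⟩ := h𝓖 _ h0
    have h7 : ∀ i, Lo (A i (g i)) ↔ L i := fun i => by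
      rw [← h6]
    refine ⟨h2, ?_, ?_, h5, h7⟩
    · rw [← h5]
      exact h3
    · rw [← h6]
      exact h4
  obtain ⟨S', hS', hS'c⟩ := exchange G b Lo (by
      intro z hz j
      rcases z with a | a
      · exact hfE a j
      · exact absurd (hLo2 a) hz) hr0 A hA R L
    (fun g => ⟨(hmem g).1, (hmem g).2.2.2.1, (hmem g).2.2.2.2⟩) η ε β hβη hβε hβ1
    (hmem fun _ => 0).2.1 (hmem fun _ => 0).2.2.1 hD
  have h1 := hSmax S' hS'
  rw [hLoncard, ← hcardS] at hS'c
  omega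

end Pool.Agent.C4F
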