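import Pool.Agent.Lib.MP_1ff796_co.AbsCount
import Pool.Agent.Lib.MP_1ff796_co.Almost

/-!
# The absorbing lemma and the final assembly
-/

open Finset


namespace Pool.Agent.C4F

/-- intersecting structures -/
def IntR {V : Type} (z z' : Fin 4 × Fin 4 → V) : Prop := ∃ p p', z p = z' p'

/-- good absorbers -/
def GoodA {V : Type} (G : V → V → Prop) (l : Fin 4 → V) (z : Fin 4 × Fin 4 → V) : Prop :=
  Abs G z l ∧ Function.Injective z

open Classical in
theorem int_card {V : Type} [Fintype V] [Nonempty V] :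
    ((univ.filter fun q : (Fin 4 × Fin 4 → V) × (Fin 4 × Fin 4 → V) =>
      IntR q.1 q.2).card : ℝ) ≤
      256 / Fintype.card V * (Fintype.card (Fin 4 × Fin 4 → V) : ℝ) ^ 2 := by
  have hn : (0 : ℝ) < Fintype.card V := by exact_mod_cast Fintype.card_pos
  have h1 : ∀ s : (Fin 4 × Fin 4) × (Fin 4 × Fin 4),
      (univ.filter fun q : (Fin 4 × Fin 4 → V) × (Fin 4 × Fin 4 → V) =>
        q.1 s.1 = q.2 s.2).card * Fintype.card V ≤
      Fintype.card ((Fin 4 × Fin 4 → V) × (Fin 4 × Fin 4 → V)) := by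
    intro s
    rw [← Finset.card_univ (α := V), ← Finset.card_product,
      ← Finset.card_univ (α := (Fin 4 × Fin 4 → V) × (Fin 4 × Fin 4 → V))]
    apply Finset.card_le_card_of_injOn
      (fun q : ((Fin 4 × Fin 4 → V) × (Fin 4 × Fin 4 → V)) × V =>
        (Function.update q.1.1 s.1 q.2, q.1.2))
    · intro q _
      exact Finset.mem_coe.2 (Finset.mem_univ _)
    · rintro ⟨⟨a, b⟩, w⟩ h ⟨⟨a', b'⟩, w'⟩ h' heq
      simp only [Finset.coe_product, Set.mem_prod, Finset.mem_coe, Finset.mem_filter,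
        Finset.mem_univ, true_and, and_true] at h h'
      simp only [Prod.mk.injEq] at heq
      obtain ⟨h1, h2⟩ := heq
      subst h2
      have hw : w = w' := by
        have := congrFun h1 s.1
        rwa [Function.update_self, Function.update_self] at this
      have ha : a = a' := by
        funext j
        by_cases hj : j = s.1
        · rw [hj, h, h']
        · have := congrFun h1 j
          rwa [Function.update_of_ne hj, Function.update_of_ne hj] at this
      rw [hw, ha]
  have h2 : (univ.filter fun q : (Fin 4 × Fin 4 → V) × (Fin 4 × Fin 4 → V) =>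
      IntR q.1 q.2) ⊆ (univ : Finset ((Fin 4 × Fin 4) × (Fin 4 × Fin 4))).biUnion
      (fun s => univ.filter fun q : (Fin 4 × Fin 4 → V) × (Fin 4 × Fin 4 → V) =>
        q.1 s.1 = q.2 s.2) := by
    intro q hq
    obtain ⟨p, p', h⟩ := (Finset.mem_filter.1 hq).2
    exact Finset.mem_biUnion.2 ⟨(p, p'), Finset.mem_univ _,
      Finset.mem_filter.2 ⟨Finset.mem_univ _, h⟩⟩
  have h3 := (Finset.card_le_card h2).trans Finset.card_biUnion_le
  have h4 := Nat.mul_le_mul_right (Fintype.card V) h3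
  rw [Finset.sum_mul] at h4
  have h5 := h4.trans (Finset.sum_le_sum fun s _ => h1 s)
  rw [Finset.sum_const, Finset.card_univ, smul_eq_mul] at h5
  have h6 : Fintype.card ((Fin 4 × Fin 4) × (Fin 4 × Fin 4)) = 256 := by
    simp [Fintype.card_prod]
  rw [h6, Fintype.card_prod] at h5
  have h7 : ((univ.filter fun q : (Fin 4 × Fin 4 → V) × (Fin 4 × Fin 4 → V) =>
      IntR q.1 q.2).card : ℝ) * Fintype.card V ≤
      256 * ((Fintype.card (Fin 4 × Fin 4 → V) : ℝ) * Fintype.card (Fin 4 × Fin 4 → V)) := by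
    exact_mod_cast h5
  rw [div_mul_eq_mul_div, le_div_iff₀ hn, sq]
  exact h7

open Classical in
theorem good_ge {V : Type} [Fintype V] {G : V → V → Prop} {η : ℝ} (hη : 0 < η)
    (dO : ∀ v, (1 / 2 + η) * Fintype.card V ≤ dout G v)
    (dI : ∀ v, (1 / 2 + η) * Fintype.card V ≤ din G v)
    (hn : 512 / (2 * η) ^ 14 ≤ Fintype.card V) (hn0 : (0 : ℝ) < Fintype.card V)
    (l : Fin 4 → V) :
    (2 * η) ^ 14 / 2 * Fintype.card (Fin 4 × Fin 4 → V) ≤
      ((univ.filter (GoodA G l)).card : ℝ) := by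
  set n : ℝ := (Fintype.card V : ℝ) with hnn
  have hcardZ : (Fintype.card (Fin 4 × Fin 4 → V) : ℝ) = n ^ 16 := by
    rw [Fintype.card_fun, Fintype.card_prod, Fintype.card_fin]
    push_cast
    rw [hnn]
  have h1 := abs_ge (G := G) (c := 2 * η * n) (by positivity)
    (fun v => by have := dO v; linarith) (fun v => by have := dI v; linarith) l
  have h2 := card_nonInj (Fin 4 × Fin 4) V
  have h3 : ((univ.filter fun z : Fin 4 × Fin 4 → V => ¬ Function.Injective z).card : ℝ) * n ≤
      256 * n ^ 16 := by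
    have h4 : Fintype.card (Fin 4 × Fin 4) = 16 := by simp
    rw [h4] at h2
    rw [hnn]
    exact_mod_cast h2
  have h4 : ((univ.filter fun z : Fin 4 × Fin 4 → V => ¬ Function.Injective z).card : ℝ) ≤
      (2 * η) ^ 14 / 2 * n ^ 16 := by
    have h5 : 256 * n ^ 16 ≤ ((2 * η) ^ 14 / 2 * n ^ 16) * n := by
      rw [div_le_iff₀ (by positivity)] at hn
      have : 256 ≤ (2 * η) ^ 14 / 2 * n := by linarith
      calc 256 * n ^ 16 ≤ ((2 * η) ^ 14 / 2 * n) * n ^ 16 :=
            mul_le_mul_of_nonneg_right this (by positivity)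
        _ = _ := by ring
    exact le_of_mul_le_mul_right (h3.trans h5) hn0
  have h5 : (univ.filter fun z : Fin 4 × Fin 4 → V => Abs G z l) ⊆
      (univ.filter (GoodA G l)) ∪
      (univ.filter fun z : Fin 4 × Fin 4 → V => ¬ Function.Injective z) := by
    intro z hz
    rw [Finset.mem_union, Finset.mem_filter, Finset.mem_filter]
    by_cases h : Function.Injective z
    · exact Or.inl ⟨Finset.mem_univ _, (Finset.mem_filter.1 hz).2, h⟩
    · exact Or.inr ⟨Finset.mem_univ _, h⟩
  have h6 := (Finset.card_le_card h5).trans (Finset.card_union_le _ _)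
  rw [← Fintype.card_subtype] at h6
  have h7 : (Fintype.card {z : Fin 4 × Fin 4 → V // Abs G z l} : ℝ) ≤
      ((univ.filter (GoodA G l)).card : ℝ) +
      ((univ.filter fun z : Fin 4 × Fin 4 → V => ¬ Function.Injective z).card : ℝ) := by
    exact_mod_cast h6
  have h8 : n ^ 2 * (2 * η * n) ^ 14 = (2 * η) ^ 14 * n ^ 16 := by ring
  rw [← hnn, h8] at h1
  rw [hcardZ]
  linarith

/-- **The absorbing lemma.** -/
theorem absorbing (η κ' : ℝ) (hη : 0 < η) (hκ' : 0 < κ') : ∃ ξ : ℝ, 0 < ξ ∧ ∃ n0 : ℕ,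
    ∀ (V : Type) [Fintype V] (G : V → V → Prop), n0 ≤ Fintype.card V →
    (∀ v, (1 / 2 + η) * Fintype.card V ≤ dout G v) →
    (∀ v, (1 / 2 + η) * Fintype.card V ≤ din G v) →
    ∃ S : Set V, Tiled G S ∧ (S.ncard : ℝ) ≤ κ' * Fintype.card V ∧
      ∀ L : Set V, Disjoint S L → 4 ∣ L.ncard → (L.ncard : ℝ) ≤ ξ * Fintype.card V →
        Tiled G (S ∪ L) := by
  classical
  set γ : ℝ := (2 * η) ^ 14 / 2 with hγdef
  have hγ : 0 < γ := by positivity
  obtain ⟨κ, hκ0, hκγ, hκκ⟩ : ∃ κ : ℝ, 0 < κ ∧ 8192 * κ ≤ γ ∧ 16 * κ ≤ κ' := by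
    refine ⟨min (γ / 8192) (κ' / 16), lt_min (by positivity) (by positivity), ?_, ?_⟩
    · have := min_le_left (γ / 8192) (κ' / 16)
      linarith
    · have := min_le_right (γ / 8192) (κ' / 16)
      linarith
  obtain ⟨n0, hn0⟩ := exists_nat_gt (512 / (2 * η) ^ 14 + 2 / κ + 480 * (8 / (γ * κ)) ^ 5 + 1)
  refine ⟨γ * κ / 4, by positivity, n0, fun V _ G hn dO dI => ?_⟩
  have q1 : 0 < 512 / (2 * η) ^ 14 := by positivity
  have q2 : 0 < 2 / κ := by positivity
  have q3 : 0 < 480 * (8 / (γ * κ)) ^ 5 := by positivity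
  have hn' : 512 / (2 * η) ^ 14 + 2 / κ + 480 * (8 / (γ * κ)) ^ 5 + 1 < Fintype.card V :=
    lt_of_lt_of_le hn0 (by exact_mod_cast hn)
  set n : ℝ := (Fintype.card V : ℝ) with hnn
  have hnpos : 0 < n := by linarith
  have hne : Nonempty V := by
    apply Fintype.card_pos_iff.1
    have h1 : (0 : ℝ) < (Fintype.card V : ℝ) := hnpos
    exact_mod_cast h1
  have hκn : 2 ≤ κ * n := by
    have : 2 / κ ≤ n := by linarith
    rw [div_le_iff₀ hκ0] at this
    linarith
  set K : ℕ := ⌊κ * n⌋₊ with hK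
  have hKle : (K : ℝ) ≤ κ * n := Nat.floor_le (by positivity)
  have hKge : κ * n / 2 ≤ K := by
    have := Nat.sub_one_lt_floor (κ * n)
    rw [← hK] at this
    linarith
  have hKpos : 0 < K := by
    have : (0 : ℝ) < K := by linarith
    exact_mod_cast this
  obtain ⟨F, hF1, hF2⟩ := exists_family (Z := Fin 4 × Fin 4 → V) (Λ := Fin 4 → V)
    (GoodA G) IntR γ
    (256 / n) hγ (fun l => good_ge hη dO dI (by linarith) hnpos l) int_card K hKpos
    (by
      rw [Fintype.card_fun, Fintype.card_fin]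
      push_cast
      rw [← hnn]
      have hx0 : 0 < γ * κ * n / 8 := by positivity
      have h1 : Real.exp (-(γ * K / 4)) ≤ Real.exp (-(γ * κ * n / 8)) := by
        apply Real.exp_le_exp.2
        nlinarith
      have h2 := Real.pow_div_factorial_le_exp (γ * κ * n / 8) hx0.le 5
      have h3 : Real.exp (-(γ * κ * n / 8)) ≤ 120 / (γ * κ * n / 8) ^ 5 := by
        rw [Real.exp_neg, inv_eq_one_div, div_le_div_iff₀ (Real.exp_pos _) (by positivity)]
        have h4 : ((Nat.factorial 5 : ℕ) : ℝ) = 120 := by norm_num [Nat.factorial]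
        rw [h4, div_le_iff₀ (by norm_num)] at h2
        linarith
      calc n ^ 4 * Real.exp (-(γ * K / 4)) ≤ n ^ 4 * (120 / (γ * κ * n / 8) ^ 5) :=
            mul_le_mul_of_nonneg_left (h1.trans h3) (by positivity)
        _ = 120 * (8 / (γ * κ)) ^ 5 / n := by
            field_simp
        _ ≤ 1 / 4 := by
            rw [div_le_iff₀ hnpos]
            linarith)
    (by
      have h1 : (K : ℝ) * (256 / n) ≤ 256 * κ := by
        rw [mul_div_assoc', div_le_iff₀ hnpos]
        nlinarith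
      linarith)
  -- the selected absorbers
  let Ks : Finset (Fin K) := univ.filter fun k => Valid G (F k) ∧ Function.Injective (F k) ∧
    ∀ k', k ≠ k' → ∀ p p', F k p ≠ F k' p'
  have hKs : ∀ k ∈ Ks, Valid G (F k) ∧ Function.Injective (F k) := fun k hk =>
    ⟨(Finset.mem_filter.1 hk).2.1, (Finset.mem_filter.1 hk).2.2.1⟩
  have hKd : ∀ k ∈ Ks, ∀ k' ∈ Ks, k ≠ k' → ∀ p p', F k p ≠ F k' p' := fun k hk k' _ hkk =>
    (Finset.mem_filter.1 hk).2.2.2 k' hkk
  refine ⟨⋃ k ∈ Ks, Set.range (F k), tiled_iUnion F Ks hKs hKd, ?_, ?_⟩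
  · have h1 : (⋃ k ∈ Ks, Set.range (F k)) ⊆
        (fun q : Fin K × (Fin 4 × Fin 4) => F q.1 q.2) '' Set.univ := by
      intro v hv
      simp only [Set.mem_iUnion] at hv
      obtain ⟨k, _, p, rfl⟩ := hv
      exact ⟨(k, p), Set.mem_univ _, rfl⟩
    have h2 := (Set.ncard_le_ncard h1 (Set.toFinite _)).trans (Set.ncard_image_le (Set.toFinite _))
    rw [Set.ncard_univ, Nat.card_eq_fintype_card, Fintype.card_prod, Fintype.card_prod,
      Fintype.card_fin, Fintype.card_fin] at h2
    have h3 : ((⋃ k ∈ Ks, Set.range (F k)).ncard : ℝ) ≤ K * (4 * 4) := by exact_mod_cast h2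
    nlinarith
  · intro L hSL hL4 hLc
    obtain ⟨q, hq⟩ := hL4
    have hLfin : L.Finite := Set.toFinite L
    have h1 := greedy (G := G) F q Ks hLfin.toFinset hKs hKd
      (fun k hk p hp => by
        rw [Set.Finite.mem_toFinset] at hp
        refine Set.disjoint_left.1 hSL ?_ hp
        simp only [Set.mem_iUnion]
        exact ⟨k, hk, p, rfl⟩)
      (by rw [← Set.ncard_eq_toFinset_card L hLfin, hq])
      (fun l => by
        have h2 := hF1 l
        have h3 : (univ.filter fun k => GoodA G l (F k)) ⊆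
            (Ks.filter fun k => Abs G (F k) l) ∪
            ((univ.filter fun q : Fin K × Fin K => q.1 ≠ q.2 ∧
              IntR (F q.1) (F q.2)).image Prod.fst) := by
          intro k hk
          have hk' := (Finset.mem_filter.1 hk).2
          rw [Finset.mem_union, Finset.mem_filter, Finset.mem_image]
          by_cases h : ∀ k', k ≠ k' → ∀ p p', F k p ≠ F k' p'
          · exact Or.inl ⟨Finset.mem_filter.2 ⟨Finset.mem_univ _, hk'.1.1, hk'.2, h⟩, hk'.1⟩
          · push Not at h
            obtain ⟨k', h4, p, p', h5⟩ := h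
            exact Or.inr ⟨(k, k'), Finset.mem_filter.2 ⟨Finset.mem_univ _, h4, p, p', h5⟩, rfl⟩
        have h4 := (Finset.card_le_card h3).trans (Finset.card_union_le _ _)
        have h5 := h4.trans (Nat.add_le_add_left Finset.card_image_le _)
        have h6 : ((univ.filter fun k => GoodA G l (F k)).card : ℝ) ≤
            ((Ks.filter fun k => Abs G (F k) l).card : ℝ) +
            ((univ.filter fun q : Fin K × Fin K => q.1 ≠ q.2 ∧
              IntR (F q.1) (F q.2)).card : ℝ) := by exact_mod_cast h5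
        have h7 : (q : ℝ) ≤ γ * κ * n / 16 := by
          rw [hq] at hLc
          push_cast at hLc
          linarith
        have h8 : (q : ℝ) ≤ ((Ks.filter fun k => Abs G (F k) l).card : ℝ) := by
          nlinarith
        exact_mod_cast h8)
    rw [Set.Finite.coe_toFinset] at h1
    exact h1

end Pool.Agent.C4F
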