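import Pool.Agent.Lib.MP_1ff796_co.Key

/-!
# Fractional perfect tilings by closed 4-walks, and tilings of blow-ups
-/

open Finset

namespace Pool.Agent.C4F

/-- closed 4-walks, indexed by `Fin 4` -/
def CW4 {V : Type*} (E : V → V → Prop) (T : Fin 4 → V) : Prop := ∀ j, E (T j) (T (j + 1))

theorem CW4_iff {V : Type*} (E : V → V → Prop) (T : Fin 4 → V) :
    CW4 E T ↔ CW E (T 0) (T 1) (T 2) (T 3) := by
  unfold CW4 CW
  constructor
  · intro h
    exact ⟨h 0, h 1, h 2, h 3⟩
  · rintro ⟨h0, h1, h2, h3⟩ j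
    fin_cases j
    · exact h0
    · exact h1
    · exact h2
    · exact h3

open Classical in
/-- multiplicity of a vertex in a closed walk -/
noncomputable def mult {V : Type*} (T : Fin 4 → V) (v : V) : ℝ := ∑ j, if T j = v then 1 else 0

theorem sum_mult_mul {V : Type*} [Fintype V] (T : Fin 4 → V) (f : V → ℝ) :
    ∑ v, mult T v * f v = ∑ j, f (T j) := by
  classical
  unfold mult
  simp_rw [Finset.sum_mul]
  rw [Finset.sum_comm]
  apply Finset.sum_congr rfl
  intro j _
  simp

theorem primal {V : Type*} [Fintype V] [Nonempty V] {E : V → V → Prop} (irr : ∀ v, ¬ E v v)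
    (dO : ∀ v, (Fintype.card V : ℝ) < 2 * dout E v)
    (dI : ∀ v, (Fintype.card V : ℝ) < 2 * din E v) :
    ∃ w : (Fin 4 → V) → ℝ, (∀ T, 0 ≤ w T) ∧ (∀ T, w T ≠ 0 → CW4 E T) ∧
      ∀ v, ∑ T, w T * mult T v = 1 := by
  classical
  set I := {T : Fin 4 → V // CW4 E T} with hI
  have hm : (0 : ℝ) < Fintype.card V := by exact_mod_cast Fintype.card_pos
  let Φ : (I → ℝ) →ₗ[ℝ] (V → ℝ) :=
    { toFun := fun w v => ∑ T : I, w T * (mult T.1 v / 4)
      map_add' := fun w w' => by
        funext v
        simp only [Pi.add_apply, add_mul, Finset.sum_add_distrib]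
      map_smul' := fun c w => by
        funext v
        simp only [Pi.smul_apply, smul_eq_mul, RingHom.id_apply, Finset.mul_sum, mul_assoc] }
  have hcont : Continuous Φ := LinearMap.continuous_of_finiteDimensional Φ
  set K := Φ '' stdSimplex ℝ I with hK
  have hKc : IsClosed K := ((isCompact_stdSimplex ℝ I).image hcont).isClosed
  have hKconv : Convex ℝ K := (convex_stdSimplex ℝ I).linear_image Φ
  by_cases hmem : (fun _ : V => (1 : ℝ) / Fintype.card V) ∈ K
  · obtain ⟨w, ⟨hw0, hw1⟩, hw⟩ := hmem
    refine ⟨fun T => ∑ s : I, if s.1 = T then (Fintype.card V : ℝ) / 4 * w s else 0, ?_, ?_, ?_⟩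
    · intro T
      apply Finset.sum_nonneg
      intro s _
      split_ifs
      · have := hw0 s
        positivity
      · exact le_rfl
    · intro T hT
      obtain ⟨s, _, hs⟩ := Finset.exists_ne_zero_of_sum_ne_zero hT
      by_cases h : s.1 = T
      · rw [← h]
        exact s.2
      · rw [if_neg h] at hs
        exact absurd rfl hs
    · intro v
      have h1 := congrFun hw v
      have h2 : ∑ T : I, w T * (mult T.1 v / 4) = 1 / Fintype.card V := h1
      simp_rw [Finset.sum_mul]
      rw [Finset.sum_comm]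
      have h4 : ∀ s : I, ∑ T : Fin 4 → V,
          (if s.1 = T then (Fintype.card V : ℝ) / 4 * w s else 0) * mult T v =
          Fintype.card V * (w s * (mult s.1 v / 4)) := by
        intro s
        simp_rw [ite_mul, zero_mul]
        rw [Finset.sum_ite_eq Finset.univ s.1]
        simp only [Finset.mem_univ, if_true]
        ring
      simp_rw [h4]
      rw [← Finset.mul_sum, h2]
      field_simp
  · exfalso
    obtain ⟨f, u, hu1, hu2⟩ := geometric_hahn_banach_point_closed hKconv hKc hmem
    let F : V → ℝ := fun v => f (fun j => if v = j then 1 else 0)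
    have hf : ∀ z : V → ℝ, f z = ∑ v, z v * F v := fun z => by
      have := LinearMap.pi_apply_eq_sum_univ f.toLinearMap z
      simpa using this
    have havg : ∑ v, F v < u * Fintype.card V := by
      rw [hf] at hu1
      rw [← Finset.mul_sum] at hu1
      rw [div_mul_eq_mul_div, one_mul, div_lt_iff₀ hm] at hu1
      exact hu1
    have hcw : ∀ a b c d, CW E a b c d → 4 * u < F a + F b + F c + F d := by
      intro a b c d hw
      have hT : CW4 E ![a, b, c, d] := (CW4_iff E _).2 hw
      have hk : Φ (Pi.single (⟨![a, b, c, d], hT⟩ : I) 1) ∈ K :=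
        ⟨_, single_mem_stdSimplex ℝ _, rfl⟩
      have h1 := hu2 _ hk
      have h2 : Φ (Pi.single (⟨![a, b, c, d], hT⟩ : I) 1) = fun v => mult ![a, b, c, d] v / 4 := by
        funext v
        show ∑ T : I, (Pi.single (⟨![a, b, c, d], hT⟩ : I) (1 : ℝ) : I → ℝ) T *
          (mult T.1 v / 4) = _
        rw [Finset.sum_eq_single (⟨![a, b, c, d], hT⟩ : I)]
        · rw [Pi.single_eq_same, one_mul]
        · intro s _ hs
          rw [Pi.single_eq_of_ne hs, zero_mul]
        · intro h
          exact absurd (Finset.mem_univ _) h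
      rw [h2, hf] at h1
      have h3 : ∑ v, mult ![a, b, c, d] v / 4 * F v = (∑ v, mult ![a, b, c, d] v * F v) / 4 := by
        rw [Finset.sum_div]
        apply Finset.sum_congr rfl
        intro v _
        ring
      rw [h3, sum_mult_mul, Fin.sum_univ_four] at h1
      simp at h1
      linarith
    -- shift
    obtain ⟨s, hs1, hs2⟩ : ∃ s : ℝ, (∀ v, 0 ≤ F v + s) ∧ 0 < u + s := by
      refine ⟨∑ v, |F v| + |u| + 1, fun v => ?_, ?_⟩
      · have h1 : |F v| ≤ ∑ v, |F v| :=
          Finset.single_le_sum (f := fun v => |F v|) (fun v _ => abs_nonneg _) (Finset.mem_univ v)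
        have := neg_abs_le (F v)
        have := abs_nonneg u
        linarith
      · have h1 : 0 ≤ ∑ v, |F v| := Finset.sum_nonneg fun v _ => abs_nonneg _
        have := neg_abs_le u
        linarith
    have hfeas : Feas E (fun v => (F v + s) / (4 * (u + s))) := by
      refine ⟨fun v => div_nonneg (hs1 v) (by linarith), fun a b c d hw => ?_⟩
      have h1 := hcw a b c d hw
      rw [← add_div, ← add_div, ← add_div, le_div_iff₀ (by linarith)]
      linarith
    have hkey := key irr dO dI hfeas
    rw [← Finset.sum_div, Finset.sum_add_distrib, Finset.sum_const, Finset.card_univ,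
      nsmul_eq_mul] at hkey
    have h5 : 4 * ((∑ v, F v + (Fintype.card V : ℝ) * s) / (4 * (u + s))) < Fintype.card V := by
      rw [← mul_div_assoc, div_lt_iff₀ (by linarith)]
      nlinarith
    linarith


/-! ### tilings -/

/-- `S` is the vertex set of a family of pairwise disjoint directed 4-cycles. -/
def Tiled {V : Type} (E : V → V → Prop) (S : Set V) : Prop :=
  ∃ (ι : Type) (_ : Fintype ι) (f : ι × Fin 4 → V), Function.Injective f ∧
    (∀ i j, E (f (i, j)) (f (i, j + 1))) ∧ Set.range f = S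

theorem Tiled.empty {V : Type} (E : V → V → Prop) : Tiled E (∅ : Set V) := by
  refine ⟨Empty, inferInstance, fun x => x.1.elim, fun x => x.1.elim, fun i => i.elim, ?_⟩
  ext v
  simp

theorem Tiled.union {V : Type} {E : V → V → Prop} {S T : Set V} (hS : Tiled E S) (hT : Tiled E T)
    (hd : Disjoint S T) : Tiled E (S ∪ T) := by
  obtain ⟨ι, _, f, hf, hfE, hfS⟩ := hS
  obtain ⟨κ, _, g, hg, hgE, hgT⟩ := hT
  have hne : ∀ x y, f x ≠ g y := fun x y h => by
    have h1 : f x ∈ S := hfS ▸ Set.mem_range_self x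
    have h2 : g y ∈ T := hgT ▸ Set.mem_range_self y
    rw [h] at h1
    exact Set.disjoint_left.1 hd h1 h2
  refine ⟨ι ⊕ κ, inferInstance, fun x => Sum.elim (fun i => f (i, x.2)) (fun k => g (k, x.2)) x.1,
    ?_, ?_, ?_⟩
  · rintro ⟨i | k, j⟩ ⟨i' | k', j'⟩ h
    · have := hf h
      simp only [Prod.mk.injEq] at this
      simp [this]
    · exact absurd h (hne _ _)
    · exact absurd h.symm (hne _ _)
    · have := hg h
      simp only [Prod.mk.injEq] at this
      simp [this]
  · rintro (i | k) j
    · exact hfE i j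
    · exact hgE k j
  · ext v
    constructor
    · rintro ⟨⟨i | k, j⟩, rfl⟩
      · exact Or.inl (hfS ▸ Set.mem_range_self (i, j))
      · exact Or.inr (hgT ▸ Set.mem_range_self (k, j))
    · rintro (h | h)
      · rw [← hfS] at h
        obtain ⟨⟨i, j⟩, rfl⟩ := h
        exact ⟨(Sum.inl i, j), rfl⟩
      · rw [← hgT] at h
        obtain ⟨⟨k, j⟩, rfl⟩ := h
        exact ⟨(Sum.inr k, j), rfl⟩

theorem Tiled.four_dvd {V : Type} {E : V → V → Prop} {S : Set V} (hS : Tiled E S) :
    4 ∣ S.ncard := by
  obtain ⟨ι, _, f, hf, hfE, rfl⟩ := hS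
  rw [← Set.image_univ, Set.ncard_image_of_injective _ hf, Set.ncard_univ, Nat.card_eq_fintype_card,
    Fintype.card_prod, Fintype.card_fin]
  exact Dvd.intro_left _ rfl

theorem Tiled.finite {V : Type} {E : V → V → Prop} {S : Set V} (hS : Tiled E S) : S.Finite := by
  obtain ⟨ι, _, f, hf, hfE, rfl⟩ := hS
  exact Set.finite_range f

theorem Tiled.map {W V : Type} {E : W → W → Prop} {E' : V → V → Prop} {S : Set W}
    (hS : Tiled E S) (φ : W → V) (hφ : Function.Injective φ) (hE : ∀ a b, E a b → E' (φ a) (φ b)) :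
    Tiled E' (φ '' S) := by
  obtain ⟨ι, _, f, hf, hfE, rfl⟩ := hS
  exact ⟨ι, inferInstance, φ ∘ f, hφ.comp hf, fun i j => hE _ _ (hfE i j), Set.range_comp _ _⟩

open Classical in
theorem sum_mult_right {P : Type} [Fintype P] (w : (Fin 4 → P) → ℝ)
    (h1 : ∀ v, ∑ T, w T * mult T v = 1) : 4 * ∑ T, w T = Fintype.card P := by
  have h2 : ∑ v : P, ∑ T, w T * mult T v = Fintype.card P := by
    simp_rw [h1]
    simp
  rw [← h2, Finset.sum_comm, Finset.mul_sum]
  apply Finset.sum_congr rfl
  intro T _
  rw [← Finset.mul_sum]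
  have := sum_mult_mul T (fun _ : P => (1 : ℝ))
  simp only [mul_one] at this
  rw [this]
  simp
  ring

theorem blowup {P : Type} [Fintype P] [Nonempty P] {E : P → P → Prop} (irr : ∀ v, ¬ E v v)
    (dO : ∀ v, (Fintype.card P : ℝ) < 2 * dout E v)
    (dI : ∀ v, (Fintype.card P : ℝ) < 2 * din E v) {V : Type} (G : V → V → Prop) (D : ℕ)
    (φ : P × Fin D → V) (hφ : Function.Injective φ)
    (hE : ∀ p p' i i', E p p' → G (φ (p, i)) (φ (p', i'))) :
    ∃ S : Set V, S ⊆ Set.range φ ∧ Tiled G S ∧
      (D : ℝ) * Fintype.card P - 4 * (Fintype.card P : ℝ) ^ 4 ≤ S.ncard := by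
  classical
  obtain ⟨w, hw0, hwE, hw1⟩ := primal irr dO dI
  let n : (Fin 4 → P) → ℕ := fun T => ⌊(D : ℝ) * w T⌋₊
  let cl : (Σ T : Fin 4 → P, Fin (n T)) × Fin 4 → P := fun x => x.1.1 x.2
  have hn : ∀ T, (n T : ℝ) ≤ D * w T := fun T =>
    Nat.floor_le (mul_nonneg (Nat.cast_nonneg _) (hw0 T))
  have hcard : ∀ p, Fintype.card {x // cl x = p} ≤ Fintype.card (Fin D) := by
    intro p
    rw [Fintype.card_fin, Fintype.card_subtype, Finset.card_filter]
    have h1 : ((∑ x : (Σ T : Fin 4 → P, Fin (n T)) × Fin 4, if cl x = p then 1 else 0 : ℕ) : ℝ)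
        = ∑ T : Fin 4 → P, (n T : ℝ) * mult T p := by
      rw [Fintype.sum_prod_type, Fintype.sum_sigma]
      push_cast
      apply Finset.sum_congr rfl
      intro T _
      have h0 : ∀ x : Fin (n T), (∑ j : Fin 4, if cl (⟨T, x⟩, j) = p then (1 : ℝ) else 0) =
          mult T p := fun x => by
        unfold mult
        apply Finset.sum_congr rfl
        intro j _
        rfl
      rw [Finset.sum_congr rfl fun x _ => h0 x, Finset.sum_const, Finset.card_univ,
        Fintype.card_fin, nsmul_eq_mul]
    have h2 : ∑ T : Fin 4 → P, (n T : ℝ) * mult T p ≤ D := by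
      calc ∑ T : Fin 4 → P, (n T : ℝ) * mult T p ≤ ∑ T : Fin 4 → P, (D * w T) * mult T p := by
            apply Finset.sum_le_sum
            intro T _
            apply mul_le_mul_of_nonneg_right (hn T)
            unfold mult
            apply Finset.sum_nonneg
            intro j _
            split_ifs <;> norm_num
        _ = D * ∑ T : Fin 4 → P, w T * mult T p := by
            rw [Finset.mul_sum]
            apply Finset.sum_congr rfl
            intro T _
            ring
        _ = D := by rw [hw1, mul_one]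
    have h3 : ((∑ x : (Σ T : Fin 4 → P, Fin (n T)) × Fin 4, if cl x = p then 1 else 0 : ℕ) : ℝ)
        ≤ (D : ℝ) := by rw [h1]; exact h2
    exact_mod_cast h3
  have hemb : ∀ p, Nonempty ({x // cl x = p} ↪ Fin D) := fun p =>
    Function.Embedding.nonempty_of_card_le (hcard p)
  have emb : ∀ p, {x // cl x = p} ↪ Fin D := fun p => (hemb p).some
  let f : (Σ T : Fin 4 → P, Fin (n T)) × Fin 4 → V := fun x => φ (cl x, emb (cl x) ⟨x, rfl⟩)
  have hf : Function.Injective f := by
    intro x x' h
    have h1 := hφ h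
    rw [Prod.mk.injEq] at h1
    obtain ⟨h2, h3⟩ := h1
    have key' : ∀ p p' (hp : cl x = p) (hp' : cl x' = p'), p = p' →
        emb p ⟨x, hp⟩ = emb p' ⟨x', hp'⟩ → x = x' := by
      intro p p' hp hp' hpp he
      subst hpp
      have := (emb p).injective he
      exact congrArg Subtype.val this
    exact key' _ _ rfl rfl h2 h3
  refine ⟨Set.range f, ?_, ⟨_, inferInstance, f, hf, ?_, rfl⟩, ?_⟩
  · rintro _ ⟨x, rfl⟩
    exact Set.mem_range_self _
  · rintro ⟨T, k⟩ j
    apply hE
    refine hwE T ?_ j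
    intro h0
    have h1 : n T = 0 := by
      simp only [n]
      rw [h0, mul_zero, Nat.floor_zero]
    have h2 := k.isLt
    omega
  · rw [← Set.image_univ, Set.ncard_image_of_injective _ hf, Set.ncard_univ,
      Nat.card_eq_fintype_card, Fintype.card_prod, Fintype.card_sigma, Fintype.card_fin]
    push_cast
    simp_rw [Fintype.card_fin]
    have h1 : ∑ T : Fin 4 → P, ((D : ℝ) * w T - 1) ≤ ∑ T : Fin 4 → P, (n T : ℝ) :=
      Finset.sum_le_sum fun T _ => (Nat.sub_one_lt_floor _).le
    rw [Finset.sum_sub_distrib, ← Finset.mul_sum, Finset.sum_const, Finset.card_univ,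
      Fintype.card_fun, Fintype.card_fin, nsmul_eq_mul, mul_one] at h1
    push_cast at h1
    have h2 := sum_mult_right w hw1
    have h3 : (D : ℝ) * Fintype.card P = 4 * (D * ∑ T, w T) := by
      rw [← h2]; ring
    rw [h3]
    linarith

end Pool.Agent.C4F
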