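import Mathlib

/-!
# The fractional key lemma for C4-tilings of digraphs

If every vertex of a digraph on `m` vertices has out-degree and in-degree larger than `m / 2`, then
every nonnegative weighting of the vertices in which each closed 4-walk has weight at least `1` has
total weight at least `m / 4`.
-/

open Finset Filter Topology

namespace Pool.Agent.C4F

variable {V : Type*}

/-- `a → b → c → d → a` is a closed 4-walk. -/
def CW (E : V → V → Prop) (a b c d : V) : Prop := E a b ∧ E b c ∧ E c d ∧ E d a

open Classical in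
/-- The adjacency indicator. -/
noncomputable def e (E : V → V → Prop) (u v : V) : ℝ := if E u v then 1 else 0

theorem e_nonneg (E : V → V → Prop) (u v : V) : 0 ≤ e E u v := by
  unfold e; split_ifs <;> norm_num

theorem e_le_one (E : V → V → Prop) (u v : V) : e E u v ≤ 1 := by
  unfold e; split_ifs <;> norm_num

theorem e_zero {E : V → V → Prop} {u v : V} (h : ¬ E u v) : e E u v = 0 := by
  unfold e; rw [if_neg h]

theorem e_one {E : V → V → Prop} {u v : V} (h : E u v) : e E u v = 1 := by
  unfold e; rw [if_pos h]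

theorem e_add {E : V → V → Prop} {u v u' v' : V} (h : E u v → E u' v' → False) :
    e E u v + e E u' v' ≤ 1 := by
  by_cases h1 : E u v
  · have h2 : ¬ E u' v' := fun h2 => h h1 h2
    rw [e_zero h2]; have := e_le_one E u v; linarith
  · rw [e_zero h1]; have := e_le_one E u' v'; linarith

/-- Feasible vertex weightings. -/
structure Feas (E : V → V → Prop) (y : V → ℝ) : Prop where
  nn : ∀ v, 0 ≤ y v
  cw : ∀ a b c d, CW E a b c d → 1 ≤ y a + y b + y c + y d

/-- Optimal (minimal total weight) feasible weightings. -/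
structure Opt [Fintype V] (E : V → V → Prop) (y : V → ℝ) : Prop extends Feas E y where
  min : ∀ y', Feas E y' → ∑ v, y v ≤ ∑ v, y' v

theorem perturb [Fintype V] {E : V → V → Prop} {y : V → ℝ} (h : Opt E y) (g : V → ℝ) (c : ℝ)
    (hZ : ∀ v, y v = 0 → g v ≤ c)
    (hT : ∀ a b c' d, CW E a b c' d → y a + y b + y c' + y d = 1 →
      g a + g b + g c' + g d ≤ 4 * c) : ∑ v, g v ≤ c * Fintype.card V := by
  by_contra hcon
  push Not at hcon
  have h1 : ∀ᶠ ε in 𝓝[>] (0 : ℝ), ∀ v, 0 ≤ y v + ε * (c - g v) := by
    refine Filter.eventually_all.2 fun v => ?_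
    rcases (h.nn v).eq_or_lt with h0 | h0
    · filter_upwards [self_mem_nhdsWithin] with ε hε
      have h2 := mul_nonneg (le_of_lt (show (0 : ℝ) < ε from hε)) (sub_nonneg.2 (hZ v h0.symm))
      rw [← h0]; linarith
    · have h2 : Tendsto (fun ε : ℝ => y v + ε * (c - g v)) (𝓝[>] 0) (𝓝 (y v + 0 * (c - g v))) :=
        tendsto_nhdsWithin_of_tendsto_nhds (Continuous.tendsto (by fun_prop) 0)
      have h3 : (0 : ℝ) < y v + 0 * (c - g v) := by linarith
      filter_upwards [h2.eventually (lt_mem_nhds h3)] with ε hε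
      exact hε.le
  have h2 : ∀ᶠ ε in 𝓝[>] (0 : ℝ), ∀ a b c' d, CW E a b c' d →
      1 ≤ (y a + ε * (c - g a)) + (y b + ε * (c - g b)) + (y c' + ε * (c - g c')) +
        (y d + ε * (c - g d)) := by
    refine Filter.eventually_all.2 fun a => Filter.eventually_all.2 fun b =>
      Filter.eventually_all.2 fun c' => Filter.eventually_all.2 fun d => ?_
    by_cases hw : CW E a b c' d
    · rcases (h.cw a b c' d hw).eq_or_lt with h0 | h0
      · filter_upwards [self_mem_nhdsWithin] with ε hε _
        have h3 := hT a b c' d hw h0.symm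
        have h4 := mul_nonneg (le_of_lt (show (0 : ℝ) < ε from hε)) (sub_nonneg.2 h3)
        nlinarith
      · have h2 : Tendsto (fun ε : ℝ => (y a + ε * (c - g a)) + (y b + ε * (c - g b)) +
            (y c' + ε * (c - g c')) + (y d + ε * (c - g d))) (𝓝[>] 0)
            (𝓝 ((y a + 0 * (c - g a)) + (y b + 0 * (c - g b)) +
            (y c' + 0 * (c - g c')) + (y d + 0 * (c - g d)))) :=
          tendsto_nhdsWithin_of_tendsto_nhds (Continuous.tendsto (by fun_prop) 0)
        have h3 : (1 : ℝ) < (y a + 0 * (c - g a)) + (y b + 0 * (c - g b)) +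
            (y c' + 0 * (c - g c')) + (y d + 0 * (c - g d)) := by linarith
        filter_upwards [h2.eventually (lt_mem_nhds h3)] with ε hε _
        exact hε.le
    · exact Filter.Eventually.of_forall fun ε hh => absurd hh hw
  obtain ⟨ε, ⟨hε1, hε2⟩, hε⟩ := ((h1.and h2).and self_mem_nhdsWithin).exists
  have hpos : (0 : ℝ) < ε := hε
  have h3 := h.min (fun v => y v + ε * (c - g v)) ⟨hε1, hε2⟩
  rw [Finset.sum_add_distrib, ← Finset.mul_sum, Finset.sum_sub_distrib, Finset.sum_const,
    Finset.card_univ, nsmul_eq_mul] at h3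
  have h4 : ε * ((Fintype.card V : ℝ) * c - ∑ v, g v) < 0 := by
    apply mul_neg_of_pos_of_neg hpos
    linarith
  linarith

/-- classification of a weight with bounds -/
def Bd (a0 a1 a2 a3 t g : ℝ) : Prop :=
  (t = 0 ∧ g ≤ a0) ∨ (0 < t ∧ t < 1 / 2 ∧ g ≤ a1) ∨ (1 / 2 ≤ t ∧ t < 1 ∧ g ≤ a2) ∨
    (1 ≤ t ∧ g ≤ a3)

theorem bd_intro {a0 a1 a2 a3 t g : ℝ} (ht : 0 ≤ t) (h0 : t = 0 → g ≤ a0)
    (h1 : 0 < t → t < 1 / 2 → g ≤ a1) (h2 : 1 / 2 ≤ t → t < 1 → g ≤ a2) (h3 : 1 ≤ t → g ≤ a3) :
    Bd a0 a1 a2 a3 t g := by
  unfold Bd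
  rcases ht.eq_or_lt with h | h
  · exact Or.inl ⟨h.symm, h0 h.symm⟩
  · by_cases h4 : t < 1 / 2
    · exact Or.inr (Or.inl ⟨h, h4, h1 h h4⟩)
    · by_cases h5 : t < 1
      · exact Or.inr (Or.inr (Or.inl ⟨not_lt.1 h4, h5, h2 (not_lt.1 h4) h5⟩))
      · exact Or.inr (Or.inr (Or.inr ⟨not_lt.1 h5, h3 (not_lt.1 h5)⟩))

theorem bd_zero {a0 a1 a2 a3 t g : ℝ} (h : Bd a0 a1 a2 a3 t g) (ht : t ≤ 0) :
    t = 0 ∧ g ≤ a0 := by
  rcases h with ⟨q, r⟩ | ⟨q, q', r⟩ | ⟨q, q', r⟩ | ⟨q, r⟩
  · exact ⟨q, r⟩
  all_goals linarith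

theorem bd_nonneg {a0 a1 a2 a3 t g : ℝ} (h : Bd a0 a1 a2 a3 t g) : 0 ≤ t := by
  rcases h with ⟨q, r⟩ | ⟨q, q', r⟩ | ⟨q, q', r⟩ | ⟨q, r⟩ <;> linarith

theorem bd_one {a0 a1 a2 a3 t g : ℝ} (h : Bd a0 a1 a2 a3 t g) (ht : t = 1) : g ≤ a3 := by
  rcases h with ⟨q, r⟩ | ⟨q, q', r⟩ | ⟨q, q', r⟩ | ⟨q, r⟩
  · linarith
  · linarith
  · linarith
  · exact r

theorem bd_mid {a0 a1 a2 a3 t g : ℝ} (h : Bd a0 a1 a2 a3 t g) (h0 : 0 < t) (h1 : t < 1)
    (h12 : a1 ≤ a2) : g ≤ a2 ∧ (t < 1 / 2 → g ≤ a1) := by
  rcases h with ⟨q, r⟩ | ⟨q, q', r⟩ | ⟨q, q', r⟩ | ⟨q, r⟩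
  · linarith
  · exact ⟨by linarith, fun _ => r⟩
  · exact ⟨r, fun _ => by linarith⟩
  · linarith

theorem tile2 {a0 a1 a2 a3 B t1 t2 g1 g2 : ℝ} (hs : t1 + t2 = 1)
    (h1 : Bd a0 a1 a2 a3 t1 g1) (h2 : Bd a0 a1 a2 a3 t2 g2) (hB3 : a3 + a0 ≤ B)
    (hB2 : 2 * a2 ≤ B) (h12 : a1 ≤ a2) : g1 + g2 ≤ B := by
  by_cases p1 : 0 < t1
  · by_cases p2 : 0 < t2
    · have := (bd_mid h1 p1 (by linarith) h12).1
      have := (bd_mid h2 p2 (by linarith) h12).1
      linarith
    · obtain ⟨q, r⟩ := bd_zero h2 (not_lt.1 p2)
      have := bd_one h1 (by linarith)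
      linarith
  · obtain ⟨q, r⟩ := bd_zero h1 (not_lt.1 p1)
    have := bd_one h2 (by linarith)
    linarith

theorem tile3 {a0 a1 a2 a3 B t1 t2 t3 g1 g2 g3 : ℝ} (hs : t1 + t2 + t3 = 1)
    (h1 : Bd a0 a1 a2 a3 t1 g1) (h2 : Bd a0 a1 a2 a3 t2 g2) (h3 : Bd a0 a1 a2 a3 t3 g3)
    (hB3 : a3 + 2 * a0 ≤ B) (hB2 : 2 * a2 + a0 ≤ B) (hB1 : a2 + 2 * a1 ≤ B) (h12 : a1 ≤ a2) :
    g1 + g2 + g3 ≤ B := by
  by_cases p1 : 0 < t1
  · by_cases p2 : 0 < t2
    · by_cases p3 : 0 < t3
      · obtain ⟨r1, s1⟩ := bd_mid h1 p1 (by linarith) h12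
        obtain ⟨r2, s2⟩ := bd_mid h2 p2 (by linarith) h12
        obtain ⟨r3, s3⟩ := bd_mid h3 p3 (by linarith) h12
        by_cases u1 : t1 < 1 / 2
        · have v1 := s1 u1
          by_cases u2 : t2 < 1 / 2
          · have v2 := s2 u2
            linarith
          · have v3 := s3 (by linarith)
            linarith
        · have v2 := s2 (by linarith)
          have v3 := s3 (by linarith)
          linarith
      · obtain ⟨q, r⟩ := bd_zero h3 (not_lt.1 p3)
        have := tile2 (B := B - a0) (by linarith) h1 h2 (by linarith) (by linarith) h12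
        linarith
    · obtain ⟨q, r⟩ := bd_zero h2 (not_lt.1 p2)
      have := tile2 (B := B - a0) (by linarith) h1 h3 (by linarith) (by linarith) h12
      linarith
  · obtain ⟨q, r⟩ := bd_zero h1 (not_lt.1 p1)
    have := tile2 (B := B - a0) (by linarith) h2 h3 (by linarith) (by linarith) h12
    linarith

theorem tile4 {a0 a1 a2 a3 B t1 t2 t3 t4 g1 g2 g3 g4 : ℝ} (hs : t1 + t2 + t3 + t4 = 1)
    (h1 : Bd a0 a1 a2 a3 t1 g1) (h2 : Bd a0 a1 a2 a3 t2 g2) (h3 : Bd a0 a1 a2 a3 t3 g3)
    (h4 : Bd a0 a1 a2 a3 t4 g4) (hB3 : a3 + 3 * a0 ≤ B) (hB2 : 2 * a2 + 2 * a0 ≤ B)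
    (hB1 : a2 + 2 * a1 + a0 ≤ B) (h12 : a1 ≤ a2)
    (hall : 0 < t1 → 0 < t2 → 0 < t3 → 0 < t4 → g1 + g2 + g3 + g4 ≤ B) :
    g1 + g2 + g3 + g4 ≤ B := by
  by_cases p1 : 0 < t1
  · by_cases p2 : 0 < t2
    · by_cases p3 : 0 < t3
      · by_cases p4 : 0 < t4
        · exact hall p1 p2 p3 p4
        · obtain ⟨q, r⟩ := bd_zero h4 (not_lt.1 p4)
          have := tile3 (B := B - a0) (by linarith) h1 h2 h3 (by linarith) (by linarith)
            (by linarith) h12
          linarith
      · obtain ⟨q, r⟩ := bd_zero h3 (not_lt.1 p3)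
        have := tile3 (B := B - a0) (by linarith) h1 h2 h4 (by linarith) (by linarith)
          (by linarith) h12
        linarith
    · obtain ⟨q, r⟩ := bd_zero h2 (not_lt.1 p2)
      have := tile3 (B := B - a0) (by linarith) h1 h3 h4 (by linarith) (by linarith)
        (by linarith) h12
      linarith
  · obtain ⟨q, r⟩ := bd_zero h1 (not_lt.1 p1)
    have := tile3 (B := B - a0) (by linarith) h2 h3 h4 (by linarith) (by linarith)
      (by linarith) h12
    linarith

/-! ### consequences of optimality -/

section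

variable [Fintype V] {E : V → V → Prop} {y : V → ℝ}

theorem exists_zero (h : Opt E y) (hlt : 4 * ∑ v, y v < Fintype.card V) : ∃ v, y v = 0 := by
  by_contra hcon
  push Not at hcon
  have h1 := perturb h (fun v => 1 - 4 * y v) 0 (fun v hv => absurd hv (hcon v))
    (fun a b c d _ hs => by linarith)
  rw [Finset.sum_sub_distrib, ← Finset.mul_sum, Finset.sum_const, Finset.card_univ,
    nsmul_eq_mul] at h1
  linarith

/-- The out-degree as a real number. -/
noncomputable def dout (E : V → V → Prop) (v : V) : ℝ := ∑ w, e E v w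

/-- The in-degree as a real number. -/
noncomputable def din (E : V → V → Prop) (v : V) : ℝ := ∑ w, e E w v

/-- four positive vertices: a zero vertex cannot replace any of them -/
theorem fourpos (h : Feas E y) {a b c d x : V} (hw : CW E a b c d)
    (hs : y a + y b + y c + y d = 1) (ha : 0 < y a) (hb : 0 < y b) (hc : 0 < y c) (hd : 0 < y d)
    (hx : y x = 0) :
    (e E x a + e E a x) + (e E x b + e E b x) + (e E x c + e E c x) + (e E x d + e E d x) ≤ 4 := by
  obtain ⟨h1, h2, h3, h4⟩ := hw
  have r1 : e E a x + e E x c ≤ 1 := e_add fun p q => by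
    have := h.cw a x c d ⟨p, q, h3, h4⟩; linarith
  have r2 : e E c x + e E x a ≤ 1 := e_add fun p q => by
    have := h.cw c x a b ⟨p, q, h1, h2⟩; linarith
  have r3 : e E b x + e E x d ≤ 1 := e_add fun p q => by
    have := h.cw b x d a ⟨p, q, h4, h1⟩; linarith
  have r4 : e E d x + e E x b ≤ 1 := e_add fun p q => by
    have := h.cw d x b c ⟨p, q, h2, h3⟩; linarith
  linarith

/-- Generic contradiction from many K-type pairs. -/
theorem genK (h : Opt E y) (g : V → ℝ) (c : ℝ) (hc : 0 ≤ c) (hZ : ∀ v, y v = 0 → 3 * g v ≤ 2 * c)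
    (h1 : ∀ v, y v < 1 → g v ≤ c) (h2 : ∀ v, g v ≤ 2 * c) :
    ∑ v, g v ≤ c * Fintype.card V := by
  apply perturb h g c (fun v hv => by have := hZ v hv; linarith)
  intro a b c' d hw hs
  have bd : ∀ v, Bd (2 * c / 3) c c (2 * c) (y v) (g v) := fun v =>
    bd_intro (h.nn v) (fun hv => by have := hZ v hv; linarith) (fun _ hv => h1 v (by linarith))
      (fun _ hv => h1 v hv) (fun _ => h2 v)
  refine tile4 hs (bd a) (bd b) (bd c') (bd d) (by linarith) (by linarith) (by linarith) le_rfl ?_
  intro pa pb pc pd
  have := h1 a (by linarith)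
  have := h1 b (by linarith)
  have := h1 c' (by linarith)
  have := h1 d (by linarith)
  linarith

/-- Case 2: an isolated zero vertex gives a contradiction. -/
theorem case_isolated (h : Opt E y) {x : V} (hx : y x = 0)
    (hiso : ∀ v, y v = 0 → ¬ E x v ∧ ¬ E v x) :
    ∑ v, (e E x v + e E v x) ≤ 1 * Fintype.card V := by
  have hdb : ∀ v, y v < 1 / 2 → e E x v + e E v x ≤ 1 := fun v hv => e_add fun p q => by
    have := h.cw x v x v ⟨p, q, p, q⟩; linarith
  have htw : ∀ v, e E x v + e E v x ≤ 2 := fun v => by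
    have := e_le_one E x v; have := e_le_one E v x; linarith
  apply perturb h (fun v => e E x v + e E v x) 1
  · intro v hv
    have := hdb v (by linarith)
    simpa using this
  · intro a b c d hw hs
    have bd : ∀ v, Bd 0 1 2 2 (y v) (e E x v + e E v x) := fun v =>
      bd_intro (h.nn v) (fun hv => by rw [e_zero (hiso v hv).1, e_zero (hiso v hv).2]; norm_num)
        (fun _ hv => hdb v hv) (fun _ _ => htw v) (fun _ => htw v)
    have := tile4 (B := 4) hs (bd a) (bd b) (bd c) (bd d) (by norm_num) (by norm_num) (by norm_num)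
      (by norm_num) (fun pa pb pc pd => fourpos h.toFeas hw hs pa pb pc pd hx)
    simpa using this

theorem exists_small (S : Finset V) (hS : S.Nonempty) (hor : ∀ a ∈ S, ∀ b ∈ S, E a b → ¬ E b a) :
    ∃ a ∈ S, 2 * ∑ v ∈ S, e E a v ≤ S.card := by
  have h1 : ∑ a ∈ S, 2 * ∑ v ∈ S, e E a v ≤ ∑ a ∈ S, (S.card : ℝ) := by
    have h2 : ∑ a ∈ S, 2 * ∑ v ∈ S, e E a v = ∑ a ∈ S, ∑ v ∈ S, (e E a v + e E v a) := by
      simp_rw [Finset.sum_add_distrib, two_mul]
      rw [Finset.sum_add_distrib]
      congr 1
      rw [Finset.sum_comm]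
    rw [h2]
    apply Finset.sum_le_sum
    intro a ha
    calc ∑ v ∈ S, (e E a v + e E v a) ≤ ∑ v ∈ S, (1 : ℝ) := by
          apply Finset.sum_le_sum
          intro v hv
          exact e_add fun p q => hor a ha v hv p q
      _ = S.card := by simp
  exact Finset.exists_le_of_sum_le hS h1

/-- every triangle edge out of `x` : out-neighbours of `x` among zero vertices lie on triangles. -/
def OG (E : V → V → Prop) (y : V → ℝ) (x : V) : Prop :=
  ∀ a, y a = 0 → E x a → ∃ b, y b = 0 ∧ E b x ∧ E a b

def IG (E : V → V → Prop) (y : V → ℝ) (x : V) : Prop :=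
  ∀ b, y b = 0 → E b x → ∃ a, y a = 0 ∧ E x a ∧ E a b

/-- The standing assumptions. -/
structure Ctx (E : V → V → Prop) (y : V → ℝ) : Prop where
  irr : ∀ v, ¬ E v v
  opt : Opt E y
  dO : ∀ v, (Fintype.card V : ℝ) < 2 * dout E v
  dI : ∀ v, (Fintype.card V : ℝ) < 2 * din E v

theorem Ctx.sumK (C : Ctx E y) (u u' : V) :
    (Fintype.card V : ℝ) < ∑ v, (e E u v + e E v u') := by
  have h1 := C.dO u
  have h2 := C.dI u'
  unfold dout at h1
  unfold din at h2
  rw [Finset.sum_add_distrib]
  linarith

theorem Ctx.noCW (C : Ctx E y) {a b c d : V} (ha : y a = 0) (hb : y b = 0) (hc : y c = 0)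
    (hd : y d = 0) (h1 : E a b) (h2 : E b c) (h3 : E c d) (h4 : E d a) : False := by
  have := C.opt.cw a b c d ⟨h1, h2, h3, h4⟩
  linarith

theorem sum_mod (S : Finset V) (f : V → ℝ) (hS : 2 * ∑ v ∈ S, f v ≤ S.card) :
    ∑ v, 2 * f v ≤ ∑ v, (by classical exact if v ∈ S then (1 : ℝ) else 2 * f v) := by
  classical
  have h1 : ∑ v, (if v ∈ S then (1 : ℝ) else 2 * f v) - ∑ v, 2 * f v =
      ∑ v ∈ S, (1 - 2 * f v) := by
    rw [← Finset.sum_sub_distrib]
    have h2 : ∀ v : V, (if v ∈ S then (1 : ℝ) else 2 * f v) - 2 * f v =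
        if v ∈ S then (1 - 2 * f v) else 0 := by
      intro v
      split_ifs <;> ring
    simp_rw [h2]
    rw [Finset.sum_ite_mem, Finset.univ_inter]
  have h3 : ∑ v ∈ S, (1 - 2 * f v) = S.card - 2 * ∑ v ∈ S, f v := by
    rw [Finset.sum_sub_distrib, ← Finset.mul_sum]
    simp
  have h4 : ∑ v, (by classical exact if v ∈ S then (1 : ℝ) else 2 * f v) =
      ∑ v, (if v ∈ S then (1 : ℝ) else 2 * f v) := by
    apply Finset.sum_congr rfl
    intro v _
    split_ifs <;> rfl
  rw [h4]
  linarith

theorem case_one (C : Ctx E y) {x : V} (hx : y x = 0) : OG E y x ∨ IG E y x := by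
  classical
  by_contra hcon
  unfold OG IG at hcon
  push Not at hcon
  obtain ⟨⟨a0, ha0, hxa0, ha0'⟩, ⟨b0, hb0, hb0x, hb0'⟩⟩ := hcon
  set A2 : Finset V := Finset.univ.filter
    (fun a => y a = 0 ∧ E x a ∧ ∀ b, y b = 0 → E b x → ¬ E a b) with hA2
  set B2 : Finset V := Finset.univ.filter
    (fun b => y b = 0 ∧ E b x ∧ ∀ a, y a = 0 → E x a → ¬ E a b) with hB2
  have memA : ∀ v, v ∈ A2 ↔ y v = 0 ∧ E x v ∧ ∀ b, y b = 0 → E b x → ¬ E v b := by
    intro v; rw [hA2, Finset.mem_filter]; simp
  have memB : ∀ v, v ∈ B2 ↔ y v = 0 ∧ E v x ∧ ∀ a, y a = 0 → E x a → ¬ E a v := by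
    intro v; rw [hB2, Finset.mem_filter]; simp
  have hno2 : ∀ u v, y u = 0 → y v = 0 → E u v → ¬ E v u := fun u v hu hv p q =>
    C.noCW hu hv hu hv p q p q
  obtain ⟨a, haA, hasum⟩ := exists_small (E := E) A2
    ⟨a0, (memA a0).2 ⟨ha0, hxa0, fun b hb hbx => ha0' b hb hbx⟩⟩
    (fun u hu v hv p => hno2 u v ((memA u).1 hu).1 ((memA v).1 hv).1 p)
  obtain ⟨b, hbB, hbsum⟩ := exists_small (E := fun u v => E v u) B2
    ⟨b0, (memB b0).2 ⟨hb0, hb0x, fun b hb hbx => hb0' b hb hbx⟩⟩
    (fun u hu v hv p => hno2 v u ((memB v).1 hv).1 ((memB u).1 hu).1 p)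
  have hbsum' : 2 * ∑ v ∈ B2, e E v b ≤ B2.card := hbsum
  obtain ⟨hya, hxa, haNo⟩ := (memA a).1 haA
  obtain ⟨hyb, hbx, hbNo⟩ := (memB b).1 hbB
  -- the function g
  let g : V → ℝ := fun v => e E x v + e E v x + (if v ∈ A2 then (1 : ℝ) else 2 * e E a v) +
    (if v ∈ B2 then (1 : ℝ) else 2 * e E v b)
  have hK : ∀ v, y v < 1 → e E a v + e E v b ≤ 1 := fun v hv => e_add fun p q => by
    have := C.opt.cw x a v b ⟨hxa, p, q, hbx⟩; linarith
  have hH : ∀ v, y v < 1 / 2 → e E x v + e E v x ≤ 1 := fun v hv => e_add fun p q => by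
    have := C.opt.cw x v x v ⟨p, q, p, q⟩; linarith
  have hgpos : ∀ v, 0 < y v → g v = e E x v + e E v x + 2 * (e E a v + e E v b) := by
    intro v hv
    have h1 : v ∉ A2 := fun h => by rw [((memA v).1 h).1] at hv; exact lt_irrefl _ hv
    have h2 : v ∉ B2 := fun h => by rw [((memB v).1 h).1] at hv; exact lt_irrefl _ hv
    simp only [g]
    rw [if_neg h1, if_neg h2]
    ring
  have hg0 : ∀ v, y v = 0 → g v ≤ 2 := by
    intro v hv
    simp only [g]
    by_cases h1 : E x v
    · have h2 : ¬ E v x := hno2 x v hx hv h1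
      have h3 : v ∉ B2 := fun h => h2 ((memB v).1 h).2.1
      have h4 : ¬ E v b := hbNo v hv h1
      rw [if_neg h3, e_zero h2, e_zero h4]
      by_cases h5 : v ∈ A2
      · rw [if_pos h5]; have := e_le_one E x v; linarith
      · rw [if_neg h5]
        have h6 : ¬ E a v := by
          intro h7
          apply h5
          rw [memA]
          refine ⟨hv, h1, fun b' hb' hb'x h8 => ?_⟩
          exact C.noCW hx hya hv hb' hxa h7 h8 hb'x
        rw [e_zero h6]; have := e_le_one E x v; linarith
    · by_cases h2 : E v x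
      · have h3 : v ∉ A2 := fun h => h1 ((memA v).1 h).2.1
        have h4 : ¬ E a v := haNo v hv h2
        rw [if_neg h3, e_zero h1, e_zero h4]
        by_cases h5 : v ∈ B2
        · rw [if_pos h5]; have := e_le_one E v x; linarith
        · rw [if_neg h5]
          have h6 : ¬ E v b := by
            intro h7
            apply h5
            rw [memB]
            refine ⟨hv, h2, fun a' ha' hxa' h8 => ?_⟩
            exact C.noCW hx ha' hv hyb hxa' h8 h7 hbx
          rw [e_zero h6]; have := e_le_one E v x; linarith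
      · have h3 : v ∉ A2 := fun h => h1 ((memA v).1 h).2.1
        have h4 : v ∉ B2 := fun h => h2 ((memB v).1 h).2.1
        rw [if_neg h3, if_neg h4, e_zero h1, e_zero h2]
        have := hK v (by linarith)
        linarith
  have hsum : (3 : ℝ) * Fintype.card V < ∑ v, g v := by
    have s1 := C.sumK x x
    have s2 := C.sumK a b
    have m1 := sum_mod A2 (fun v => e E a v) hasum
    have m2 := sum_mod B2 (fun v => e E v b) hbsum'
    have e1 : ∑ v, g v = ∑ v, (e E x v + e E v x) +
        ∑ v, (if v ∈ A2 then (1 : ℝ) else 2 * e E a v) +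
        ∑ v, (if v ∈ B2 then (1 : ℝ) else 2 * e E v b) := by
      rw [← Finset.sum_add_distrib, ← Finset.sum_add_distrib]
    have e2 : ∑ v, (by classical exact if v ∈ A2 then (1 : ℝ) else 2 * e E a v) =
      ∑ v, (if v ∈ A2 then (1 : ℝ) else 2 * e E a v) := by
      apply Finset.sum_congr rfl
      intro v _
      split_ifs <;> rfl
    have e3 : ∑ v, (by classical exact if v ∈ B2 then (1 : ℝ) else 2 * e E v b) =
      ∑ v, (if v ∈ B2 then (1 : ℝ) else 2 * e E v b) := by
      apply Finset.sum_congr rfl
      intro v _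
      split_ifs <;> rfl
    rw [e2] at m1
    rw [e3] at m2
    have e4 : ∑ v, (e E a v + e E v b) = ∑ v, e E a v + ∑ v, e E v b := Finset.sum_add_distrib
    rw [← Finset.mul_sum] at m1 m2
    rw [e1]
    rw [e4] at s2
    linarith
  have hle := perturb C.opt g 3 (fun v hv => by have := hg0 v hv; linarith) (by
    intro p q r s hw hs
    have bd : ∀ v, Bd 2 3 4 6 (y v) (g v) := fun v =>
      bd_intro (C.opt.nn v) (fun hv => hg0 v hv)
        (fun hv0 hv => by
          rw [hgpos v hv0]; have := hK v (by linarith); have := hH v hv; linarith)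
        (fun hv0 hv => by
          rw [hgpos v (by linarith)]; have := hK v hv
          have := e_le_one E x v; have := e_le_one E v x; linarith)
        (fun hv => by
          rw [hgpos v (by linarith)]
          have := e_le_one E x v; have := e_le_one E v x
          have := e_le_one E a v; have := e_le_one E v b; linarith)
    have := tile4 (B := 12) hs (bd p) (bd q) (bd r) (bd s) (by norm_num) (by norm_num)
      (by norm_num) (by norm_num) (fun pa pb pc pd => by
        have f4 := fourpos C.opt.toFeas hw hs pa pb pc pd hx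
        rw [hgpos p pa, hgpos q pb, hgpos r pc, hgpos s pd]
        have := hK p (by linarith)
        have := hK q (by linarith)
        have := hK r (by linarith)
        have := hK s (by linarith)
        linarith)
    linarith)
  linarith


theorem e_cases (E : V → V → Prop) (u v : V) :
    (E u v ∧ e E u v = 1) ∨ (¬ E u v ∧ e E u v = 0) := by
  by_cases h : E u v
  · exact Or.inl ⟨h, e_one h⟩
  · exact Or.inr ⟨h, e_zero h⟩

theorem Ctx.K (C : Ctx E y) {u' z u : V} (hu' : y u' = 0) (hz : y z = 0) (hu : y u = 0)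
    (h1 : E u' z) (h2 : E z u) (v : V) (hv : y v < 1) : e E u v + e E v u' ≤ 1 :=
  e_add fun p q => by have := C.opt.cw u' z u v ⟨h1, h2, p, q⟩; linarith

theorem Ctx.no2 (C : Ctx E y) {u v : V} (hu : y u = 0) (hv : y v = 0) (p : E u v) : ¬ E v u :=
  fun q => C.noCW hu hv hu hv p q p q

/-- a triangle of zero vertices, with no zero vertex dominated by or dominating all of it -/
theorem tri (C : Ctx E y) {x a b : V} (hx : y x = 0) (ha : y a = 0) (hb : y b = 0)
    (hxa : E x a) (hab : E a b) (hbx : E b x)
    (hout : ∀ v, y v = 0 → E x v → E a v → E b v → False)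
    (hin : ∀ v, y v = 0 → E v x → E v a → E v b → False) : False := by
  let g : V → ℝ := fun v => (e E b v + e E v x) + (e E x v + e E v a) + (e E a v + e E v b)
  have hle := genK C.opt g 3 (by norm_num) (by
      intro v hv
      have q1 := C.K hx ha hb hxa hab v (by linarith)
      have q2 := C.K ha hb hx hab hbx v (by linarith)
      have q3 := C.K hb hx ha hbx hxa v (by linarith)
      have n1 := C.no2 hx hv
      have n2 := C.no2 ha hv
      have n3 := C.no2 hb hv
      have o := hout v hv
      have i := hin v hv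
      have : g v ≤ 2 := by
        simp only [g]
        rcases e_cases E x v with ⟨h1, k1⟩ | ⟨h1, k1⟩
        · rcases e_cases E a v with ⟨h2, k2⟩ | ⟨h2, k2⟩
          · rcases e_cases E b v with ⟨h3, k3⟩ | ⟨h3, k3⟩
            · exact (o h1 h2 h3).elim
            · have := e_zero (n1 h1)
              linarith
          · rcases e_cases E b v with ⟨h3, k3⟩ | ⟨h3, k3⟩
            · have := e_zero (n3 h3)
              linarith
            · have := e_zero (n1 h1)
              have := e_le_one E v b
              linarith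
        · rcases e_cases E a v with ⟨h2, k2⟩ | ⟨h2, k2⟩
          · rcases e_cases E b v with ⟨h3, k3⟩ | ⟨h3, k3⟩
            · have := e_zero (n2 h2)
              linarith
            · have := e_zero (n2 h2)
              linarith
          · rcases e_cases E b v with ⟨h3, k3⟩ | ⟨h3, k3⟩
            · have := e_zero (n3 h3)
              linarith
            · rcases e_cases E v x with ⟨h4, k4⟩ | ⟨h4, k4⟩
              · rcases e_cases E v a with ⟨h5, k5⟩ | ⟨h5, k5⟩
                · rcases e_cases E v b with ⟨h6, k6⟩ | ⟨h6, k6⟩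
                  · exact (i h4 h5 h6).elim
                  · linarith
                · have := e_le_one E v b
                  linarith
              · have := e_le_one E v a
                have := e_le_one E v b
                linarith
      linarith)
    (by
      intro v hv
      have q1 := C.K hx ha hb hxa hab v hv
      have q2 := C.K ha hb hx hab hbx v hv
      have q3 := C.K hb hx ha hbx hxa v hv
      simp only [g]
      linarith)
    (by
      intro v
      simp only [g]
      have := e_le_one E x v; have := e_le_one E a v; have := e_le_one E b v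
      have := e_le_one E v x; have := e_le_one E v a; have := e_le_one E v b
      linarith)
  have s1 := C.sumK b x
  have s2 := C.sumK x a
  have s3 := C.sumK a b
  simp only [g] at hle
  rw [Finset.sum_add_distrib, Finset.sum_add_distrib] at hle
  linarith

theorem OGno (C : Ctx E y) {x a v : V} (hO : OG E y x) (hx : y x = 0) (ha : y a = 0)
    (hv : y v = 0) (hxa : E x a) (hxv : E x v) (hav : E a v) : False := by
  obtain ⟨b', hb', h1, h2⟩ := hO v hv hxv
  exact C.noCW hx ha hv hb' hxa hav h2 h1

theorem IGno (C : Ctx E y) {x b v : V} (hI : IG E y x) (hx : y x = 0) (hb : y b = 0)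
    (hv : y v = 0) (hbx : E b x) (hvx : E v x) (hvb : E v b) : False := by
  obtain ⟨a', ha', h1, h2⟩ := hI v hv hvx
  exact C.noCW hx ha' hv hb h1 h2 hvb hbx

theorem tri_mixed (C : Ctx E y) {x a b : V} (hx : y x = 0) (ha : y a = 0) (hb : y b = 0)
    (hxa : E x a) (hab : E a b) (hbx : E b x) (hO : OG E y x ∨ OG E y a ∨ OG E y b)
    (hI : IG E y x ∨ IG E y a ∨ IG E y b) : False := by
  refine tri C hx ha hb hxa hab hbx ?_ ?_
  · intro v hv h1 h2 h3
    rcases hO with h | h | h
    · exact OGno C h hx ha hv hxa h1 h2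
    · exact OGno C h ha hb hv hab h2 h3
    · exact OGno C h hb hx hv hbx h3 h1
  · intro v hv h1 h2 h3
    rcases hI with h | h | h
    · exact IGno C h hx hb hv hbx h1 h3
    · exact IGno C h ha hx hv hxa h2 h1
    · exact IGno C h hb ha hv hab h3 h2

theorem OG_succ (C : Ctx E y) {u v : V} (hu : y u = 0) (hv : y v = 0) (hO : OG E y u)
    (huv : E u v) : OG E y v := by
  obtain ⟨b, hb, h1, h2⟩ := hO v hv huv
  rcases case_one C hv with h | h
  · exact h
  · exact (tri_mixed C hu hv hb huv h2 h1 (Or.inl hO) (Or.inr (Or.inl h))).elim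

/-- no edge between zero vertices out of an `OG` vertex -/
theorem claim6 (C : Ctx E y) {u v : V} (hu : y u = 0) (hv : y v = 0) (hO : OG E y u)
    (huv : E u v) : False := by
  obtain ⟨b, hb, hbu, hvb⟩ := hO v hv huv
  have hOv := OG_succ C hu hv hO huv
  have hOb := OG_succ C hv hb hOv hvb
  have hout : ∀ w, y w = 0 → E u w → E v w → E b w → False := fun w hw h1 h2 _ =>
    OGno C hO hu hv hw huv h1 h2
  have hex : ∃ p, y p = 0 ∧ E p u ∧ E p v ∧ E p b := by
    by_contra hcon
    push Not at hcon
    exact tri C hu hv hb huv hvb hbu hout fun w hw h1 h2 h3 => hcon w hw h1 h2 h3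
  obtain ⟨p, hp, hpu, hpv, hpb⟩ := hex
  rcases case_one C hp with hPO | hPI
  · obtain ⟨q, hq, h1, h2⟩ := hPO u hu hpu
    exact C.noCW hu hq hp hb h2 h1 hpb hbu
  · by_cases hr : ∃ r, y r = 0 ∧ E r p
    · obtain ⟨r, hr, hrp⟩ := hr
      let g : V → ℝ := fun w => (e E u w + e E w p) + (e E v w + e E w p) + (e E b w + e E w p) +
        (e E u w + e E w r) + (e E v w + e E w r) + (e E b w + e E w r)
      have hle := genK C.opt g 6 (by norm_num) (by
          intro w hw
          have k1 := C.K hp hb hu hpb hbu w (by linarith)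
          have k2 := C.K hp hu hv hpu huv w (by linarith)
          have k3 := C.K hp hv hb hpv hvb w (by linarith)
          have k4 := C.K hr hp hu hrp hpu w (by linarith)
          have k5 := C.K hr hp hv hrp hpv w (by linarith)
          have k6 := C.K hr hp hb hrp hpb w (by linarith)
          have n1 := e_nonneg E w p
          have n2 := e_nonneg E w r
          have : g w ≤ 4 := by
            simp only [g]
            rcases e_cases E u w with ⟨h1, j1⟩ | ⟨h1, j1⟩
            · rcases e_cases E v w with ⟨h2, j2⟩ | ⟨h2, j2⟩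
              · rcases e_cases E b w with ⟨h3, j3⟩ | ⟨h3, j3⟩
                · exact (hout w hw h1 h2 h3).elim
                · linarith
              · have := e_le_one E b w
                linarith
            · rcases e_cases E v w with ⟨h2, j2⟩ | ⟨h2, j2⟩
              · have := e_le_one E b w
                linarith
              · rcases e_cases E b w with ⟨h3, j3⟩ | ⟨h3, j3⟩
                · linarith
                · have : e E w p + e E w r ≤ 1 := e_add fun h4 h5 =>
                    IGno C hPI hp hr hw hrp h4 h5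
                  linarith
          linarith)
        (by
          intro w hw
          have k1 := C.K hp hb hu hpb hbu w hw
          have k2 := C.K hp hu hv hpu huv w hw
          have k3 := C.K hp hv hb hpv hvb w hw
          have k4 := C.K hr hp hu hrp hpu w hw
          have k5 := C.K hr hp hv hrp hpv w hw
          have k6 := C.K hr hp hb hrp hpb w hw
          simp only [g]
          linarith)
        (by
          intro w
          simp only [g]
          have := e_le_one E u w; have := e_le_one E v w; have := e_le_one E b w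
          have := e_le_one E w p; have := e_le_one E w r
          linarith)
      have s1 := C.sumK u p
      have s2 := C.sumK v p
      have s3 := C.sumK b p
      have s4 := C.sumK u r
      have s5 := C.sumK v r
      have s6 := C.sumK b r
      simp only [g] at hle
      rw [Finset.sum_add_distrib, Finset.sum_add_distrib, Finset.sum_add_distrib,
        Finset.sum_add_distrib, Finset.sum_add_distrib] at hle
      linarith
    · push Not at hr
      let g : V → ℝ := fun w => (e E u w + e E w p) + (e E v w + e E w p) + (e E b w + e E w p)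
      have hle := genK C.opt g 3 (by norm_num) (by
          intro w hw
          have h0 := e_zero (hr w hw)
          have : g w ≤ 2 := by
            simp only [g]
            rcases e_cases E u w with ⟨h1, j1⟩ | ⟨h1, j1⟩
            · rcases e_cases E v w with ⟨h2, j2⟩ | ⟨h2, j2⟩
              · rcases e_cases E b w with ⟨h3, j3⟩ | ⟨h3, j3⟩
                · exact (hout w hw h1 h2 h3).elim
                · linarith
              · have := e_le_one E b w
                linarith
            · have := e_le_one E v w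
              have := e_le_one E b w
              linarith
          linarith)
        (by
          intro w hw
          have k1 := C.K hp hb hu hpb hbu w hw
          have k2 := C.K hp hu hv hpu huv w hw
          have k3 := C.K hp hv hb hpv hvb w hw
          simp only [g]
          linarith)
        (by
          intro w
          simp only [g]
          have := e_le_one E u w; have := e_le_one E v w; have := e_le_one E b w
          have := e_le_one E w p
          linarith)
      have s1 := C.sumK u p
      have s2 := C.sumK v p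
      have s3 := C.sumK b p
      simp only [g] at hle
      rw [Finset.sum_add_distrib, Finset.sum_add_distrib] at hle
      linarith

/-! ### reversing the relation -/

/-- The reversed relation. -/
def rev (E : V → V → Prop) (u v : V) : Prop := E v u

theorem CW_rev {a b c d : V} (h : CW (rev E) a b c d) : CW E a d c b := by
  obtain ⟨h1, h2, h3, h4⟩ := h
  exact ⟨h4, h3, h2, h1⟩

theorem Feas_rev (h : Feas E y) : Feas (rev E) y :=
  ⟨h.nn, fun a b c d hw => by have := h.cw a d c b (CW_rev hw); linarith⟩

theorem Opt_rev (h : Opt E y) : Opt (rev E) y :=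
  { Feas_rev h.toFeas with
    min := fun y' hy' => h.min y' (by
      have := Feas_rev hy'
      exact this) }

theorem Ctx_rev (C : Ctx E y) : Ctx (rev E) y :=
  ⟨C.irr, Opt_rev C.opt, C.dI, C.dO⟩

theorem claim6' (C : Ctx E y) {u v : V} (hu : y u = 0) (hv : y v = 0) (hI : IG E y v)
    (huv : E u v) : False :=
  claim6 (Ctx_rev C) hv hu (show OG (rev E) y v from hI) huv


/-- The last configuration: an edge `p → x` of zero vertices. -/
structure Last (E : V → V → Prop) (y : V → ℝ) (p x : V) : Prop where
  hp : y p = 0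
  hx : y x = 0
  px : E p x
  xo : ∀ v, y v = 0 → ¬ E x v
  pi : ∀ v, y v = 0 → ¬ E v p
  nb : ∀ v, y v = 0 → E p v → ¬ E v x

/-- Case 7a -/
theorem case7a (C : Ctx E y) {p x : V} (L : Last E y p x)
    (hbig : ∀ v, E x v → E v p → 1 / 2 ≤ y v) : False := by
  have hle := perturb C.opt (fun v => e E x v + e E v p) 1
    (fun v hv => by
      have := e_zero (L.xo v hv); have := e_zero (L.pi v hv)
      linarith)
    (by
      intro a b c d hw hs
      have bd : ∀ v, Bd 0 1 2 2 (y v) (e E x v + e E v p) := fun v =>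
        bd_intro (C.opt.nn v)
          (fun hv => by
            have := e_zero (L.xo v hv); have := e_zero (L.pi v hv)
            linarith)
          (fun _ hv => e_add fun h1 h2 => by have := hbig v h1 h2; linarith)
          (fun _ _ => by have := e_le_one E x v; have := e_le_one E v p; linarith)
          (fun _ => by have := e_le_one E x v; have := e_le_one E v p; linarith)
      have := tile4 (B := 4) hs (bd a) (bd b) (bd c) (bd d) (by norm_num) (by norm_num)
        (by norm_num) (by norm_num) (fun pa pb pc pd => by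
          obtain ⟨h1, h2, h3, h4⟩ := hw
          have r1 : e E x a + e E b p ≤ 1 := e_add fun q1 q2 => by
            have := C.opt.cw x a b p ⟨q1, h1, q2, L.px⟩
            rw [L.hp, L.hx] at this; linarith
          have r2 : e E x b + e E c p ≤ 1 := e_add fun q1 q2 => by
            have := C.opt.cw x b c p ⟨q1, h2, q2, L.px⟩
            rw [L.hp, L.hx] at this; linarith
          have r3 : e E x c + e E d p ≤ 1 := e_add fun q1 q2 => by
            have := C.opt.cw x c d p ⟨q1, h3, q2, L.px⟩
            rw [L.hp, L.hx] at this; linarith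
          have r4 : e E x d + e E a p ≤ 1 := e_add fun q1 q2 => by
            have := C.opt.cw x d a p ⟨q1, h4, q2, L.px⟩
            rw [L.hp, L.hx] at this; linarith
          linarith)
      linarith)
  have := C.sumK x p
  linarith

/-- The function used in Case 7b. -/
noncomputable def g7 (E : V → V → Prop) (p x v : V) : ℝ :=
  (e E x v + e E v p) + (e E p v + e E v x)

theorem g7_le_four (p x v : V) : g7 E p x v ≤ 4 := by
  unfold g7
  have := e_le_one E x v; have := e_le_one E v p
  have := e_le_one E p v; have := e_le_one E v x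
  linarith

theorem g7_zero {p x : V} (L : Last E y p x) (v : V) (hv : y v = 0) : g7 E p x v ≤ 1 := by
  unfold g7
  have := e_zero (L.xo v hv); have := e_zero (L.pi v hv)
  have : e E p v + e E v x ≤ 1 := e_add fun h1 h2 => L.nb v hv h1 h2
  linarith

theorem g7_half (C : Ctx E y) {p x : V} (L : Last E y p x) (v : V) (hv : y v < 1 / 2) :
    g7 E p x v ≤ 2 := by
  unfold g7
  have h1 : e E x v + e E v x ≤ 1 := e_add fun q1 q2 => by
    have := C.opt.cw x v x v ⟨q1, q2, q1, q2⟩
    rw [L.hx] at this; linarith
  have h2 : e E p v + e E v p ≤ 1 := e_add fun q1 q2 => by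
    have := C.opt.cw p v p v ⟨q1, q2, q1, q2⟩
    rw [L.hp] at this; linarith
  linarith

theorem g7_four (C : Ctx E y) {p x : V} (L : Last E y p x) {a b c d : V} (hw : CW E a b c d)
    (hs : y a + y b + y c + y d = 1) (ha : 0 < y a) (hb : 0 < y b) (hc : 0 < y c)
    (hd : 0 < y d) : g7 E p x a + g7 E p x b + g7 E p x c + g7 E p x d ≤ 8 := by
  have f1 := fourpos C.opt.toFeas hw hs ha hb hc hd L.hx
  have f2 := fourpos C.opt.toFeas hw hs ha hb hc hd L.hp
  unfold g7
  linarith

/-- a tile with a heavy vertex `a`, `p → a → x` -/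
theorem heavy (C : Ctx E y) {p x v0 : V} (L : Last E y p x) (hxv : E x v0) (hvp : E v0 p)
    (hv0 : y v0 < 1 / 2) {a b c d : V} (hw : CW E a b c d) (hs : y a + y b + y c + y d = 1)
    (hpa : E p a) (hax : E a x) : g7 E p x a + g7 E p x b + g7 E p x c + g7 E p x d ≤ 8 := by
  have hP : ∀ v, y v < 1 / 2 → e E p v + e E v x ≤ 1 := fun v hv => e_add fun q1 q2 => by
    have := C.opt.cw p v x v0 ⟨q1, q2, hxv, hvp⟩
    rw [L.hp, L.hx] at this; linarith
  have hya : 1 / 2 < y a := by
    have := C.opt.cw p a x v0 ⟨hpa, hax, hxv, hvp⟩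
    rw [L.hp, L.hx] at this; linarith
  have na := C.opt.nn a
  have nb := C.opt.nn b
  have nc := C.opt.nn c
  have nd := C.opt.nn d
  have g4a := g7_le_four (E := E) p x a
  have g2b := g7_half C L b (by linarith)
  have g2c := g7_half C L c (by linarith)
  have g2d := g7_half C L d (by linarith)
  obtain ⟨h1, h2, h3, h4⟩ := hw
  rcases nb.eq_or_lt with b0 | bp
  · have g1b := g7_zero L b b0.symm
    rcases nc.eq_or_lt with c0 | cp
    · have g1c := g7_zero L c c0.symm
      linarith
    · rcases nd.eq_or_lt with d0 | dp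
      · have g1d := g7_zero L d d0.symm
        linarith
      · -- b zero, c, d positive
        have r0 : e E c p = 0 := e_zero fun q => by
          have := C.opt.cw p a b c ⟨hpa, h1, h2, q⟩
          rw [L.hp] at this; linarith
        have r1 : e E x d + e E a p ≤ 1 := e_add fun q1 q2 => by
          have := C.opt.cw x d a p ⟨q1, h4, q2, L.px⟩
          rw [L.hp, L.hx] at this; linarith
        have r2 : e E x a + e E c x ≤ 1 := e_add fun q1 q2 => by
          have := C.opt.cw x a b c ⟨q1, h1, h2, q2⟩
          rw [L.hx] at this; linarith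
        have r3 : e E x c + e E d p ≤ 1 := e_add fun q1 q2 => by
          have := C.opt.cw x c d p ⟨q1, h3, q2, L.px⟩
          rw [L.hp, L.hx] at this; linarith
        have r4 := hP d (by linarith)
        have r5 := e_le_one E p c
        have r6 := e_one hpa
        have r7 := e_one hax
        have ga : g7 E p x a = (e E x a + e E a p) + (e E p a + e E a x) := rfl
        have gc : g7 E p x c = (e E x c + e E c p) + (e E p c + e E c x) := rfl
        have gd : g7 E p x d = (e E x d + e E d p) + (e E p d + e E d x) := rfl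
        linarith
  · rcases nc.eq_or_lt with c0 | cp
    · have g1c := g7_zero L c c0.symm
      rcases nd.eq_or_lt with d0 | dp
      · have g1d := g7_zero L d d0.symm
        linarith
      · -- c zero, b, d positive
        have ga : g7 E p x a = (e E x a + e E a p) + (e E p a + e E a x) := rfl
        have gc : g7 E p x c = (e E x c + e E c p) + (e E p c + e E c x) := rfl
        have r1 := e_zero (L.xo c c0.symm)
        have r2 := e_zero (L.pi c c0.symm)
        have l1 := e_le_one E x a
        have l2 := e_le_one E a p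
        have l3 := e_le_one E p a
        have l4 := e_le_one E a x
        rcases e_cases E p c with ⟨q1, k1⟩ | ⟨q1, k1⟩
        · have : e E a p = 0 := e_zero fun q => by
            have := C.opt.cw a p c d ⟨q, q1, h3, h4⟩
            rw [L.hp] at this; linarith
          linarith
        · rcases e_cases E c x with ⟨q2, k2⟩ | ⟨q2, k2⟩
          · have : e E x a = 0 := e_zero fun q => by
              have := C.opt.cw x a b c ⟨q, h1, h2, q2⟩
              rw [L.hx] at this; linarith
            linarith
          · linarith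
    · rcases nd.eq_or_lt with d0 | dp
      · -- d zero, b, c positive
        have g1d := g7_zero L d d0.symm
        have r0 : e E x c = 0 := e_zero fun q => by
          have := C.opt.cw x c d a ⟨q, h3, h4, hax⟩
          rw [L.hx] at this; linarith
        have r1 : e E x a + e E b p ≤ 1 := e_add fun q1 q2 => by
          have := C.opt.cw x a b p ⟨q1, h1, q2, L.px⟩
          rw [L.hp, L.hx] at this; linarith
        have r2 : e E a p + e E p c ≤ 1 := e_add fun q1 q2 => by
          have := C.opt.cw a p c d ⟨q1, q2, h3, h4⟩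
          rw [L.hp] at this; linarith
        have r3 : e E x b + e E c p ≤ 1 := e_add fun q1 q2 => by
          have := C.opt.cw x b c p ⟨q1, h2, q2, L.px⟩
          rw [L.hp, L.hx] at this; linarith
        have r4 := hP b (by linarith)
        have r5 := e_le_one E c x
        have r6 := e_one hpa
        have r7 := e_one hax
        have ga : g7 E p x a = (e E x a + e E a p) + (e E p a + e E a x) := rfl
        have gb : g7 E p x b = (e E x b + e E b p) + (e E p b + e E b x) := rfl
        have gc : g7 E p x c = (e E x c + e E c p) + (e E p c + e E c x) := rfl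
        linarith
      · exact g7_four C L ⟨h1, h2, h3, h4⟩ hs (by linarith) bp cp dp

/-- Case 7b -/
theorem case7b (C : Ctx E y) {p x v0 : V} (L : Last E y p x) (hxv : E x v0) (hvp : E v0 p)
    (hv0 : y v0 < 1 / 2) : False := by
  have hle := perturb C.opt (g7 E p x) 2 (fun v hv => by have := g7_zero L v hv; linarith)
    (by
      intro a b c d hw hs
      have hw' := hw
      obtain ⟨h1, h2, h3, h4⟩ := hw'
      by_cases ka : E p a ∧ E a x
      · have := heavy C L hxv hvp hv0 hw hs ka.1 ka.2
        linarith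
      by_cases kb : E p b ∧ E b x
      · have := heavy C L hxv hvp hv0 (a := b) (b := c) (c := d) (d := a) ⟨h2, h3, h4, h1⟩
          (by linarith) kb.1 kb.2
        linarith
      by_cases kc : E p c ∧ E c x
      · have := heavy C L hxv hvp hv0 (a := c) (b := d) (c := a) (d := b) ⟨h3, h4, h1, h2⟩
          (by linarith) kc.1 kc.2
        linarith
      by_cases kd : E p d ∧ E d x
      · have := heavy C L hxv hvp hv0 (a := d) (b := a) (c := b) (d := c) ⟨h4, h1, h2, h3⟩
          (by linarith) kd.1 kd.2
        linarith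
      have h3' : ∀ v, ¬ (E p v ∧ E v x) → g7 E p x v ≤ 3 := by
        intro v hv
        unfold g7
        have := e_le_one E x v; have := e_le_one E v p
        have : e E p v + e E v x ≤ 1 := e_add fun q1 q2 => hv ⟨q1, q2⟩
        linarith
      have bd : ∀ v, ¬ (E p v ∧ E v x) → Bd 1 2 3 3 (y v) (g7 E p x v) := fun v hn =>
        bd_intro (C.opt.nn v) (fun hv => g7_zero L v hv) (fun _ hv => g7_half C L v hv)
          (fun _ _ => h3' v hn) (fun _ => h3' v hn)
      have := tile4 (B := 8) hs (bd a ka) (bd b kb) (bd c kc) (bd d kd) (by norm_num)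
        (by norm_num) (by norm_num) (by norm_num) (fun pa pb pc pd => g7_four C L hw hs pa pb pc pd)
      linarith)
  have s1 := C.sumK x p
  have s2 := C.sumK p x
  unfold g7 at hle
  rw [Finset.sum_add_distrib] at hle
  linarith

theorem ctx_false (C : Ctx E y) (hlt : 4 * ∑ v, y v < Fintype.card V) : False := by
  obtain ⟨x0, hx0⟩ := exists_zero C.opt hlt
  by_cases hedge : ∃ p x, y p = 0 ∧ y x = 0 ∧ E p x
  · obtain ⟨p, x, hp, hx, hpx⟩ := hedge
    have hall : ∀ u v, y u = 0 → y v = 0 → E u v → IG E y u ∧ OG E y v := by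
      intro u v hu hv huv
      constructor
      · rcases case_one C hu with h | h
        · exact (claim6 C hu hv h huv).elim
        · exact h
      · rcases case_one C hv with h | h
        · exact h
        · exact (claim6' C hu hv h huv).elim
    have L : Last E y p x :=
      { hp := hp
        hx := hx
        px := hpx
        xo := fun v hv h => claim6 C hx hv (hall p x hp hx hpx).2 h
        pi := fun v hv h => claim6' C hv hp (hall p x hp hx hpx).1 h
        nb := fun v hv h1 h2 => claim6 C hv hx (hall p v hp hv h1).2 h2 }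
    by_cases hb : ∀ v, E x v → E v p → 1 / 2 ≤ y v
    · exact case7a C L hb
    · push Not at hb
      obtain ⟨v0, h1, h2, h3⟩ := hb
      exact case7b C L h1 h2 h3
  · push Not at hedge
    have hle := case_isolated C.opt hx0 fun v hv => ⟨hedge x0 v hx0 hv, hedge v x0 hv hx0⟩
    have := C.sumK x0 x0
    linarith

end

theorem exists_opt [Fintype V] (E : V → V → Prop) : ∃ y, Opt E y := by
  classical
  let K : Set (V → ℝ) := {y | Feas E y ∧ ∀ v, y v ≤ 1}
  have hKeq : K = (Set.Icc (0 : V → ℝ) 1) ∩
      ⋂ (a : V) (b : V) (c : V) (d : V), {y : V → ℝ | CW E a b c d → 1 ≤ y a + y b + y c + y d} := by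
    ext y
    constructor
    · rintro ⟨⟨h1, h2⟩, h3⟩
      refine ⟨⟨fun v => h1 v, fun v => h3 v⟩, ?_⟩
      rw [Set.mem_iInter]; intro a
      rw [Set.mem_iInter]; intro b
      rw [Set.mem_iInter]; intro c
      rw [Set.mem_iInter]; intro d
      exact h2 a b c d
    · rintro ⟨⟨h1, h3⟩, h2⟩
      refine ⟨⟨fun v => h1 v, fun a b c d => ?_⟩, fun v => h3 v⟩
      rw [Set.mem_iInter] at h2
      have h2 := h2 a
      rw [Set.mem_iInter] at h2
      have h2 := h2 b
      rw [Set.mem_iInter] at h2
      have h2 := h2 c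
      rw [Set.mem_iInter] at h2
      exact h2 d
  have hK : IsCompact K := by
    rw [hKeq]
    apply IsCompact.inter_right isCompact_Icc
    refine isClosed_iInter fun a => isClosed_iInter fun b => isClosed_iInter fun c =>
      isClosed_iInter fun d => ?_
    by_cases hw : CW E a b c d
    · have : {y : V → ℝ | CW E a b c d → 1 ≤ y a + y b + y c + y d} =
          {y : V → ℝ | 1 ≤ y a + y b + y c + y d} := by
        ext y
        exact ⟨fun h => h hw, fun h _ => h⟩
      rw [this]
      exact isClosed_le continuous_const (by fun_prop)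
    · have : {y : V → ℝ | CW E a b c d → 1 ≤ y a + y b + y c + y d} = Set.univ := by
        ext y
        exact ⟨fun _ => trivial, fun _ h => absurd h hw⟩
      rw [this]
      exact isClosed_univ
  have hne : K.Nonempty := ⟨fun _ => 1, ⟨⟨fun _ => zero_le_one, fun _ _ _ _ _ => by norm_num⟩,
    fun _ => le_rfl⟩⟩
  obtain ⟨y, hy, hmin⟩ := hK.exists_isMinOn hne
    (f := fun y : V → ℝ => ∑ v, y v) (by fun_prop)
  refine ⟨y, { hy.1 with min := fun y' hy' => ?_ }⟩
  have h1 : (fun v => min (y' v) 1) ∈ K := by
    refine ⟨⟨fun v => le_min (hy'.nn v) zero_le_one, fun a b c d hw => ?_⟩, fun v => min_le_right _ _⟩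
    have n : ∀ v, 0 ≤ min (y' v) 1 := fun v => le_min (hy'.nn v) zero_le_one
    by_cases ha : 1 ≤ y' a
    · rw [min_eq_right ha]; linarith [n b, n c, n d]
    by_cases hb : 1 ≤ y' b
    · rw [min_eq_right hb]; linarith [n a, n c, n d]
    by_cases hc : 1 ≤ y' c
    · rw [min_eq_right hc]; linarith [n a, n b, n d]
    by_cases hd : 1 ≤ y' d
    · rw [min_eq_right hd]; linarith [n a, n b, n c]
    push Not at ha hb hc hd
    rw [min_eq_left ha.le, min_eq_left hb.le, min_eq_left hc.le, min_eq_left hd.le]
    exact hy'.cw a b c d hw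
  have h2 : ∑ v, y v ≤ ∑ v, min (y' v) 1 := hmin h1
  exact h2.trans (Finset.sum_le_sum fun v _ => min_le_left _ _)

/-- **The fractional key lemma.** -/
theorem key [Fintype V] {E : V → V → Prop} (irr : ∀ v, ¬ E v v)
    (dO : ∀ v, (Fintype.card V : ℝ) < 2 * dout E v)
    (dI : ∀ v, (Fintype.card V : ℝ) < 2 * din E v) {y : V → ℝ} (hy : Feas E y) :
    (Fintype.card V : ℝ) ≤ 4 * ∑ v, y v := by
  by_contra hcon
  push Not at hcon
  obtain ⟨y0, hy0⟩ := exists_opt E
  have h1 := hy0.min y hy
  exact ctx_false ⟨irr, hy0, dO, dI⟩ (by linarith)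

end Pool.Agent.C4F
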