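import Pool.Agent.Lib.MP_1ff796_co.Final

/-!
# Perfect tilings
-/

open Finset

namespace Pool.Agent.C4F

open Classical in
theorem dout_eq_ncard {V : Type} [Fintype V] (G : V → V → Prop) (v : V) :
    dout G v = ({w | G v w}.ncard : ℝ) := by
  unfold dout e
  rw [← Finset.natCast_card_filter, Set.ncard_eq_toFinset_card', Set.toFinset_ofPred]

theorem din_eq_ncard {V : Type} [Fintype V] (G : V → V → Prop) (v : V) :
    din G v = ({w | G w v}.ncard : ℝ) := dout_eq_ncard (rev G) v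

open Classical in
theorem dout_sub {V : Type} [Fintype V] (G : V → V → Prop) (S : Set V)
    (v : {v // v ∉ S}) :
    dout G v.1 - (S.ncard : ℝ) ≤ dout (fun a b : {v // v ∉ S} => G a.1 b.1) v := by
  have h1 : (∑ w : {w // w ∈ S}, e G v.1 w.1) + ∑ w : {w // w ∉ S}, e G v.1 w.1 = dout G v.1 :=
    Fintype.sum_subtype_add_sum_subtype (fun w => w ∈ S) (e G v.1)
  have h2 : ∑ w : {w // w ∈ S}, e G v.1 w.1 ≤ (S.ncard : ℝ) := by
    calc ∑ w : {w // w ∈ S}, e G v.1 w.1 ≤ ∑ _w : {w // w ∈ S}, (1 : ℝ) :=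
          Finset.sum_le_sum fun w _ => e_le_one _ _ _
      _ = (S.ncard : ℝ) := by
          rw [Finset.sum_const, Finset.card_univ, nsmul_eq_mul, mul_one,
            ← Nat.card_eq_fintype_card]
          rfl
  have h3 : dout (fun a b : {v // v ∉ S} => G a.1 b.1) v = ∑ w : {w // w ∉ S}, e G v.1 w.1 := rfl
  rw [h3]
  linarith

theorem perfect (η : ℝ) (hη : 0 < η) : ∃ n0 : ℕ, ∀ (V : Type) [Fintype V]
    (G : V → V → Prop), n0 ≤ Fintype.card V → 4 ∣ Fintype.card V →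
    (∀ v, (1 / 2 + η) * Fintype.card V ≤ dout G v) →
    (∀ v, (1 / 2 + η) * Fintype.card V ≤ din G v) → Tiled G (Set.univ : Set V) := by
  classical
  obtain ⟨κ, hκ0, hκη, hκ1⟩ : ∃ κ : ℝ, 0 < κ ∧ κ ≤ η / 2 ∧ κ ≤ 1 / 2 :=
    ⟨min (η / 2) (1 / 2), lt_min (by linarith) (by norm_num), min_le_left _ _, min_le_right _ _⟩
  obtain ⟨ξ, hξ, n0, hn0⟩ := absorbing η κ hη hκ0
  obtain ⟨n1, hn1⟩ := almost (η / 2) ξ (by linarith) hξ
  refine ⟨n0 + 2 * n1, fun V _ G hn h4 dO dI => ?_⟩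
  obtain ⟨S, hS, hSc, hSabs⟩ := hn0 V G (by omega) dO dI
  have hcompl := Set.ncard_add_ncard_compl S
  rw [Nat.card_eq_fintype_card] at hcompl
  have hcard' : Fintype.card {v // v ∉ S} = Sᶜ.ncard := by
    rw [← Nat.card_eq_fintype_card]
    rfl
  have hcR : (S.ncard : ℝ) + (Fintype.card {v // v ∉ S} : ℝ) = Fintype.card V := by
    rw [hcard']
    exact_mod_cast hcompl
  have hnn : (0 : ℝ) ≤ Fintype.card V := Nat.cast_nonneg _
  have hbig : n1 ≤ Fintype.card {v // v ∉ S} := by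
    have h1 : ((n0 + 2 * n1 : ℕ) : ℝ) ≤ Fintype.card V := by exact_mod_cast hn
    push_cast at h1
    have h2 : (0 : ℝ) ≤ n0 := Nat.cast_nonneg _
    have h3 : (n1 : ℝ) ≤ Fintype.card {v // v ∉ S} := by nlinarith
    exact_mod_cast h3
  have h4' : 4 ∣ Fintype.card {v // v ∉ S} := by
    rw [hcard']
    rw [← hcompl] at h4
    exact (Nat.dvd_add_right hS.four_dvd).1 h4
  have hS0 : (0 : ℝ) ≤ S.ncard := Nat.cast_nonneg _
  have hdeg : ∀ x : ℝ, (1 / 2 + η) * Fintype.card V ≤ x →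
      (1 / 2 + η / 2) * Fintype.card {v // v ∉ S} ≤ x - (S.ncard : ℝ) := by
    intro x hx
    have h1 : (S.ncard : ℝ) ≤ η / 2 * Fintype.card V :=
      hSc.trans (mul_le_mul_of_nonneg_right hκη hnn)
    have h2 : (1 / 2 + η / 2) * (Fintype.card {v // v ∉ S} : ℝ) ≤
        (1 / 2 + η / 2) * Fintype.card V :=
      mul_le_mul_of_nonneg_left (by linarith) (by linarith)
    linarith
  obtain ⟨S', hS', hS'c⟩ := hn1 {v // v ∉ S} (fun a b => G a.1 b.1) hbig h4'
    (fun v => (hdeg _ (dO v.1)).trans (dout_sub G S v))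
    (fun v => (hdeg _ (dI v.1)).trans (dout_sub (rev G) S v))
  -- lift
  have hT1 : Tiled G (Subtype.val '' S') :=
    hS'.map Subtype.val Subtype.val_injective fun _ _ h => h
  have hLc : (Subtype.val '' S'ᶜ : Set V).ncard = S'ᶜ.ncard :=
    Set.ncard_image_of_injective _ Subtype.val_injective
  have hL4 : 4 ∣ (Subtype.val '' S'ᶜ : Set V).ncard := by
    rw [hLc]
    have h1 := Set.ncard_add_ncard_compl S'
    rw [Nat.card_eq_fintype_card] at h1
    rw [← h1] at h4'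
    exact (Nat.dvd_add_right hS'.four_dvd).1 h4'
  have hT2 := hSabs (Subtype.val '' S'ᶜ) (by
      rw [Set.disjoint_left]
      rintro v hv ⟨w, _, rfl⟩
      exact w.2 hv) hL4 (by
      rw [hLc]
      refine hS'c.trans (mul_le_mul_of_nonneg_left ?_ hξ.le)
      linarith)
  have hset : (Set.univ : Set V) = Subtype.val '' S' ∪ (S ∪ Subtype.val '' S'ᶜ) := by
    ext v
    simp only [Set.mem_univ, true_iff]
    by_cases hv : v ∈ S
    · exact Or.inr (Or.inl hv)
    · by_cases hv' : (⟨v, hv⟩ : {v // v ∉ S}) ∈ S'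
      · exact Or.inl ⟨⟨v, hv⟩, hv', rfl⟩
      · exact Or.inr (Or.inr ⟨⟨v, hv⟩, hv', rfl⟩)
  rw [hset]
  apply hT1.union hT2
  rw [Set.disjoint_left]
  rintro v ⟨w, hw, rfl⟩ (h | ⟨w', hw', h⟩)
  · exact w.2 h
  · have : w' = w := Subtype.ext h
    subst this
    exact hw' hw

end Pool.Agent.C4F
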