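import Pool.Agent.Lib.MP_1ff796_co.Frac
import Pool.Agent.Lib.MP_1ff796_co.Erdos

/-!
# Sampling blocks
-/

open Finset

namespace Pool.Agent.C4F

theorem decouple {B : Type} [Fintype B] {r : ℕ} (i : Fin r) (x : B → B → ℝ)
    (hx0 : ∀ z z', 0 ≤ x z z') (hx4 : ∀ z z', x z z' ≤ 4) (η : ℝ) (hη : 0 < η)
    (hmean : ∀ z, (2 + 4 * η) * Fintype.card B ≤ ∑ z', x z z') (hr : 4 ≤ η * r)
    [DecidablePred fun ω : Fin r → B => ∑ j, (if j ≠ i then x (ω i) (ω j) else 0) <
      2 * r + 2 * η * r] :
    ((univ.filter fun ω : Fin r → B => ∑ j, (if j ≠ i then x (ω i) (ω j) else 0) <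
      2 * r + 2 * η * r).card : ℝ) ≤ 16 / (η ^ 2 * r) * (Fintype.card B : ℝ) ^ r := by
  classical
  rcases isEmpty_or_nonempty B with hB | hB
  · have : IsEmpty (Fin r → B) := ⟨fun ω => hB.elim (ω i)⟩
    rw [Finset.eq_empty_of_isEmpty (univ.filter _), Finset.card_empty, Nat.cast_zero]
    positivity
  have hN : (0 : ℝ) < Fintype.card B := by exact_mod_cast Fintype.card_pos
  have hr0 : (0 : ℝ) < r := by
    by_contra h
    have h1 : (r : ℝ) = 0 := le_antisymm (not_lt.1 h) (Nat.cast_nonneg _)
    rw [h1] at hr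
    linarith
  let μ : B → ℝ := fun z => (∑ z', x z z') / Fintype.card B
  have hμ : ∀ z, 2 + 4 * η ≤ μ z := fun z => (le_div_iff₀ hN).2 (hmean z)
  have hμ' : ∀ z, ∑ z', x z z' = μ z * Fintype.card B := fun z => by
    simp only [μ]
    field_simp
  have h1 : (univ.filter fun ω : Fin r → B => ∑ j, (if j ≠ i then x (ω i) (ω j) else 0) <
      2 * r + 2 * η * r).card * Fintype.card B ≤
      (univ.filter fun q : B × (Fin r → B) => ∑ j, x q.1 (q.2 j) < r * μ q.1 - η * r).card := by
    rw [← Finset.card_univ (α := B), ← Finset.card_product]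
    apply Finset.card_le_card_of_injOn
      (fun q : (Fin r → B) × B => (q.1 i, Function.update q.1 i q.2))
    · rintro ⟨ω, z⟩ h
      simp only [Finset.coe_product, Set.mem_prod, Finset.mem_coe, Finset.mem_filter,
        Finset.mem_univ, true_and, and_true] at h
      simp only [Finset.mem_coe, Finset.mem_filter, Finset.mem_univ, true_and]
      have h2 : ∑ j, x (ω i) (Function.update ω i z j) =
          ∑ j, (if j ≠ i then x (ω i) (ω j) else 0) + x (ω i) z := by
        have h3 : ∀ j, x (ω i) (Function.update ω i z j) =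
            (if j ≠ i then x (ω i) (ω j) else 0) + if j = i then x (ω i) z else 0 := by
          intro j
          by_cases hj : j = i
          · subst hj
            simp
          · rw [Function.update_of_ne hj, if_pos hj, if_neg hj, add_zero]
        simp_rw [h3]
        rw [Finset.sum_add_distrib]
        simp
      have h4 := hx4 (ω i) z
      have h5 := hμ (ω i)
      rw [h2]
      nlinarith
    · rintro ⟨ω, z⟩ _ ⟨ω', z'⟩ _ h
      simp only [Prod.mk.injEq] at h
      obtain ⟨h3, h4⟩ := h
      have hz : z = z' := by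
        have := congrFun h4 i
        simpa using this
      have hω : ω = ω' := by
        funext k
        by_cases hk : k = i
        · rw [hk, h3]
        · have := congrFun h4 k
          rwa [Function.update_of_ne hk, Function.update_of_ne hk] at this
      rw [hz, hω]
  have h2 : ((univ.filter fun q : B × (Fin r → B) =>
      ∑ j, x q.1 (q.2 j) < r * μ q.1 - η * r).card : ℝ) ≤
      Fintype.card B * (16 / (η ^ 2 * r) * (Fintype.card B : ℝ) ^ r) := by
    have h3 : (univ.filter fun q : B × (Fin r → B) =>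
        ∑ j, x q.1 (q.2 j) < r * μ q.1 - η * r).card =
        ∑ z : B, (univ.filter fun ω : Fin r → B => ∑ j, x z (ω j) < r * μ z - η * r).card := by
      rw [Finset.card_filter, Fintype.sum_prod_type]
      apply Finset.sum_congr rfl
      intro z _
      rw [Finset.card_filter]
    rw [h3]
    push_cast
    calc ∑ z : B, ((univ.filter fun ω : Fin r → B => ∑ j, x z (ω j) < r * μ z - η * r).card : ℝ)
        ≤ ∑ _z : B, (16 / (η ^ 2 * r) * (Fintype.card B : ℝ) ^ r) := by
          apply Finset.sum_le_sum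
          intro z _
          have h4 := chebyshev (x z) 4 (hx0 z) (hx4 z) (μ z) (hμ' z) r (η * r) (by positivity)
          refine h4.trans (le_of_eq ?_)
          field_simp
          norm_num
      _ = Fintype.card B * (16 / (η ^ 2 * r) * (Fintype.card B : ℝ) ^ r) := by
          rw [Finset.sum_const, Finset.card_univ, nsmul_eq_mul]
  have h5 : ((univ.filter fun ω : Fin r → B => ∑ j, (if j ≠ i then x (ω i) (ω j) else 0) <
      2 * r + 2 * η * r).card : ℝ) * Fintype.card B ≤
      Fintype.card B * (16 / (η ^ 2 * r) * (Fintype.card B : ℝ) ^ r) := by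
    refine le_trans ?_ h2
    exact_mod_cast h1
  rw [mul_comm] at h5
  exact le_of_mul_le_mul_left h5 hN

/-- number of neighbours of the position `(i, c)` outside the block `i` -/
noncomputable def degR {r : ℕ} (R : Fin r × Fin 4 → Fin r × Fin 4 → Prop) (i : Fin r)
    (c : Fin 4) : ℝ :=
  ∑ i', if i' ≠ i then ∑ c', e R (i, c) (i', c') else 0

/-- bad blocks -/
def BadB {r : ℕ} (θ : ℝ) (R : Fin r × Fin 4 → Fin r × Fin 4 → Prop) (i : Fin r) : Prop :=
  ∃ c, degR R i c < θ ∨ degR (rev R) i c < θ

/-- the pattern of a tuple of blocks -/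
def pat {V B : Type} (G : V → V → Prop) (b : B × Fin 4 → V) {r : ℕ} (ω : Fin r → B) :
    Fin r × Fin 4 → Fin r × Fin 4 → Prop := fun p q => G (b (ω p.1, p.2)) (b (ω q.1, q.2))

theorem badcount {V B : Type} [Fintype V] [Fintype B] (G : V → V → Prop) (b : B × Fin 4 ≃ V)
    {r : ℕ} (i : Fin r) (c : Fin 4) (η : ℝ) (hη : 0 < η)
    (hdeg : ∀ v, (2 + 4 * η) * Fintype.card B ≤ dout G v) (hr : 4 ≤ η * r)
    [DecidablePred fun ω : Fin r → B => degR (pat G b ω) i c < 2 * r + 2 * η * r] :
    ((univ.filter fun ω : Fin r → B => degR (pat G b ω) i c <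
      2 * r + 2 * η * r).card : ℝ) ≤ 16 / (η ^ 2 * r) * (Fintype.card B : ℝ) ^ r := by
  classical
  have h1 := decouple i (fun z z' : B => ∑ c', e G (b (z, c)) (b (z', c')))
    (fun z z' => Finset.sum_nonneg fun _ _ => e_nonneg _ _ _)
    (fun z z' => by
      calc ∑ c' : Fin 4, e G (b (z, c)) (b (z', c')) ≤ ∑ _c' : Fin 4, (1 : ℝ) :=
            Finset.sum_le_sum fun _ _ => e_le_one _ _ _
        _ = 4 := by simp)
    η hη
    (fun z => by
      have h2 := hdeg (b (z, c))
      unfold dout at h2
      rw [← b.sum_comp, Fintype.sum_prod_type] at h2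
      exact h2) hr
  refine le_trans (le_of_eq ?_) h1
  congr 2
  ext ω
  rw [Finset.mem_filter, Finset.mem_filter]
  exact Iff.rfl

theorem markov {Ω : Type*} [Fintype Ω] (f : Ω → ℝ) (hf : ∀ ω, 0 ≤ f ω) (t : ℝ) (ht : 0 < t)
    [DecidablePred fun ω => t < f ω] :
    ((univ.filter fun ω => t < f ω).card : ℝ) ≤ (∑ ω, f ω) / t := by
  rw [le_div_iff₀ ht]
  calc ((univ.filter fun ω => t < f ω).card : ℝ) * t = ∑ ω ∈ univ.filter (fun ω => t < f ω), t := by
        rw [Finset.sum_const, nsmul_eq_mul]
    _ ≤ ∑ ω ∈ univ.filter (fun ω => t < f ω), f ω := by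
        apply Finset.sum_le_sum
        intro ω hω
        exact (Finset.mem_filter.1 hω).2.le
    _ ≤ ∑ ω, f ω := Finset.sum_le_sum_of_subset_of_nonneg (Finset.filter_subset _ _)
        fun ω _ _ => hf ω

open Classical in
/-- The good tuples of blocks: injective, few bad blocks, many leftover blocks. -/
theorem many_good {V B : Type} [Fintype V] [Fintype B] (G : V → V → Prop) (b : B × Fin 4 ≃ V)
    (Lo : B → Prop) {r : ℕ} (η ε β : ℝ) (hη : 0 < η) (hε : 0 < ε) (hβ : 0 < β)
    (hdO : ∀ v, (2 + 4 * η) * Fintype.card B ≤ dout G v)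
    (hdI : ∀ v, (2 + 4 * η) * Fintype.card B ≤ din G v) (hr : 4 ≤ η * r)
    (hr2 : 512 / (η ^ 2 * β) ≤ r) (hr3 : 16 / ε ^ 2 ≤ r) (hr0 : 0 < r)
    (hLo : ε * Fintype.card B ≤ (univ.filter Lo).card) (hB : 4 * r ^ 2 ≤ Fintype.card B) :
    (Fintype.card B : ℝ) ^ r / 4 ≤ ((univ.filter fun ω : Fin r → B => Function.Injective ω ∧
      ((univ.filter fun i => BadB (2 * r + 2 * η * r) (pat G b ω) i).card : ℝ) ≤ β * r ∧
      ε / 2 * r ≤ (univ.filter fun i => Lo (ω i)).card).card : ℝ) := by
  have hr0' : (0 : ℝ) < r := by exact_mod_cast hr0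
  have hNB : (0 : ℝ) < Fintype.card B := by
    have h1 : 0 < Fintype.card B := lt_of_lt_of_le (by positivity) hB
    exact_mod_cast h1
  set N : ℝ := (Fintype.card B : ℝ) with hN
  set θ : ℝ := 2 * r + 2 * η * r with hθ
  -- non-injective
  have h1 : ((univ.filter fun ω : Fin r → B => ¬ Function.Injective ω).card : ℝ) ≤ N ^ r / 4 := by
    have h2 := card_nonInj (Fin r) B
    rw [Fintype.card_fin] at h2
    have h3 : ((univ.filter fun ω : Fin r → B => ¬ Function.Injective ω).card : ℝ) * N ≤
        (r : ℝ) ^ 2 * N ^ r := by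
      rw [hN]
      exact_mod_cast h2
    have h4 : 4 * (r : ℝ) ^ 2 ≤ N := by
      rw [hN]
      exact_mod_cast hB
    have h5 : (r : ℝ) ^ 2 * N ^ r ≤ N / 4 * N ^ r :=
      mul_le_mul_of_nonneg_right (by linarith) (by positivity)
    have h6 : ((univ.filter fun ω : Fin r → B => ¬ Function.Injective ω).card : ℝ) * N ≤
        (N ^ r / 4) * N := by
      calc _ ≤ _ := h3
        _ ≤ _ := h5
        _ = _ := by ring
    exact le_of_mul_le_mul_right h6 hNB
  -- bad
  have h2 : ((univ.filter fun ω : Fin r → B =>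
      β * r < ((univ.filter fun i => BadB θ (pat G b ω) i).card : ℝ)).card : ℝ) ≤ N ^ r / 4 := by
    refine (markov (fun ω : Fin r → B => ((univ.filter fun i => BadB θ (pat G b ω) i).card : ℝ))
      (fun _ => Nat.cast_nonneg _) (β * r) (by positivity)).trans ?_
    have h3 : ∀ ω : Fin r → B, ((univ.filter fun i => BadB θ (pat G b ω) i).card : ℝ) ≤
        ∑ i, ∑ c, ((if degR (pat G b ω) i c < θ then 1 else 0) +
          (if degR (pat (rev G) b ω) i c < θ then 1 else 0) : ℝ) := by
      intro ω
      rw [Finset.card_filter]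
      push_cast
      apply Finset.sum_le_sum
      intro i _
      have hnn : ∀ c, (0 : ℝ) ≤ (if degR (pat G b ω) i c < θ then 1 else 0) +
          (if degR (pat (rev G) b ω) i c < θ then 1 else 0) := by
        intro c
        split_ifs <;> norm_num
      split_ifs with hb
      · obtain ⟨c, hc⟩ := hb
        refine le_trans ?_ (Finset.single_le_sum (fun c _ => hnn c) (Finset.mem_univ c))
        rcases hc with hc | hc
        · rw [if_pos hc]
          split_ifs <;> norm_num
        · have hc' : degR (pat (rev G) b ω) i c < θ := hc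
          rw [if_pos hc']
          split_ifs <;> norm_num
      · exact Finset.sum_nonneg fun c _ => hnn c
    have h4 : ∑ ω : Fin r → B, ((univ.filter fun i => BadB θ (pat G b ω) i).card : ℝ) ≤
        128 / η ^ 2 * N ^ r := by
      refine (Finset.sum_le_sum fun ω _ => h3 ω).trans ?_
      rw [Finset.sum_comm]
      have h5 : ∀ i : Fin r, ∑ ω : Fin r → B, ∑ c, ((if degR (pat G b ω) i c < θ then 1 else 0) +
          (if degR (pat (rev G) b ω) i c < θ then 1 else 0) : ℝ) ≤
          8 * (16 / (η ^ 2 * r) * N ^ r) := by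
        intro i
        rw [Finset.sum_comm]
        have h6 : ∀ c : Fin 4, ∑ ω : Fin r → B, ((if degR (pat G b ω) i c < θ then 1 else 0) +
          (if degR (pat (rev G) b ω) i c < θ then 1 else 0) : ℝ) ≤
          2 * (16 / (η ^ 2 * r) * N ^ r) := by
          intro c
          rw [Finset.sum_add_distrib, ← Finset.natCast_card_filter, ← Finset.natCast_card_filter]
          have h7 := badcount G b i c η hη hdO hr
          have h8 := badcount (rev G) b i c η hη hdI hr
          linarith
        calc _ ≤ ∑ _c : Fin 4, 2 * (16 / (η ^ 2 * r) * N ^ r) := Finset.sum_le_sum fun c _ => h6 c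
          _ = _ := by
            rw [Finset.sum_const, Finset.card_univ, Fintype.card_fin, nsmul_eq_mul]
            push_cast
            ring
      calc _ ≤ ∑ _i : Fin r, 8 * (16 / (η ^ 2 * r) * N ^ r) := Finset.sum_le_sum fun i _ => h5 i
        _ = 128 / η ^ 2 * N ^ r := by
          rw [Finset.sum_const, Finset.card_univ, Fintype.card_fin, nsmul_eq_mul]
          field_simp
          norm_num
    rw [div_le_iff₀ (by positivity)]
    refine h4.trans ?_
    have h9 : 128 / η ^ 2 ≤ 1 / 4 * (β * r) := by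
      rw [div_le_iff₀ (by positivity)] at hr2 ⊢
      nlinarith
    calc 128 / η ^ 2 * N ^ r ≤ 1 / 4 * (β * r) * N ^ r :=
          mul_le_mul_of_nonneg_right h9 (by positivity)
      _ = N ^ r / 4 * (β * r) := by ring
  -- leftover
  have h3 : ((univ.filter fun ω : Fin r → B =>
      ((univ.filter fun i => Lo (ω i)).card : ℝ) < ε / 2 * r).card : ℝ) ≤ N ^ r / 4 := by
    let x : B → ℝ := fun z => if Lo z then 1 else 0
    have hx : ∑ z, x z = ((univ.filter Lo).card / N) * N := by
      simp only [x]
      rw [← Finset.natCast_card_filter]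
      field_simp
    have h4 := chebyshev x 1 (fun z => by simp only [x]; split_ifs <;> norm_num)
      (fun z => by simp only [x]; split_ifs <;> norm_num) _ hx r (ε / 2 * r) (by positivity)
    have h5 : (univ.filter fun ω : Fin r → B =>
        ((univ.filter fun i => Lo (ω i)).card : ℝ) < ε / 2 * r) ⊆
        (univ.filter fun ω : Fin r → B => ∑ j, x (ω j) <
          r * ((univ.filter Lo).card / N) - ε / 2 * r) := by
      intro ω hω
      rw [Finset.mem_filter] at hω ⊢
      refine ⟨Finset.mem_univ _, ?_⟩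
      have h6 : ∑ j, x (ω j) = ((univ.filter fun i => Lo (ω i)).card : ℝ) := by
        simp only [x]
        rw [← Finset.natCast_card_filter]
      rw [h6]
      have h7 : ε ≤ (univ.filter Lo).card / N := (le_div_iff₀ hNB).2 hLo
      nlinarith [hω.2]
    have h6 : ((univ.filter fun ω : Fin r → B =>
        ((univ.filter fun i => Lo (ω i)).card : ℝ) < ε / 2 * r).card : ℝ) ≤ _ :=
      le_trans (by exact_mod_cast Finset.card_le_card h5) h4
    refine h6.trans ?_
    have h7 : (1 : ℝ) ^ 2 * r / (ε / 2 * r) ^ 2 ≤ 1 / 4 := by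
      rw [div_le_iff₀ (by positivity)]
      rw [div_le_iff₀ (by positivity)] at hr3
      nlinarith
    calc _ ≤ 1 / 4 * N ^ r := mul_le_mul_of_nonneg_right h7 (by positivity)
      _ = N ^ r / 4 := by ring
  -- union bound
  have h4 : (univ : Finset (Fin r → B)) ⊆ ((univ.filter fun ω : Fin r → B => Function.Injective ω ∧
      ((univ.filter fun i => BadB (2 * r + 2 * η * r) (pat G b ω) i).card : ℝ) ≤ β * r ∧
      ε / 2 * r ≤ (univ.filter fun i => Lo (ω i)).card)) ∪
      ((univ.filter fun ω : Fin r → B => ¬ Function.Injective ω) ∪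
      ((univ.filter fun ω : Fin r → B =>
        β * r < ((univ.filter fun i => BadB θ (pat G b ω) i).card : ℝ)) ∪
      (univ.filter fun ω : Fin r → B =>
        ((univ.filter fun i => Lo (ω i)).card : ℝ) < ε / 2 * r))) := by
    intro ω _
    rw [Finset.mem_union, Finset.mem_union, Finset.mem_union, Finset.mem_filter,
      Finset.mem_filter, Finset.mem_filter, Finset.mem_filter]
    by_cases q1 : Function.Injective ω
    · by_cases q2 : ((univ.filter fun i => BadB θ (pat G b ω) i).card : ℝ) ≤ β * r
      · by_cases q3 : ε / 2 * r ≤ ((univ.filter fun i => Lo (ω i)).card : ℝ)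
        · exact Or.inl ⟨Finset.mem_univ _, q1, q2, q3⟩
        · exact Or.inr (Or.inr (Or.inr ⟨Finset.mem_univ _, not_le.1 q3⟩))
      · exact Or.inr (Or.inr (Or.inl ⟨Finset.mem_univ _, not_le.1 q2⟩))
    · exact Or.inr (Or.inl ⟨Finset.mem_univ _, q1⟩)
  have h5 := Finset.card_le_card h4
  have h6 := h5.trans (Finset.card_union_le _ _)
  have h7 := h6.trans (Nat.add_le_add_left (Finset.card_union_le _ _) _)
  have h8 := h7.trans (Nat.add_le_add_left (Nat.add_le_add_left (Finset.card_union_le _ _) _) _)
  rw [Finset.card_univ, Fintype.card_fun, Fintype.card_fin] at h8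
  have h9 : N ^ r ≤ ((univ.filter fun ω : Fin r → B => Function.Injective ω ∧
      ((univ.filter fun i => BadB (2 * r + 2 * η * r) (pat G b ω) i).card : ℝ) ≤ β * r ∧
      ε / 2 * r ≤ (univ.filter fun i => Lo (ω i)).card).card : ℝ) +
      (((univ.filter fun ω : Fin r → B => ¬ Function.Injective ω).card : ℝ) +
      (((univ.filter fun ω : Fin r → B =>
        β * r < ((univ.filter fun i => BadB θ (pat G b ω) i).card : ℝ)).card : ℝ) +
      ((univ.filter fun ω : Fin r → B =>
        ((univ.filter fun i => Lo (ω i)).card : ℝ) < ε / 2 * r).card : ℝ))) := by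
    rw [hN]
    exact_mod_cast h8
  linarith

end Pool.Agent.C4F
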